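import Mathlib
import Pool.Agent.Lib.MP_0c623d_al.BP.ADefs

set_option autoImplicit false

/-!
The single valued Gram matrix of the rank six system and the statements near a triple collision.
-/

namespace Pool.Agent.Lib.MP_0c623d_al.BP

open Complex Matrix
open scoped ComplexConjugate

noncomputable section

/-- six by six matrices -/
abbrev M6 := Matrix (Fin 6) (Fin 6) ℂ

/-- the bilinear form `M(a, v)` as a row -/
def Bm (a v : Cf) : Fin 6 → ℂ := fun n => (a (fst n) - a (snd n)) * (v (fst n) - v (snd n))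

/-- the sesquilinear form of a matrix on rows -/
def qf (X : M6) (x y : Fin 6 → ℂ) : ℂ := x ⬝ᵥ X *ᵥ star y

/-- the action of a permutation of the points on the pairs -/
def pp (σ : Equiv.Perm (Fin 4)) (n : Fin 6) : Fin 6 := ix (σ (fst n)) (σ (snd n))

/-- a single valued flat invertible Hermitian matrix on the configuration space whose inverse
computes the dual integrals -/
structure Gr (e : ℝ) (Hk Hi : Cf → M6) : Prop where
  der : ∀ a : Cf, Function.Injective a → ∃ D : Cf →L[ℝ] M6, HasFDerivAt Hk D a ∧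
    ∀ v, D v = conn e a v * Hk a + Hk a * (conn e a v)ᴴ
  inv : ∀ a : Cf, Function.Injective a → Hk a * Hi a = 1 ∧ Hi a * Hk a = 1
  herm : ∀ a : Cf, Function.Injective a → (Hk a)ᴴ = Hk a
  perm : ∀ (σ : Equiv.Perm (Fin 4)) (a : Cf), Function.Injective a →
    Hk (a ∘ σ) = (Hk a).submatrix (pp σ) (pp σ)
  dual : ∀ a : Cf, Function.Injective a → ∀ l : Fin 3 → ℂ,
    star (Srow a l) ⬝ᵥ Hi a *ᵥ Srow a l = G e a l

/-- the signs: the period vector is positive and its orthogonal in the first jet is negative -/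
structure Sg (Hk : Cf → M6) : Prop where
  pos : ∀ a : Cf, Function.Injective a → 0 < (qf (Hk a) (cw a) (cw a)).re
  neg : ∀ a : Cf, Function.Injective a → ∀ v : Cf,
    (qf (Hk a) (cw a) (cw a)).re * (qf (Hk a) (Bm a v) (Bm a v)).re ≤
      ‖qf (Hk a) (cw a) (Bm a v)‖ ^ 2

/-- the square size of a configuration -/
def Sz (a : Cf) : ℝ := ∑ n, ‖a (fst n) - a (snd n)‖ ^ 2

/-- the square size of the triple that misses `l` -/
def Sl (l : Fin 4) (a : Cf) : ℝ :=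
  ∑ n, if fst n = l ∨ snd n = l then 0 else ‖a (fst n) - a (snd n)‖ ^ 2

/-- the proper function at the triple collision that misses `l` -/
def tau (l : Fin 4) (a : Cf) : ℝ := Real.log (1 + Real.log (Sz a / Sl l a))

/-- the chart at the triple collision of `0 1 2` -/
def ch (s z : ℂ) : Cf := ![-(s * z / 2), s * z / 2, s, 1]

/-- lower bound with a logarithm for one dual integral -/
def LogSt : Prop := ∀ e : ℝ, 0 < e → e < 1 / 12 → ∃ c δ : ℝ, 0 < c ∧ 0 < δ ∧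
  ∀ s z x0 : ℂ, s ≠ 0 → ‖s‖ ≤ δ → z ≠ 0 → ‖z‖ ≤ 3 / 2 → ‖x0‖ ≤ 3 * ‖s‖ →
    c * ‖z‖ ^ (-4 * e) * ‖s‖ ^ (-1 - 6 * e) * Real.log (1 / ‖s‖) ≤
      G e (ch s z) ![2 * x0, -(1 + x0), 2]

/-- a negative plane -/
def NegSt : Prop := ∀ (j : ℕ) (e : ℝ), 3 ≤ j → e = 1 / (4 * j + 2) → ∀ Hk Hi : Cf → M6,
  Gr e Hk Hi → ∃ a : Cf, Function.Injective a ∧ ∃ x y : Fin 6 → ℂ, ∀ p q : ℂ, (p ≠ 0 ∨ q ≠ 0) →
    (qf (Hk a) (p • x + q • y) (p • x + q • y)).re < 0

/-- growth of the norm of the period vector -/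
def GrowSt : Prop := ∀ (j : ℕ) (e : ℝ), 3 ≤ j → e = 1 / (4 * j + 2) → ∀ Hk Hi : Cf → M6,
  Gr e Hk Hi → ∃ C δ : ℝ, 0 < δ ∧ ∀ (l : Fin 4) (a : Cf), Function.Injective a →
    Sl l a ≤ δ * Sz a → ‖qf (Hk a) (cw a) (cw a)‖ ≤
      C * Sz a ^ (-3 / 2 + 5 * e) * (Sl l a / Sz a) ^ (-1 / 2 + 3 * e) *
        Real.log (Sz a / Sl l a)

/-- the completeness inequality -/
def CuspSt : Prop := ∀ (j : ℕ) (e : ℝ), 3 ≤ j → e = 1 / (4 * j + 2) → ∀ Hk Hi : Cf → M6,
  Gr e Hk Hi → Sg Hk → ∃ C R0 : ℝ, ∀ (l : Fin 4) (a v : Cf), Function.Injective a →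
    R0 < tau l a → (fderiv ℝ (tau l) a v) ^ 2 * (qf (Hk a) (cw a) (cw a)).re ^ 2 ≤
      C * (‖qf (Hk a) (cw a) (Bm a v)‖ ^ 2 -
        (qf (Hk a) (cw a) (cw a)).re * (qf (Hk a) (Bm a v) (Bm a v)).re)

end

end Pool.Agent.Lib.MP_0c623d_al.BP
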