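import Pool.Agent.Lib.MP_0c623d_al.E.Defs2

set_option autoImplicit false

/-!
Homogeneity of the Gram matrix, and the reduction of the estimates at a triple collision to the
chart.
-/

namespace Pool.Agent.Lib.MP_0c623d_al.BP

open Complex Matrix

namespace Red

theorem fst_ne (n : Fin 6) : fst n ≠ snd n := by revert n; decide

theorem sum_res (e : ℝ) : ∑ n, Res e n = ((-7 / 2 + 5 * e : ℝ) : ℂ) • (1 : M6) := by
  have h : ∑ n, ResA n = 8 • (1 : Matrix (Fin 6) (Fin 6) ℤ) := by decide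
  ext r c
  have h1 : (∑ n, (ResA n r c : ℂ)) = if r = c then 8 else 0 := by
    rw [← Int.cast_sum, ← Matrix.sum_apply, h, Matrix.smul_apply, Matrix.one_apply]
    split_ifs <;> simp
  simp only [Matrix.sum_apply, Res, of_apply, Finset.sum_add_distrib, ← Finset.mul_sum, h1,
    Matrix.smul_apply, Matrix.one_apply, ite_and, Finset.sum_ite_eq, Finset.mem_univ, if_true]
  by_cases hrc : r = c
  · simp only [hrc, if_true, al, be, smul_eq_mul]; push_cast; ring
  · simp [hrc, Ne.symm hrc]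

theorem ix_spec : ∀ i j : Fin 4, i ≠ j →
    (fst (ix i j) = i ∧ snd (ix i j) = j) ∨ (fst (ix i j) = j ∧ snd (ix i j) = i) := by decide

theorem ix_comm : ∀ i j : Fin 4, ix i j = ix j i := by decide

theorem ix_self : ∀ n : Fin 6, ix (fst n) (snd n) = n := by decide

theorem pp_spec (σ : Equiv.Perm (Fin 4)) (n : Fin 6) :
    (fst (pp σ n) = σ (fst n) ∧ snd (pp σ n) = σ (snd n)) ∨
      (fst (pp σ n) = σ (snd n) ∧ snd (pp σ n) = σ (fst n)) :=
  ix_spec _ _ (σ.injective.ne (fst_ne n))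

theorem pp_inv (σ : Equiv.Perm (Fin 4)) (n : Fin 6) : pp σ⁻¹ (pp σ n) = n := by
  rcases pp_spec σ n with h | h
  · rw [pp, h.1, h.2]; simp [ix_self]
  · rw [pp, h.1, h.2, ix_comm]; simp [ix_self]

/-- the permutation of the pairs -/
def ppE (σ : Equiv.Perm (Fin 4)) : Equiv.Perm (Fin 6) :=
  ⟨pp σ, pp σ⁻¹, pp_inv σ, fun n => by simpa using pp_inv σ⁻¹ n⟩

theorem Bm_perm (σ : Equiv.Perm (Fin 4)) (a v : Cf) : Bm (a ∘ σ) (v ∘ σ) = Bm a v ∘ ppE σ := by
  funext n
  show _ = Bm a v (pp σ n)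
  rcases pp_spec σ n with h | h <;> simp only [Bm, h.1, h.2, Function.comp_apply]
  ring

theorem cw_eq (a : Cf) : cw a = Bm a a := funext fun n => by simp only [cw, Bm, sq]

theorem qf_perm (X : M6) (p : Equiv.Perm (Fin 6)) (x y : Fin 6 → ℂ) :
    qf (X.submatrix p p) (x ∘ p) (y ∘ p) = qf X x y := by
  simp only [qf, dotProduct, mulVec, submatrix_apply, Function.comp_apply, Pi.star_apply]
  rw [← Equiv.sum_comp p fun i => x i * ∑ j, X i j * star (y j)]
  exact Finset.sum_congr rfl fun i _ => by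
    rw [← Equiv.sum_comp p fun j => X (p i) j * star (y j)]

theorem qf_smul (X : M6) (r p q : ℂ) (x y : Fin 6 → ℂ) :
    qf (r • X) (p • x) (q • y) = r * (p * star q) * qf X x y := by
  simp only [qf, star_smul, smul_mulVec, mulVec_smul, smul_dotProduct, dotProduct_smul,
    smul_eq_mul]
  ring

theorem qf_conj {X : M6} (hX : Xᴴ = X) (x y : Fin 6 → ℂ) : qf X y x = star (qf X x y) := by
  rw [qf, qf, ← star_star x, star_dotProduct, star_star, star_mulVec, star_star, hX, star_star,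
    dotProduct_mulVec]

theorem qf_shift {X : M6} (hX : Xᴴ = X) (p : ℂ) (w B : Fin 6 → ℂ) :
    ‖qf X w (p • w + B)‖ ^ 2 - (qf X w w).re * (qf X (p • w + B) (p • w + B)).re =
      ‖qf X w B‖ ^ 2 - (qf X w w).re * (qf X B B).re := by
  have h1 := qf_conj hX w B
  have h2 : (qf X w w).im = 0 := by
    have := congrArg Complex.im (qf_conj hX w w)
    simp only [star_def, conj_im] at this
    linarith
  have h3 : qf X w (p • w + B) = star p * qf X w w + qf X w B := by
    simp only [qf, star_add, star_smul, mulVec_add, mulVec_smul, dotProduct_add, dotProduct_smul,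
      smul_eq_mul]
  have h4 : qf X (p • w + B) (p • w + B) =
      p * (star p * qf X w w + qf X w B) + (star p * qf X B w + qf X B B) := by
    simp only [qf, star_add, star_smul, mulVec_add, mulVec_smul, dotProduct_add, dotProduct_smul,
      add_dotProduct, smul_dotProduct, smul_eq_mul]
    ring
  rw [h3, h4, h1, Complex.sq_norm, Complex.sq_norm]
  simp only [normSq_apply, add_re, add_im, mul_re, mul_im, star_def, conj_re, conj_im, h2]
  ring

theorem Sz_perm (σ : Equiv.Perm (Fin 4)) (a : Cf) : Sz (a ∘ σ) = Sz a := by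
  rw [Sz, Sz, ← Equiv.sum_comp (ppE σ) fun n => ‖a (fst n) - a (snd n)‖ ^ 2]
  refine Finset.sum_congr rfl fun n _ => ?_
  show _ = ‖a (fst (pp σ n)) - a (snd (pp σ n))‖ ^ 2
  rcases pp_spec σ n with h | h <;> simp only [h.1, h.2, Function.comp_apply]
  rw [norm_sub_rev]

theorem Sl_perm (σ : Equiv.Perm (Fin 4)) (l : Fin 4) (a : Cf) : Sl l (a ∘ σ) = Sl (σ l) a := by
  rw [Sl, Sl, ← Equiv.sum_comp (ppE σ) fun n =>
    if fst n = σ l ∨ snd n = σ l then 0 else ‖a (fst n) - a (snd n)‖ ^ 2]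
  refine Finset.sum_congr rfl fun n _ => ?_
  show _ = if fst (pp σ n) = σ l ∨ snd (pp σ n) = σ l then 0 else
    ‖a (fst (pp σ n)) - a (snd (pp σ n))‖ ^ 2
  rcases pp_spec σ n with h | h <;>
    simp only [h.1, h.2, Function.comp_apply, σ.injective.eq_iff]
  rw [norm_sub_rev]; simp only [or_comm]

theorem tau_aff (l : Fin 4) (a : Cf) {c : ℂ} (d : ℂ) (hc : c ≠ 0) :
    tau l (fun i => c * a i + d) = tau l a := by
  have h : ∀ i j, ‖c * a i + d - (c * a j + d)‖ ^ 2 = ‖c‖ ^ 2 * ‖a i - a j‖ ^ 2 := fun i j => by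
    rw [add_sub_add_right_eq_sub, ← mul_sub, norm_mul, mul_pow]
  have h1 : Sz (fun i => c * a i + d) = ‖c‖ ^ 2 * Sz a := by simp only [Sz, h, Finset.mul_sum]
  have h2 : Sl l (fun i => c * a i + d) = ‖c‖ ^ 2 * Sl l a := by
    simp only [Sl, h, Finset.mul_sum, mul_ite, mul_zero]
  rw [tau, tau, h1, h2, mul_div_mul_left _ _ (pow_ne_zero 2 (norm_ne_zero_iff.2 hc))]

theorem Sl_le (l : Fin 4) (a : Cf) : Sl l a ≤ Sz a :=
  Finset.sum_le_sum fun n _ => by split_ifs; exacts [sq_nonneg _, le_rfl]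

theorem Sl_pos (l : Fin 4) {a : Cf} (ha : Function.Injective a) : 0 < Sl l a := by
  obtain ⟨n, hn⟩ : ∃ n, ¬(fst n = l ∨ snd n = l) := by revert l; decide
  refine Finset.sum_pos' (fun m _ => by split_ifs; exacts [le_rfl, sq_nonneg _])
    ⟨n, Finset.mem_univ _, ?_⟩
  rw [if_neg hn]
  exact pow_pos (norm_pos_iff.2 (sub_ne_zero.2 (ha.ne (fst_ne n)))) 2

theorem fderiv_tau {σ : Equiv.Perm (Fin 4)} {a b : Cf} {c d : ℂ} (hc : c ≠ 0)
    (h : a ∘ σ = fun i => c * b i + d) (l : Fin 4) {v w : Cf} (hw : v ∘ σ = fun i => c * w i) :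
    fderiv ℝ (tau (σ l)) a v = fderiv ℝ (tau l) b w := by
  let L : Cf ≃L[ℝ] Cf := LinearEquiv.toContinuousLinearEquiv
    { toFun := fun x i => c⁻¹ * x (σ i)
      invFun := fun x i => c * x (σ.symm i)
      map_add' := fun x y => funext fun i => by simp [mul_add]
      map_smul' := fun r x => funext fun i => by simp; ring
      left_inv := fun x => funext fun i => by simp [hc]
      right_inv := fun x => funext fun i => by simp [hc] }
  have hL : ∀ x, L x = fun i => c⁻¹ * x (σ i) := fun _ => rfl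
  have h1 : tau (σ l) = tau l ∘ L := funext fun x => by
    have := tau_aff l (x ∘ σ) 0 (inv_ne_zero hc)
    simp only [add_zero, Function.comp_apply] at this
    rw [Function.comp_apply, hL, this, tau, tau, Sz_perm, Sl_perm]
  have h2 : L a = b + fun _ => c⁻¹ * d := funext fun i => by
    have := congrFun h i
    simp only [Function.comp_apply] at this
    simp only [hL, this, Pi.add_apply]; field_simp
  have h3 : L v = w := funext fun i => by
    have := congrFun hw i
    simp only [Function.comp_apply] at this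
    simp only [hL, this]; field_simp
  have h4 : (fun x : Cf => tau l (x + fun _ => c⁻¹ * d)) = tau l := funext fun x => by
    have := tau_aff l x (c⁻¹ * d) one_ne_zero
    simp only [one_mul] at this
    exact this
  rw [h1, L.comp_right_fderiv, h2, ← fderiv_comp_add_right, h4]
  simp [h3]

end Red

open Red

theorem scaleSt : ScaleSt := by
  intro e Hk Hi hG a c d ha hc
  set g := log c
  set μ : ℝ := (-7 + 10 * e) * g.re with hμ
  let γ : ℝ → Cf := fun t i => exp (t * g) * a i + t * d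
  have hγ : ∀ t : ℝ, HasDerivAt γ (fun i => g * exp (t * g) * a i + d) t := fun t =>
    hasDerivAt_pi.2 fun i => by
      have h0 := (ofRealCLM.hasDerivAt (x := t))
      have := (((h0.mul_const g).cexp).mul_const (a i)).add (h0.mul_const d)
      refine HasDerivAt.congr_deriv this ?_
      simp [mul_comm]
  have hi : ∀ t, Function.Injective (γ t) := fun t i j h =>
    ha (mul_left_cancel₀ (exp_ne_zero _) (add_right_cancel h))
  have hcn : ∀ t, conn e (γ t) (fun i => g * exp (t * g) * a i + d) =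
      (g * ((-7 / 2 + 5 * e : ℝ) : ℂ)) • (1 : M6) := fun t => by
    rw [mul_smul, ← sum_res, Finset.smul_sum, conn]
    refine Finset.sum_congr rfl fun n _ => ?_
    have h1 := sub_ne_zero.2 (ha.ne (fst_ne n))
    have h2 := exp_ne_zero (t * g)
    congr 1
    simp only [γ, add_sub_add_right_eq_sub, ← mul_sub]
    field_simp
  ext r s
  have hd : ∀ t : ℝ, HasDerivAt (fun t : ℝ => exp (-μ * t) * Hk (γ t) r s) 0 t := fun t => by
    obtain ⟨D, hD, hv⟩ := hG.der _ (hi t)
    have h1 : HasFDerivAt (fun x => Hk x r s) _ (γ t) :=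
      hasFDerivAt_pi'.1 (hasFDerivAt_pi'.1 hD r) s
    have h2 := h1.comp_hasDerivAt t (hγ t)
    have h3 := ((ofRealCLM.hasDerivAt (x := t)).const_mul (-μ : ℂ)).cexp.mul h2
    refine HasDerivAt.congr_deriv h3 ?_
    have h4 : ((D fun i => g * exp (t * g) * a i + d) r s) = μ * Hk (γ t) r s := by
      rw [hv, hcn]
      simp only [smul_mul, Matrix.one_mul, conjTranspose_smul, conjTranspose_one, Matrix.mul_smul,
        Matrix.mul_one, Matrix.add_apply, Matrix.smul_apply, smul_eq_mul, star_mul', star_def,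
        conj_ofReal, hμ]
      rw [← add_mul, ← add_mul, add_conj]
      push_cast; ring
    show exp (-μ * t) * (-μ * (1 : ℝ)) * Hk (γ t) r s +
      exp (-μ * t) * (D fun i => g * exp (t * g) * a i + d) r s = 0
    rw [h4]
    push_cast; ring
  have h := is_const_of_deriv_eq_zero (fun t => (hd t).differentiableAt) (fun t => (hd t).deriv) 1 0
  have e0 : γ 0 = a := funext fun i => by simp [γ]
  have e1 : γ 1 = fun i => c * a i + d := funext fun i => by simp [γ, g, exp_log hc]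
  simp only [e0, e1, ofReal_one, ofReal_zero, mul_one, mul_zero, exp_zero, one_mul] at h
  rw [Matrix.smul_apply, smul_eq_mul, ← h, ← mul_assoc, Real.rpow_def_of_pos (norm_pos_iff.2 hc),
    ← log_re, mul_comm (log c).re, ← hμ, ofReal_exp, ← exp_add]
  simp

namespace Red

theorem qf_norm {e : ℝ} {Hk Hi : Cf → M6} (hG : Gr e Hk Hi) {σ : Equiv.Perm (Fin 4)} {a b : Cf}
    {c d : ℂ} (ha : Function.Injective a) (hc : c ≠ 0) (h : a ∘ σ = fun i => c * b i + d) :
    Function.Injective b ∧ ∀ {u u' v v' : Cf} {p q : ℂ}, (u ∘ σ = fun i => c * u' i + p) →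
      (v ∘ σ = fun i => c * v' i + q) → qf (Hk a) (Bm a u) (Bm a v) =
        ((‖c‖ ^ (-3 + 10 * e) : ℝ) : ℂ) * qf (Hk b) (Bm b u') (Bm b v') := by
  have hb : Function.Injective b := fun i j hij => by
    refine (ha.comp σ.injective) ?_
    rw [h]; simp only [hij]
  refine ⟨hb, fun {u u' v v' p q} hu hv => ?_⟩
  have hB : ∀ (w : Cf) (r : ℂ), Bm (fun i => c * b i + d) (fun i => c * w i + r) =
      (c ^ 2) • Bm b w := fun w r => funext fun n => by
    simp only [Bm, Pi.smul_apply, smul_eq_mul]; ring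
  rw [← qf_perm (Hk a) (ppE σ), ← Bm_perm, ← Bm_perm]
  show qf ((Hk a).submatrix (pp σ) (pp σ)) _ _ = _
  rw [← hG.perm σ a ha, h, hu, hv, scaleSt e Hk Hi hG b c d hb hc, hB, hB, qf_smul, star_def,
    mul_conj, normSq_eq_norm_sq, ← ofReal_mul, norm_pow, ← pow_mul, ← Real.rpow_natCast,
    ← Real.rpow_add (norm_pos_iff.2 hc)]
  congr 3
  push_cast; ring

end Red

theorem redGrow (hN : NormSt) : RedGrow := by
  intro e Hk Hi he he' hG ⟨C1, δ1, hδ1, H1⟩
  obtain ⟨C0, δ0, hC0, hδ0, H0⟩ := hN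
  refine ⟨|C1| * (C0⁻¹ ^ (-3 / 2 + 5 * e) * C0⁻¹ ^ (-1 / 2 + 3 * e)),
    min (min δ0 1) (min (δ1 ^ 2) 1 / C0), by positivity, fun l a ha hl => ?_⟩
  have hS := Sl_pos l ha
  have hZ := hS.trans_le (Sl_le l a)
  obtain ⟨σ, c, d, s, z, -, hc, hs, hz, hz', h, b1, b2, b3, -⟩ := H0 l a ha
    (hl.trans (by gcongr; exact (min_le_left _ _).trans (min_le_left _ _)))
  set r := Sl l a / Sz a with hr
  have hr0 : 0 < r := by positivity
  have hr1 : C0 * r ≤ min (δ1 ^ 2) 1 := by
    rw [mul_comm, ← le_div_iff₀ hC0, hr, div_le_iff₀ hZ]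
    exact hl.trans (by gcongr; exact min_le_right _ _)
  have hs0 := norm_pos_iff.2 hs
  have hc0 := norm_pos_iff.2 hc
  have hs1 : ‖s‖ ≤ δ1 := (sq_le_sq₀ hs0.le hδ1.le).1
    (b1.trans (hr1.trans (min_le_left _ _)))
  have hs2 : ‖s‖ ≤ 1 := by nlinarith [b1.trans (hr1.trans (min_le_right _ _))]
  have H := H1 s z hs hs1 hz hz'
  rw [cw_eq] at H ⊢
  rw [(qf_norm hG ha hc h).2 h h, norm_mul, norm_real, Real.norm_of_nonneg (by positivity)]
  have e1 : ‖c‖ ^ (-3 + 10 * e) ≤ C0⁻¹ ^ (-3 / 2 + 5 * e) * Sz a ^ (-3 / 2 + 5 * e) := by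
    rw [← Real.mul_rpow (by positivity) hZ.le,
      show -3 + 10 * e = (2 : ℕ) * (-3 / 2 + 5 * e) by push_cast; ring,
      Real.rpow_natCast_mul hc0.le]
    exact Real.rpow_le_rpow_of_nonpos (by positivity) ((inv_mul_le_iff₀ hC0).2 b3) (by linarith)
  have e2 : ‖s‖ ^ (-1 + 6 * e) ≤ C0⁻¹ ^ (-1 / 2 + 3 * e) * r ^ (-1 / 2 + 3 * e) := by
    rw [← Real.mul_rpow (by positivity) hr0.le,
      show -1 + 6 * e = (2 : ℕ) * (-1 / 2 + 3 * e) by push_cast; ring,
      Real.rpow_natCast_mul hs0.le]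
    exact Real.rpow_le_rpow_of_nonpos (by positivity) ((inv_mul_le_iff₀ hC0).2 b2) (by linarith)
  have e3 : Real.log (1 / ‖s‖) ≤ Real.log (Sz a / Sl l a) := by
    refine Real.log_le_log (by positivity) ?_
    rw [← inv_div (Sl l a), ← hr, one_div]
    refine inv_anti₀ hr0 ((sq_le_sq₀ hr0.le hs0.le).1 ?_)
    nlinarith [mul_le_mul_of_nonneg_right (hr1.trans (min_le_right _ _)) (sq_nonneg ‖s‖),
      mul_le_mul_of_nonneg_left b2 hr0.le]
  have e4 : 0 ≤ Real.log (1 / ‖s‖) := Real.log_nonneg ((le_div_iff₀ hs0).2 (by linarith))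
  calc _ ≤ (C0⁻¹ ^ (-3 / 2 + 5 * e) * Sz a ^ (-3 / 2 + 5 * e)) *
        (|C1| * (C0⁻¹ ^ (-1 / 2 + 3 * e) * r ^ (-1 / 2 + 3 * e)) * Real.log (Sz a / Sl l a)) := by
        refine mul_le_mul e1 (H.trans ?_) (norm_nonneg _) (by positivity)
        gcongr
        exact le_abs_self _
    _ = _ := by ring

theorem redCusp (hN : NormSt) (hT : TauSt) : RedCusp := by
  intro e Hk Hi _ _ hG _ ⟨C1, δ1, hδ1, H1⟩
  obtain ⟨C0, δ0, hC0, hδ0, H0⟩ := hN
  obtain ⟨C2, δ2, hδ2, H2⟩ := hT
  set m := min (min δ1 δ2) (1 / 2) with hm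
  have hm0 : 0 < m := by positivity
  set δ := min δ0 (m ^ 2 / C0) with hδ
  have hδ' : 0 < δ := by positivity
  refine ⟨|C2| * C1, δ⁻¹, fun l a v ha hl => ?_⟩
  have hS := Sl_pos l ha
  have hZ := hS.trans_le (Sl_le l a)
  have hl' : Sl l a / Sz a ≤ δ := by
    have h1 : 0 ≤ Real.log (Sz a / Sl l a) := Real.log_nonneg ((one_le_div hS).2 (Sl_le l a))
    have h2 := Real.log_le_sub_one_of_pos (x := 1 + Real.log (Sz a / Sl l a)) (by linarith)
    have h3 := Real.log_le_sub_one_of_pos (x := Sz a / Sl l a) (by positivity)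
    rw [← inv_div]
    exact inv_le_of_inv_le₀ hδ' (by unfold tau at hl; linarith)
  obtain ⟨σ, c, d, s, z, rfl, hc, hs, hz, hz', h, b1, -⟩ := H0 _ a ha
    (((div_le_iff₀ hZ).1 hl').trans (by gcongr; exact min_le_left _ _))
  have hs0 := norm_pos_iff.2 hs
  have hs1 : ‖s‖ ≤ m := (sq_le_sq₀ hs0.le hm0.le).1 (b1.trans (by
    rw [mul_comm, ← le_div_iff₀ hC0]; exact hl'.trans (min_le_right _ _)))
  obtain ⟨p, q, x, y, hv⟩ : ∃ p q x y : ℂ,
      v ∘ σ = fun i => c * (p * ch s z i + q + tv s z x y i) := by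
    set w : Cf := fun i => v (σ i) / c with hw
    refine ⟨w 3 - (w 0 + w 1) / 2, (w 0 + w 1) / 2, (w 2 - (w 0 + w 1) / 2) / s -
      (w 3 - (w 0 + w 1) / 2), (w 1 - w 0) / s - (w 2 - (w 0 + w 1) / 2) / s * z,
      funext fun i => ?_⟩
    have : (v ∘ σ) i = c * w i := by simp only [hw, Function.comp_apply]; field_simp
    rw [this]
    congr 1
    fin_cases i <;> simp [ch, tv] <;> field_simp <;> ring
  obtain ⟨hb, hq⟩ := qf_norm hG ha hc h
  have hv' : v ∘ σ = fun i => c * (p * ch s z i + q + tv s z x y i) + 0 := by simp [hv]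
  have hB : Bm (ch s z) (fun i => p * ch s z i + q + tv s z x y i) =
      p • Bm (ch s z) (ch s z) + Bm (ch s z) (tv s z x y) := funext fun n => by
    simp only [Bm, Pi.add_apply, Pi.smul_apply, smul_eq_mul]; ring
  have A := H1 s z hs (hs1.trans ((min_le_left _ _).trans (min_le_left _ _))) hz hz' x y
  have B := H2 s z hs (hs1.trans ((min_le_left _ _).trans (min_le_right _ _))) hz' p q x y
  rw [cw_eq] at A ⊢
  rw [← qf_shift (hG.herm _ hb) p, ← hB] at A
  rw [fderiv_tau hc h 3 hv, hq h h, hq h hv', hq hv' hv', norm_mul, norm_real,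
    Real.norm_of_nonneg (by positivity), re_ofReal_mul, re_ofReal_mul]
  have hL : 0 < Real.log (1 / ‖s‖) :=
    Real.log_pos ((lt_div_iff₀ hs0).2 (by linarith [hs1.trans (min_le_right _ _)]))
  generalize ‖c‖ ^ (-3 + 10 * e) = k
  generalize (qf (Hk (ch s z)) (Bm (ch s z) (ch s z)) (Bm (ch s z) (ch s z))).re = φ at *
  generalize fderiv ℝ (tau 3) (ch s z) _ = t at *
  generalize ‖qf (Hk (ch s z)) _ _‖ = N at *
  generalize (qf (Hk (ch s z)) _ _).re = M at *
  have B' : t ^ 2 * Real.log (1 / ‖s‖) ^ 2 ≤ |C2| * (‖x‖ ^ 2 + ‖y‖ ^ 2) :=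
    B.trans (by gcongr; exact le_abs_self _)
  have key : t ^ 2 * φ ^ 2 ≤ |C2| * C1 * (N ^ 2 - φ * M) := by
    refine le_of_mul_le_mul_right ?_ (pow_pos hL 2)
    nlinarith [mul_le_mul_of_nonneg_right B' (sq_nonneg φ),
      mul_le_mul_of_nonneg_left A (abs_nonneg C2)]
  nlinarith [mul_le_mul_of_nonneg_left key (sq_nonneg k)]

end Pool.Agent.Lib.MP_0c623d_al.BP
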