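import Pool.Agent.Lib.MP_0c623d_al.E.Tau

set_option autoImplicit false

/-! The field `tau_bd` of the interface `AN`, from the completeness inequality. -/

namespace Pool.Agent.Lib.MP_0c623d_al.BP

open Complex Matrix Pool.Agent.BP.F
open scoped ComplexConjugate

noncomputable section

theorem tb_Ch_inj {b : Cf} (hb : b ∈ Ch) : Function.Injective b := by
  intro i j h
  by_contra hne
  rcases lt_or_gt_of_ne hne with h' | h'
  · have := hb i j h'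
    rw [h] at this
    exact lt_irrefl _ this
  · have := hb j i h'
    rw [h] at this
    exact lt_irrefl _ this

/-- the Gram dictionary -/
theorem tb_hh_vecMul (Hm Y : M6) (x y : Fin 6 → ℂ) :
    hh Hm (x ᵥ* Y) (y ᵥ* Y) = qf (Y * Hmᵀ * Yᴴ) y x := by
  unfold hh qf
  rw [← Matrix.mulVec_mulVec, ← Matrix.mulVec_mulVec, Matrix.dotProduct_mulVec y Y,
    Matrix.mulVec_transpose, dotProduct_comm (y ᵥ* Y), ← Matrix.dotProduct_mulVec,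
    Matrix.star_vecMul]

theorem tb_qf_conj {X : M6} (h : Xᴴ = X) (x y : Fin 6 → ℂ) : qf X y x = conj (qf X x y) := by
  unfold qf
  have : conj (x ⬝ᵥ X *ᵥ star y) = star (x ⬝ᵥ X *ᵥ star y) := rfl
  rw [this, ← Matrix.star_dotProduct_star, Matrix.star_mulVec, star_star, h,
    ← Matrix.dotProduct_mulVec]

theorem tb_qf_smul_left (X : M6) (c : ℂ) (x y : Fin 6 → ℂ) : qf X (c • x) y = c * qf X x y := by
  simp [qf, smul_dotProduct]

theorem tb_qf_smul_right (X : M6) (c : ℂ) (x y : Fin 6 → ℂ) :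
    qf X x (c • y) = conj c * qf X x y := by
  simp [qf, Matrix.mulVec_smul, dotProduct_smul]

/-- the field `tau_bd`, from the completeness inequality and the values of the form -/
theorem tau_bd_of {Hk : Cf → M6} (hS : Sg Hk) {C R0 : ℝ}
    (hc : ∀ (l : Fin 4) (a v : Cf), Function.Injective a → R0 < tau l a →
      (fderiv ℝ (tau l) a v) ^ 2 * (qf (Hk a) (cw a) (cw a)).re ^ 2 ≤
        C * (‖qf (Hk a) (cw a) (Bm a v)‖ ^ 2 -
          (qf (Hk a) (cw a) (cw a)).re * (qf (Hk a) (Bm a v) (Bm a v)).re))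
    (Hm : M6) (W : Cf → V) {D : ℂ} (hD : D ≠ 0)
    (h1 : ∀ b ∈ Ch, (hh Hm (W b) (W b)).re = (qf (Hk b) (cw b) (cw b)).re)
    (h2 : ∀ b ∈ Ch, ∀ v, ‖hh Hm (W b) (fderiv ℂ W b v)‖ = ‖D‖ * ‖qf (Hk b) (cw b) (Bm b v)‖)
    (h3 : ∀ b ∈ Ch, ∀ v, (hh Hm (fderiv ℂ W b v) (fderiv ℂ W b v)).re =
      ‖D‖ ^ 2 * (qf (Hk b) (Bm b v) (Bm b v)).re) :
    ∀ l, ∀ b ∈ Ch, R0 < tau l b → ∀ v : Cf,
      (fderiv ℝ (tau l) b v) ^ 2 * (hh Hm (W b) (W b)).re ^ 2 ≤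
        max C 0 / ‖D‖ ^ 2 * QQ Hm (W b) (fderiv ℂ W b v) := by
  intro l b hb hR v
  have hi := tb_Ch_inj hb
  have h4 := hc l b v hi hR
  have h5 := hS.neg b hi v
  have hD' : 0 < ‖D‖ := norm_pos_iff.2 hD
  rw [QQ, h1 b hb, h2 b hb, h3 b hb]
  set p := (qf (Hk b) (cw b) (cw b)).re
  set q := (qf (Hk b) (Bm b v) (Bm b v)).re
  set n := ‖qf (Hk b) (cw b) (Bm b v)‖
  have e : max C 0 / ‖D‖ ^ 2 * (2 * (‖D‖ * n) ^ 2 - p * (‖D‖ ^ 2 * q)) =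
      max C 0 * (2 * n ^ 2 - p * q) := by
    field_simp
  rw [e]
  have h6 : C * (n ^ 2 - p * q) ≤ max C 0 * (n ^ 2 - p * q) :=
    mul_le_mul_of_nonneg_right (le_max_left _ _) (by linarith)
  have h7 : 0 ≤ max C 0 * n ^ 2 := mul_nonneg (le_max_right _ _) (by positivity)
  nlinarith

/-- the field `tau_bd` for `W = cw · Y` and `Hk = Y Hmᵀ Yᴴ` on the chamber -/
theorem tau_bd {j : ℕ} {e : ℝ} (hj : 3 ≤ j) (he : e = 1 / (4 * j + 2)) (hC : CuspSt)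
    {Hk Hi : Cf → M6} (hG : Gr e Hk Hi) (hS : Sg Hk) (Hm : M6) (W : Cf → V) (Y : Cf → M6)
    {D : ℂ} (hD : D ≠ 0) (hW : ∀ b ∈ Ch, W b = cw b ᵥ* Y b)
    (hdW : ∀ b ∈ Ch, ∀ v, fderiv ℂ W b v = D • (Bm b v ᵥ* Y b))
    (hH : ∀ b ∈ Ch, Hk b = Y b * Hmᵀ * (Y b)ᴴ) :
    ∃ C R0 : ℝ, ∀ l, ∀ b ∈ Ch, R0 < tau l b → ∀ v : Cf,
      (fderiv ℝ (tau l) b v) ^ 2 * (hh Hm (W b) (W b)).re ^ 2 ≤
        C * QQ Hm (W b) (fderiv ℂ W b v) := by
  obtain ⟨C, R0, hc⟩ := hC j e hj he Hk Hi hG hS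
  refine ⟨_, R0, tau_bd_of hS hc Hm W hD (fun b hb => ?_) (fun b hb v => ?_) (fun b hb v => ?_)⟩
  · rw [hW b hb, tb_hh_vecMul, ← hH b hb]
  · rw [hW b hb, hdW b hb, ← Matrix.smul_vecMul, tb_hh_vecMul, ← hH b hb, tb_qf_smul_left, norm_mul,
      tb_qf_conj (hG.herm b (tb_Ch_inj hb)), Complex.norm_conj]
  · rw [hdW b hb, ← Matrix.smul_vecMul, tb_hh_vecMul, ← hH b hb, tb_qf_smul_left, tb_qf_smul_right,
      ← mul_assoc, Complex.mul_conj, Complex.normSq_eq_norm_sq, Complex.re_ofReal_mul]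

end

end Pool.Agent.Lib.MP_0c623d_al.BP
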