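import Pool.Agent.Lib.MP_0c623d_al.E.Root
import Pool.Agent.Lib.MP_0c623d_al.BP.E0

set_option autoImplicit false

/-!
The asymptotic form of the sheared Gram matrix.
-/

namespace Pool.Agent.Lib.MP_0c623d_al.BP.Cu

open Complex Matrix Pool.Agent.BP.Lev
open scoped Matrix.Norms.Frobenius

theorem co_bd {X : M6} {K : ℝ} (h : ‖X‖ ≤ K) : Bd X K := by
  intro i j
  refine le_trans ?_ h
  rw [frobenius_norm_def, ← Real.sqrt_eq_rpow]
  refine Real.le_sqrt_of_sq_le ?_
  rw [← Real.rpow_two]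
  exact (Finset.single_le_sum (f := fun j => ‖X i j‖ ^ (2 : ℝ)) (fun _ _ => by positivity)
    (Finset.mem_univ j)).trans (Finset.single_le_sum (f := fun i => ∑ j, ‖X i j‖ ^ (2 : ℝ))
      (fun _ _ => by positivity) (Finset.mem_univ i))

theorem co_norm {X : M6} {K : ℝ} (h : Bd X K) : ‖X‖ ≤ 6 * K := by
  have K0 : 0 ≤ K := (norm_nonneg _).trans (h 0 0)
  rw [frobenius_norm_def, ← Real.sqrt_eq_rpow]
  refine Real.sqrt_le_iff.2 ⟨by positivity, ?_⟩
  calc _ ≤ ∑ _i : Fin 6, ∑ _j : Fin 6, K ^ 2 :=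
        Finset.sum_le_sum fun i _ => Finset.sum_le_sum fun j _ => by
          rw [Real.rpow_two]
          exact pow_le_pow_left₀ (norm_nonneg _) (h i j) 2
    _ = _ := by simp; ring

theorem co_form {X : M6} {K b : ℝ} (h : Bd X K) {x : Fin 6 → ℂ} (hx : ∀ i, ‖x i‖ ≤ b) :
    ‖star x ⬝ᵥ X *ᵥ x‖ ≤ 36 * (b * (K * b)) := by
  have K0 : 0 ≤ K := (norm_nonneg _).trans (h 0 0)
  have b0 : 0 ≤ b := (norm_nonneg _).trans (hx 0)
  calc _ ≤ ∑ _i : Fin 6, ∑ _j : Fin 6, b * (K * b) := by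
        refine (norm_sum_le _ _).trans (Finset.sum_le_sum fun i _ => ?_)
        rw [mulVec, dotProduct, Finset.mul_sum]
        refine (norm_sum_le _ _).trans (Finset.sum_le_sum fun j _ => ?_)
        rw [norm_mul, norm_mul, Pi.star_apply, norm_star]
        have := hx i
        have := hx j
        have := h i j
        gcongr
    _ = _ := by simp; ring

theorem co_cube (a u W : ℂ) : A0 a u W * A0 a u W * (A0 a u W + (3 * a + 1) • 1) = 0 := by
  ext i j
  fin_cases i <;> fin_cases j <;> simp [A0, mul_apply, Fin.sum_univ_succ, one_apply] <;> ring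

theorem co_ff (a u W t : ℂ) : Em a u W t *ᵥ ff u = ff u + (t * a) • fn u := by
  have h1 : A0 a u W *ᵥ ff u = a • fn u := by
    funext i
    fin_cases i <;> simp [A0, ff, fn, mulVec, dotProduct, Fin.sum_univ_succ] <;> ring
  have h2 : A0 a u W *ᵥ fn u = 0 := by
    funext i
    fin_cases i <;> simp [A0, fn, mulVec, dotProduct, Fin.sum_univ_succ]
    ring
  have h3 : (A0 a u W * A0 a u W) *ᵥ ff u = 0 := by
    rw [← mulVec_mulVec, h1, mulVec_smul, h2, smul_zero]
  simp [Em, Pm, Nm, add_mulVec, sub_mulVec, smul_mulVec, h1, h3, smul_smul]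

theorem co_exp {L : ℝ} (hL : 0 ≤ L) :
    (1 + L) ^ 2 * Real.exp (-L / 4) ≤ 256 * Real.exp (-L / 8) := by
  have h1 : 1 + L ≤ 16 * Real.exp (L / 16) := by linarith [Real.add_one_le_exp (L / 16)]
  calc _ ≤ (16 * Real.exp (L / 16)) ^ 2 * Real.exp (-L / 4) := by gcongr
    _ = 256 * (Real.exp (L / 16) * Real.exp (L / 16) * Real.exp (-L / 4)) := by ring
    _ = _ := by
      rw [← Real.exp_add, ← Real.exp_add]
      congr 2
      ring

theorem coreSt (hS : SysSt) (hR : RemSt) (hT : StartSt) : CoreSt := by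
  intro j e hj he Hk Hi g
  have hj' : (3 : ℝ) ≤ j := by exact_mod_cast hj
  have e0 : 0 < e := by rw [he]; positivity
  have e1 : e < 1 / 12 := by
    rw [he]
    exact one_div_lt_one_div_of_lt (by norm_num) (by linarith)
  obtain ⟨C1, h1⟩ := hR (al e)
  obtain ⟨C2, h2⟩ := hT j e hj he Hk Hi g
  have hn0 : -1 / 2 + 3 * e < 0 := by linarith
  have hnu : 3 * al e + 1 = ((-1 / 2 + 3 * e : ℝ) : ℂ) := by
    rw [al]
    push_cast
    ring
  obtain ⟨K, K0, hK⟩ := E0_lim (A := M6) (-1 / 2 + 3 * e) (6 * (|C1| + |C2| + 1)) 1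
    (by linarith) hn0 zero_le_one
  set C := 6 * (|C1| + |C2| + 1) with hC
  have C0 : 0 ≤ C := by positivity
  have hP : ∀ u W, Pm (al e) u W = P1 (-1 / 2 + 3 * e) (A0 (al e) u W) := fun u W => by
    rw [Pm, P1, hnu]
    congr 1
    push_cast
    rw [one_div]
  have hN : ∀ u W, Nm (al e) u W = Nn (-1 / 2 + 3 * e) (A0 (al e) u W) := fun u W => by
    rw [Nm, Nn, hnu]
    congr 2
    push_cast
    rw [one_div]
  have hE : ∀ u W t, Em (al e) u W t = Ex (-1 / 2 + 3 * e) (A0 (al e) u W) t := fun u W t => by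
    rw [Em, Ex, hP, hN, hnu]
  refine ⟨K + (C + 2 * K) ^ 2 * K * 256 + 36 * 16 * K ^ 3 * 256, fun s0 u hs hu hz => ?_⟩
  obtain ⟨u2, w2⟩ := root_bd hz
  have hW : u ^ j ≠ 0 := pow_ne_zero _ hu
  have hs' : ∀ t : ℂ, ‖s0 * exp t‖ = Real.exp t.re := fun t => by
    rw [norm_mul, hs, one_mul, norm_exp]
  have hhalf : ∀ t : ℂ, t.re ≤ -1 → ‖s0 * exp t‖ ≤ 1 / 2 := fun t ht => by
    rw [hs']
    refine (Real.exp_le_exp.2 ht).trans ?_
    rw [Real.exp_neg, ← one_div]
    exact one_div_le_one_div_of_le two_pos (by linarith [Real.add_one_le_exp 1])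
  have n1 : ‖(1 : M6)‖ ≤ C := (co_norm (K := 1) fun i j => by
    rw [one_apply]
    split_ifs <;> simp).trans (by rw [hC]; linarith [abs_nonneg C1, abs_nonneg C2])
  have hcube := co_cube (al e) u (u ^ j)
  rw [hnu] at hcube
  have sys := hS e Hk Hi g s0 u (u ^ j) hs hu hW hz
  have st := h2 (s0 * exp (-(1 : ℝ))) u (by rw [hs']; simp) hu hz
  obtain ⟨G, J, a1, a2, a3, a4, a5, -, a7, a8, a9, b1, b2⟩ := hK (A0 (al e) u (u ^ j))
    (fun t => As (al e) (s0 * exp t) u (u ^ j)) (fun t => Ht e Hk (s0 * exp t) u (u ^ j))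
    (fun t => Hti e Hi (s0 * exp t) u (u ^ j)) n1
    ((co_norm (h1 0 u (u ^ j) (by simp) u2 w2 hz).2).trans
      (by rw [hC]; linarith [le_abs_self C1, abs_nonneg C2]))
    hcube (fun t ht => (co_norm (h1 _ u (u ^ j) (hhalf t ht) u2 w2 hz).1).trans (by
      rw [hs', ← mul_assoc]
      exact mul_le_mul_of_nonneg_right (by rw [hC]; linarith [le_abs_self C1, abs_nonneg C2])
        (Real.exp_pos _).le))
    (fun t ht => (sys t ht).1) (fun t ht => ⟨(sys t ht).2.1, (sys t ht).2.2.1⟩)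
    (fun t _ => by simp only [exp_add, exp_two_pi_mul_I, mul_one])
    ((co_norm st.1).trans (by rw [hC]; linarith [le_abs_self C2, abs_nonneg C1]))
    ((co_norm st.2).trans (by rw [hC]; linarith [le_abs_self C2, abs_nonneg C1]))
  simp only [hE]
  have add := Ex_add hn0.ne hcube
  set E := Ex (-1 / 2 + 3 * e) (A0 (al e) u (u ^ j)) with hEE
  have inv1 : ∀ t, E t * E (-t) = 1 := fun t => by rw [add, add_neg_cancel, hEE, Ex_zero]
  have inv2 : ∀ t, E (-t) * E t = 1 := fun t => by rw [add, neg_add_cancel, hEE, Ex_zero]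
  have b3 : ∀ L : ℝ, 1 ≤ L → ‖E L * Ht e Hk (s0 * exp (-L)) u (u ^ j) * star (E L) - G‖ ≤
      K * Real.exp (-L / 4) := fun L hL => by
    simpa using b2 (-(L : ℂ)) (by simpa using hL) (by simp) (by simp)
  have kk : K ≤ K + (C + 2 * K) ^ 2 * K * 256 + 36 * 16 * K ^ 3 * 256 := by
    have : 0 ≤ (C + 2 * K) ^ 2 * K * 256 + 36 * 16 * K ^ 3 * 256 := by positivity
    linarith
  refine ⟨G, J, ⟨a1, a2, ?_, co_bd (a3.trans kk), co_bd (a4.trans kk), ?_, ?_⟩, fun L hL => ?_⟩
  · have key : ∀ L : ℝ, 1 ≤ L → ‖star G - G‖ ≤ 2 * K * Real.exp (-L / 4) := fun L hL => by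
      have c1 := b3 L hL
      have c2 : star (Ht e Hk (s0 * exp (-L)) u (u ^ j)) = Ht e Hk (s0 * exp (-L)) u (u ^ j) :=
        (sys (-L) (by simpa using hL)).2.2.2
      have c3 := c1
      rw [← norm_star, star_sub, star_mul, star_mul, star_star, c2, ← mul_assoc] at c3
      have := norm_sub_le_norm_sub_add_norm_sub (star G)
        (E L * Ht e Hk (s0 * exp (-L)) u (u ^ j) * star (E L)) G
      rw [norm_sub_rev (star G) (_ * _)] at this
      linarith
    have t : Filter.Tendsto (fun L : ℝ => 2 * K * Real.exp (-L / 4)) Filter.atTop (nhds 0) := by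
      simpa using (Real.tendsto_exp_atBot.comp
        (Filter.tendsto_neg_atTop_atBot.atBot_div_const (r := 4) (by norm_num))).const_mul (2 * K)
    exact sub_eq_zero.1 (norm_le_zero_iff.1 (ge_of_tendsto t
      ((Filter.eventually_ge_atTop 1).mono key)))
  · rw [hN]
    exact a7
  · rw [hP]
    exact a5
  have L0 : 0 ≤ L := by linarith
  have ex := co_exp L0
  have p8 := Real.exp_pos (-L / 8)
  have c1 := b3 L hL
  obtain ⟨-, c2⟩ := b1 L hL
  obtain ⟨-, -, c3, -⟩ := sys (-L) (by simpa using hL)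
  have nE : ‖E (-L)‖ ≤ (C + 2 * K) * (1 + L) := by
    have d1 : ‖exp (-((-1 / 2 + 3 * e : ℝ) : ℂ) * -(L : ℂ))‖ ≤ 1 := by
      rw [norm_exp, Real.exp_le_one_iff, neg_mul_neg, ← ofReal_mul, ofReal_re]
      nlinarith
    rw [hEE, Ex]
    refine (norm_add₃_le).trans ?_
    have d2 := norm_sub_le (1 : M6) (P1 (-1 / 2 + 3 * e) (A0 (al e) u (u ^ j)))
    rw [norm_smul, norm_smul, norm_neg, norm_real, Real.norm_of_nonneg L0]
    have d3 := mul_le_mul_of_nonneg_left a8 L0
    have d4 := mul_le_mul d1 a9 (norm_nonneg _) zero_le_one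
    nlinarith [mul_nonneg C0 L0, mul_nonneg K0 L0]
  generalize Ht e Hk (s0 * exp (-L)) u (u ^ j) = H at *
  generalize Hti e Hi (s0 * exp (-L)) u (u ^ j) = H' at *
  constructor
  · refine co_bd ?_
    have : H - E (-L) * G * (E (-L))ᴴ = E (-L) * (E L * H * star (E L) - G) * star (E (-L)) := by
      rw [mul_sub, sub_mul, ← mul_assoc, ← mul_assoc, inv2, one_mul, mul_assoc H, ← star_mul, inv2,
        star_one, mul_one]
      rfl
    rw [this]
    calc _ ≤ (C + 2 * K) * (1 + L) * (K * Real.exp (-L / 4)) * ((C + 2 * K) * (1 + L)) := by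
          refine (norm_mul_le _ _).trans ?_
          rw [norm_star]
          exact mul_le_mul ((norm_mul_le _ _).trans
            (mul_le_mul nE c1 (norm_nonneg _) (by positivity))) nE (norm_nonneg _) (by positivity)
      _ = (C + 2 * K) ^ 2 * K * ((1 + L) ^ 2 * Real.exp (-L / 4)) := by ring
      _ ≤ (C + 2 * K) ^ 2 * K * (256 * Real.exp (-L / 8)) := by gcongr
      _ ≤ _ := by
          have : 0 ≤ (K + 36 * 16 * K ^ 3 * 256) * Real.exp (-L / 8) := by positivity
          nlinarith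
  · have f1 : E L *ᵥ ff u = ff u + ((L : ℂ) * al e) • fn u := by rw [hEE, ← hE, co_ff]
    have f2 : H' = (E L)ᴴ * (star (E (-L)) * H' * E (-L)) * E L := by
      rw [mul_assoc, mul_assoc, mul_assoc, inv2, mul_one, ← mul_assoc, ← star_eq_conjTranspose,
        ← star_mul, inv2, star_one, one_mul]
    have f3 : star (E (-L)) * H' * E (-L) - J =
        -(star (E (-L)) * H' * E (-L) * (E L * H * star (E L) - G) * J) := by
      have : star (E (-L)) * H' * E (-L) * (E L * H * star (E L)) = 1 := by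
        rw [mul_assoc, ← mul_assoc (E (-L)), ← mul_assoc (E (-L)), inv2, one_mul, mul_assoc,
          ← mul_assoc H', c3, one_mul, ← star_mul, inv1, star_one]
      rw [mul_sub, this, sub_mul, one_mul, mul_assoc _ G, a1, mul_one, neg_sub]
    have f4 : ‖star (E (-L)) * H' * E (-L) - J‖ ≤ K * (K * Real.exp (-L / 4)) * K := by
      rw [f3, norm_neg]
      exact (norm_mul_le _ _).trans (mul_le_mul ((norm_mul_le _ _).trans
        (mul_le_mul c2 c1 (norm_nonneg _) K0)) a4 (norm_nonneg _) (by positivity))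
    have f5 : ∀ i, ‖(ff u + ((L : ℂ) * al e) • fn u) i‖ ≤ 4 * (1 + L) := by
      intro i
      have g1 : ‖ff u i‖ ≤ 4 := by
        fin_cases i <;> simp [ff] <;> linarith
      have g2 : ‖fn u i‖ ≤ 2 := by
        fin_cases i <;> simp [fn] <;> linarith
      have g3 : ‖al e‖ ≤ 1 := by
        have : al e = ((-1 / 2 + e : ℝ) : ℂ) := by rw [al]; push_cast; ring
        rw [this, norm_real, Real.norm_eq_abs, abs_le]
        constructor <;> linarith
      rw [Pi.add_apply, Pi.smul_apply]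
      refine (norm_add_le _ _).trans ?_
      rw [norm_smul, norm_mul, norm_real, Real.norm_of_nonneg L0]
      have := mul_le_mul (mul_le_mul_of_nonneg_left g3 L0) g2 (norm_nonneg _) (by positivity)
      linarith
    have f6 := co_form (co_bd f4) f5
    rw [sub_mulVec, dotProduct_sub] at f6
    rw [f2, ← mulVec_mulVec, ← mulVec_mulVec, dotProduct_mulVec, ← star_mulVec, f1]
    refine f6.trans ?_
    calc _ = 36 * 16 * K ^ 3 * ((1 + L) ^ 2 * Real.exp (-L / 4)) := by ring
      _ ≤ 36 * 16 * K ^ 3 * (256 * Real.exp (-L / 8)) := by gcongr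
      _ ≤ _ := by
          have : 0 ≤ (K + (C + 2 * K) ^ 2 * K * 256) * Real.exp (-L / 8) := by positivity
          nlinarith

end Pool.Agent.Lib.MP_0c623d_al.BP.Cu
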