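import Pool.Agent.Lib.MP_0c623d_al.BP.LogLB
import Pool.Agent.Lib.MP_0c623d_al.BP.Low
import Pool.Agent.Lib.MP_0c623d_al.E.Defs

set_option autoImplicit false

/-!
The logarithmic lower bound in the chart at a triple collision.
-/

namespace Pool.Agent.Lib.MP_0c623d_al.BP

open Complex MeasureTheory Set

noncomputable section

theorem G_log_gen (e : ℝ) (he : 0 < e) (he' : e < 1 / 12) (ρ r u : ℝ) (hρ : 0 < ρ) (hρr : ρ ≤ r)
    (hu : 4 * r ≤ u) (hu' : u < 1 / 2) (a : Cf) (h0 : ‖a 0‖ ≤ ρ) (h1 : ‖a 1‖ ≤ ρ) (h2 : ‖a 2‖ ≤ r)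
    (h3 : ‖a 3‖ ≤ 1) (l : Fin 3 → ℂ)
    (hl : ∀ x y : ℂ, ‖x‖ < ρ → u < ‖y‖ → ‖y‖ < 1 / 2 → ‖y‖ / 2 ≤ ‖ell l x y‖)
    (hi : Integrable fun z : ℂ × ℂ => ‖ell l z.1 z.2‖ ^ 2 * wt e a z) :
    (1 / 4) ^ 12 * (2 * Real.pi ^ 2) * (ρ ^ (-4 * e) * r ^ (-1 - 2 * e) * Real.log (1 / (2 * u))) ≤
      G e a l := by
  have hr0 : 0 < r := hρ.trans_le hρr
  have hu0 : 0 < u := by linarith
  set C : ℝ := (1 / 4) ^ 10 *
    (ρ ^ (2 * (-1 / 2 - e)) * ρ ^ (2 * (-1 / 2 - e)) * r ^ (2 * (-1 / 2 - e))) with hC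
  have hC0 : 0 ≤ C := by positivity
  have hI : ∫ z : ℂ × ℂ, C / 16 * ((Metric.ball (0 : ℂ) ρ).indicator (fun _ => (1 : ℝ)) z.1 *
      (Ioo u (1 / 2)).indicator (fun t : ℝ => (t ^ 2)⁻¹) ‖z.2‖) =
      C / 16 * (Real.pi * ρ ^ 2 * (2 * Real.pi * Real.log (1 / 2 / u))) := by
    rw [integral_const_mul, Measure.volume_eq_prod,
      integral_prod_mul (fun x : ℂ => (Metric.ball (0 : ℂ) ρ).indicator (fun _ => (1 : ℝ)) x)
        (fun y : ℂ => (Ioo u (1 / 2)).indicator (fun t : ℝ => (t ^ 2)⁻¹) ‖y‖),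
      lg_ball ρ hρ, lg_ann _ _ hu0 hu'.le]
  have hE : C / 16 * (Real.pi * ρ ^ 2 * (2 * Real.pi * Real.log (1 / 2 / u))) =
      (1 / 4) ^ 12 * (2 * Real.pi ^ 2) *
        (ρ ^ (-4 * e) * r ^ (-1 - 2 * e) * Real.log (1 / (2 * u))) := by
    have e1 : ρ ^ (2 * (-1 / 2 - e)) * ρ ^ (2 * (-1 / 2 - e)) * ρ ^ 2 = ρ ^ (-4 * e) := by
      rw [← Real.rpow_add hρ, ← Real.rpow_natCast, ← Real.rpow_add hρ]
      congr 1
      push_cast
      ring
    have e2 : 2 * (-1 / 2 - e) = -1 - 2 * e := by ring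
    have e3 : 1 / 2 / u = 1 / (2 * u) := by field_simp
    rw [← e1, e3, hC, e2]
    ring
  rw [← hE, ← hI]
  have hw0 : ∀ z : ℂ × ℂ, 0 ≤ wt e a z := by
    intro z
    unfold wt
    positivity
  have hw : ∀ z : ℂ × ℂ, 0 ≤ ‖ell l z.1 z.2‖ ^ 2 * wt e a z := fun z =>
    mul_nonneg (sq_nonneg _) (hw0 z)
  refine integral_mono_of_nonneg (Filter.Eventually.of_forall fun z => ?_) hi ?_
  · refine mul_nonneg (by positivity) (mul_nonneg (indicator_nonneg (fun _ _ => zero_le_one) _)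
      (indicator_nonneg (fun t _ => by positivity) _))
  · filter_upwards [ae_reg a] with z hz
    by_cases b1 : z.1 ∈ Metric.ball (0 : ℂ) ρ
    · by_cases b2 : ‖z.2‖ ∈ Ioo u (1 / 2)
      · rw [indicator_of_mem b1, indicator_of_mem b2, one_mul]
        have b3 : ‖z.1‖ < ρ := by simpa using b1
        have k1 := lg_pt e he he' ρ r hρ hρr (by linarith) a h0 h1 h2 h3 z.1 z.2 hz.1 hz.2.1 b3
          (by linarith [b2.1]) b2.2
        have k2 := hl z.1 z.2 b3 b2.1 b2.2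
        have k3 : ‖ell ![0, 1, 0] z.1 z.2‖ ≤ 4 * ‖ell l z.1 z.2‖ := by
          have h4 : ell ![0, 1, 0] z.1 z.2 = z.1 + z.2 := by simp [ell]
          rw [h4]
          linarith [norm_add_le z.1 z.2, b2.1]
        have k4 : ‖ell ![0, 1, 0] z.1 z.2‖ ^ 2 ≤ 16 * ‖ell l z.1 z.2‖ ^ 2 :=
          (pow_le_pow_left₀ (norm_nonneg _) k3 2).trans (le_of_eq (by ring))
        have k5 := mul_le_mul_of_nonneg_right k4 (hw0 z)
        rw [← hC] at k1
        change _ ≤ ‖ell ![0, 1, 0] z.1 z.2‖ ^ 2 * wt e a z at k1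
        linarith
      · rw [indicator_of_notMem b2, mul_zero, mul_zero]
        exact hw z
    · rw [indicator_of_notMem b1, zero_mul, mul_zero]
      exact hw z

theorem lg_ch_inj {s z : ℂ} (hs : s ≠ 0) (hs1 : ‖s‖ ≤ 1 / 2) (hz : z ≠ 0) (hz1 : ‖z‖ ≤ 3 / 2) :
    Function.Injective (ch s z) := by
  have s0 : 0 < ‖s‖ := norm_pos_iff.mpr hs
  have z0 : 0 < ‖z‖ := norm_pos_iff.mpr hz
  have n0 : ‖-(s * z / 2)‖ = ‖s‖ * ‖z‖ / 2 := by simp
  have n1 : ‖s * z / 2‖ = ‖s‖ * ‖z‖ / 2 := by simp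
  have lt : ‖s‖ * ‖z‖ / 2 < ‖s‖ := by nlinarith
  have e01 : -(s * z / 2) ≠ s * z / 2 := fun h =>
    mul_ne_zero hs hz (by linear_combination -h)
  have e02 : -(s * z / 2) ≠ s := fun h => by rw [h] at n0; linarith
  have e03 : -(s * z / 2) ≠ 1 := fun h => by rw [h, norm_one] at n0; linarith
  have e12 : s * z / 2 ≠ s := fun h => by rw [h] at n1; linarith
  have e13 : s * z / 2 ≠ 1 := fun h => by rw [h, norm_one] at n1; linarith
  have e23 : s ≠ 1 := fun h => by rw [h, norm_one] at hs1; linarith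
  intro i j h
  fin_cases i <;> fin_cases j <;> first
    | rfl
    | exact absurd h e01
    | exact absurd h e02
    | exact absurd h e03
    | exact absurd h e12
    | exact absurd h e13
    | exact absurd h e23
    | exact absurd h.symm e01
    | exact absurd h.symm e02
    | exact absurd h.symm e03
    | exact absurd h.symm e12
    | exact absurd h.symm e13
    | exact absurd h.symm e23

theorem logSt (hI : IntSt) : LogSt := by
  intro e he he'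
  refine ⟨(1 / 4) ^ 12 * (2 * Real.pi ^ 2) / 2, 1 / 1600, by positivity, by norm_num, ?_⟩
  intro s z x0 hs hs1 hz hz1 hx0
  have s0 : 0 < ‖s‖ := norm_pos_iff.mpr hs
  have z0 : 0 < ‖z‖ := norm_pos_iff.mpr hz
  have hρ : 0 < ‖s‖ * ‖z‖ / 2 := by positivity
  have hρr : ‖s‖ * ‖z‖ / 2 ≤ ‖s‖ := by nlinarith
  refine le_trans ?_ (G_log_gen e he he' (‖s‖ * ‖z‖ / 2) ‖s‖ (20 * ‖s‖) hρ hρr (by linarith)
    (by linarith) (ch s z) (by simp [ch]) (by simp [ch]) (by simp [ch]) (by simp [ch]) _ ?_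
    (G_int hI he he' (lg_ch_inj hs (by linarith) hz hz1) _))
  · have hl : Real.log (1 / ‖s‖) / 2 ≤ Real.log (1 / (2 * (20 * ‖s‖))) := by
      rw [div_le_iff₀ two_pos, mul_two, ← Real.log_mul (by positivity) (by positivity)]
      refine Real.log_le_log (by positivity) ?_
      rw [div_mul_div_comm, div_le_div_iff₀ s0 (by positivity)]
      nlinarith
    have hl0 : 0 ≤ Real.log (1 / ‖s‖) := by
      refine Real.log_nonneg ?_
      rw [le_div_iff₀ s0]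
      linarith
    have h1 : (‖s‖ * ‖z‖) ^ (-4 * e) ≤ (‖s‖ * ‖z‖ / 2) ^ (-4 * e) :=
      lg_pow hρ (by nlinarith) (by linarith)
    have h2 : ‖z‖ ^ (-4 * e) * ‖s‖ ^ (-1 - 6 * e) =
        (‖s‖ * ‖z‖) ^ (-4 * e) * ‖s‖ ^ (-1 - 2 * e) := by
      rw [Real.mul_rpow s0.le z0.le, mul_comm (‖s‖ ^ _) (‖z‖ ^ _), mul_assoc, ← Real.rpow_add s0]
      congr 2
      ring
    calc _ = (1 / 4) ^ 12 * (2 * Real.pi ^ 2) *
          (‖z‖ ^ (-4 * e) * ‖s‖ ^ (-1 - 6 * e) * (Real.log (1 / ‖s‖) / 2)) := by ring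
      _ ≤ _ := by
        rw [h2]
        gcongr
  · intro x y hx hy1 hy2
    have h4 : y = -ell ![2 * x0, -(1 + x0), 2] x y + (y * (2 * x - x0) + (2 * x0 - (x + x0 * x))) := by
      simp [ell]
      ring
    have h5 : ‖2 * x - x0‖ ≤ 1 / 10 := by
      refine (norm_sub_le _ _).trans ?_
      rw [norm_mul, Complex.norm_two]
      linarith
    have h6 : ‖y * (2 * x - x0)‖ ≤ ‖y‖ / 10 := by
      rw [norm_mul]
      nlinarith [norm_nonneg y]
    have h7 : ‖x0 * x‖ ≤ ‖s‖ := by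
      rw [norm_mul]
      nlinarith [norm_nonneg x0, norm_nonneg x]
    have h8 : ‖2 * x0 - (x + x0 * x)‖ ≤ 8 * ‖s‖ := by
      refine (norm_sub_le _ _).trans ?_
      rw [norm_mul, Complex.norm_two]
      linarith [norm_add_le x (x0 * x)]
    have h9 := norm_add_le (-ell ![2 * x0, -(1 + x0), 2] x y)
      (y * (2 * x - x0) + (2 * x0 - (x + x0 * x)))
    rw [← h4, norm_neg] at h9
    linarith [norm_add_le (y * (2 * x - x0)) (2 * x0 - (x + x0 * x))]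

end

end Pool.Agent.Lib.MP_0c623d_al.BP
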