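import Pool.Agent.Lib.MP_0c623d_al.E.Root
import Pool.Agent.Lib.MP_0c623d_al.E.Red
import Pool.Agent.Lib.MP_0c623d_al.E.Log

set_option autoImplicit false

/-!
Growth of the period vector and a negative plane, from the asymptotic form of the Gram matrix.
-/

namespace Pool.Agent.Lib.MP_0c623d_al.BP.Cu

open Complex Matrix Filter Topology

namespace Gw

theorem cube (a u W : ℂ) :
    A0 a u W * (A0 a u W * A0 a u W) = (-(3 * a + 1)) • (A0 a u W * A0 a u W) := by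
  ext i j
  fin_cases i <;> fin_cases j <;> simp [A0, Matrix.mul_apply, Fin.sum_univ_six] <;>
    exact Or.inl (by ring)

theorem four (a u W : ℂ) : A0 a u W * A0 a u W * (A0 a u W * A0 a u W) =
    (3 * a + 1) ^ 2 • (A0 a u W * A0 a u W) := by
  rw [Matrix.mul_assoc, cube, Matrix.mul_smul, cube, smul_smul, neg_mul_neg, sq]

variable {a : ℂ}

theorem NN (h : 3 * a + 1 ≠ 0) (u W : ℂ) : Nm a u W * Nm a u W = 0 := by
  simp only [Nm, add_mul, mul_add, Matrix.smul_mul, Matrix.mul_smul, four]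
  simp only [Matrix.mul_assoc, cube, smul_smul]
  match_scalars
  field_simp
  ring

theorem NP (h : 3 * a + 1 ≠ 0) (u W : ℂ) : Nm a u W * Pm a u W = 0 := by
  simp only [Nm, Pm, add_mul, Matrix.smul_mul, Matrix.mul_smul, four, cube, smul_smul]
  match_scalars
  field_simp
  ring

theorem PP (h : 3 * a + 1 ≠ 0) (u W : ℂ) : Pm a u W * Pm a u W = Pm a u W := by
  simp only [Pm, Matrix.smul_mul, Matrix.mul_smul, four, smul_smul]
  match_scalars
  field_simp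

theorem qf_vecMul (X A B : M6) (x y : Fin 6 → ℂ) :
    qf (A * X * Bᴴ) x y = qf X (x ᵥ* A) (y ᵥ* B) := by
  simp only [qf, star_vecMul, ← mulVec_mulVec, dotProduct_mulVec x]

theorem qf_bd {X : M6} {K p q : ℝ} (h : Bd X K) {x y : Fin 6 → ℂ} (hx : ‖x‖ ≤ p) (hy : ‖y‖ ≤ q) :
    ‖qf X x y‖ ≤ 36 * K * p * q := by
  have hK : 0 ≤ K := (norm_nonneg _).trans (h 0 0)
  have hp := (norm_nonneg _).trans hx
  calc _ ≤ ∑ _i : Fin 6, p * ∑ _j : Fin 6, K * q := by
        refine norm_sum_le_of_le _ fun i _ => (norm_mul_le _ _).trans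
          (mul_le_mul ((norm_le_pi_norm x i).trans hx) ?_ (norm_nonneg _) hp)
        refine norm_sum_le_of_le _ fun j _ => (norm_mul_le _ _).trans
          (mul_le_mul (h i j) ?_ (norm_nonneg _) hK)
        rw [Pi.star_apply, norm_star]
        exact (norm_le_pi_norm y j).trans hy
    _ = _ := by simp; ring

theorem qf_sub (X Y : M6) (x y : Fin 6 → ℂ) : qf (X - Y) x y = qf X x y - qf Y x y := by
  simp only [qf, sub_mulVec, dotProduct_sub]

theorem qf_exp (X : M6) (t : ℝ) (x y : Fin 6 → ℂ) : qf X (x - (t : ℂ) • y) (x - (t : ℂ) • y) =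
    qf X x x - t * (qf X x y + qf X y x) + t ^ 2 * qf X y y := by
  simp only [qf, star_sub, star_smul, mulVec_sub, mulVec_smul, dotProduct_sub, dotProduct_smul,
    sub_dotProduct, smul_dotProduct, smul_eq_mul, star_def, conj_ofReal]
  ring

theorem qf_Ht (e : ℝ) (Hk : Cf → M6) (s u W : ℂ) (x y : Fin 6 → ℂ) : qf (Ht e Hk s u W) x y =
    ((‖s‖ ^ (1 - 6 * e) : ℝ) : ℂ) * qf (Hk (ch s (u * W ^ 2))) (x ᵥ* Tm s u W) (y ᵥ* Tm s u W) := by
  rw [← qf_vecMul, Ht, qf, qf, smul_mulVec, dotProduct_smul, smul_eq_mul]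

theorem cw_ch (s u W : ℂ) : cw (ch s (u * W ^ 2)) = c0 u W ᵥ* Tm s u W := by
  funext i
  rw [Tm, ← vecMul_vecMul]
  fin_cases i <;>
    simp [cw, ch, fst, snd, c0, dg, Qm, vecMul, dotProduct, Fin.sum_univ_six, diagonal] <;> ring

theorem iso {u W : ℂ} {K : ℝ} {G J : M6} (h : 3 * a + 1 ≠ 0) (hl : Lim a u W K G J)
    (x y : Fin 6 → ℂ) : qf G (x ᵥ* Nm a u W) (y ᵥ* Nm a u W) = 0 := by
  rw [← qf_vecMul, Matrix.mul_assoc, ← hl.ng, ← Matrix.mul_assoc, NN h, Matrix.zero_mul]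
  simp [qf]

theorem row_bd (a : ℂ) : ∃ C : ℝ, 0 ≤ C ∧ ∀ u W : ℂ, ‖u‖ ≤ 2 → ‖W‖ ≤ 2 →
    ‖c0 u W‖ ≤ C ∧ ‖c0 u W ᵥ* Pm a u W‖ ≤ C ∧ ‖c0 u W ᵥ* Nm a u W‖ ≤ C := by
  have h0 : Continuous fun p : ℂ × ℂ => c0 p.1 p.2 :=
    continuous_pi fun i => by fin_cases i <;> simp [c0] <;> fun_prop
  have h1 : Continuous fun p : ℂ × ℂ => A0 a p.1 p.2 :=
    continuous_matrix fun i j => by fin_cases i <;> fin_cases j <;> simp [A0] <;> fun_prop
  have h2 := h1.matrix_mul h1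
  have h3 : Continuous fun p : ℂ × ℂ => Pm a p.1 p.2 := by
    unfold Pm; exact h2.const_smul ((3 * a + 1) ^ 2)⁻¹
  have h4 : Continuous fun p : ℂ × ℂ => Nm a p.1 p.2 := by
    unfold Nm; exact h1.add (h2.const_smul (3 * a + 1)⁻¹)
  obtain ⟨C, hC⟩ := (isCompact_closedBall (0 : ℂ × ℂ) 2).exists_bound_of_continuousOn
    (h0.prodMk ((h0.matrix_vecMul h3).prodMk (h0.matrix_vecMul h4))).continuousOn
  refine ⟨C, (norm_nonneg _).trans (hC 0 (by simp)), fun u W hu hW => ?_⟩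
  have := hC (u, W) (by simp [Prod.norm_def, hu, hW])
  simpa only [norm_prod_le_iff] using this

theorem nu_ne {e : ℝ} (he : e < 1 / 12) : 3 * al e + 1 = ((-1 / 2 + 3 * e : ℝ) : ℂ) ∧
    3 * al e + 1 ≠ 0 := by
  have h : 3 * al e + 1 = ((-1 / 2 + 3 * e : ℝ) : ℂ) := by rw [al]; push_cast; ring
  exact ⟨h, h ▸ ofReal_ne_zero.2 (by linarith)⟩

end Gw

open Gw

theorem growCh {j : ℕ} {e : ℝ} {Hk Hi : Cf → M6} (he : e < 1 / 12) (h : Core j e Hk Hi) :
    GrowCh e Hk := by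
  obtain ⟨K, hK⟩ := h
  obtain ⟨C, hC0, hC⟩ := row_bd (al e)
  obtain ⟨hν, hν0⟩ := nu_ne he
  refine ⟨36 * K * (16 * C ^ 2), Real.exp (-1), Real.exp_pos _, fun s z hs hs' hz hz' => ?_⟩
  obtain ⟨u, hu, rfl, hu1, hu2⟩ := root_ex j hz hz'
  obtain ⟨s0, h0, hs0⟩ := polar_ex hs
  have hL := le_log_of_le hs hs'
  set L := Real.log (1 / ‖s‖)
  obtain ⟨G, J, hl, hG⟩ := hK s0 u h0 hu hz'
  have hE := (hG L hL).1
  rw [← hs0] at hE
  obtain ⟨b0, b1, b2⟩ := hC u _ hu1 hu2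
  have hK0 : 0 ≤ K := (norm_nonneg _).trans (hl.bg 0 0)
  set c := c0 u (u ^ j)
  set b := c - c ᵥ* Pm (al e) u (u ^ j) + exp (-(3 * al e + 1) * -L) • c ᵥ* Pm (al e) u (u ^ j)
    with hb
  have e1 : c ᵥ* Em (al e) u (u ^ j) (-L) = b - (L : ℂ) • c ᵥ* Nm (al e) u (u ^ j) := by
    simp only [Em, hb, vecMul_add, vecMul_sub, vecMul_one, vecMul_smul, neg_smul, vecMul_neg]
    abel
  have e2 : ‖b‖ ≤ 3 * C := by
    have : ‖exp (-(3 * al e + 1) * -L)‖ ≤ 1 := by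
      rw [hν, neg_mul_neg, ← ofReal_mul, norm_exp_ofReal, Real.exp_le_one_iff]
      nlinarith
    refine (norm_add_le_of_le (norm_sub_le_of_le b0 b1) ((norm_smul_le _ _).trans
      (mul_le_mul this b1 (norm_nonneg _) zero_le_one))).trans (by linarith)
  have e3 := qf_bd hE b0 b0
  rw [qf_sub, qf_vecMul, e1, qf_exp, iso hν0 hl, qf_Ht, ← cw_ch] at e3
  have e4 := qf_bd hl.bg e2 e2
  have e5 := (norm_add_le _ _).trans (add_le_add (qf_bd hl.bg e2 b2) (qf_bd hl.bg b2 e2))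
  have e6 := (norm_mul_le (L : ℂ) _).trans (mul_le_mul_of_nonneg_left e5 (norm_nonneg _))
  rw [norm_real, Real.norm_of_nonneg (by linarith)] at e6
  rw [mul_zero, add_zero] at e3
  have e7 := (norm_le_norm_sub_add _ _).trans (add_le_add e3 (norm_sub_le_of_le e4 e6))
  have hs1 := norm_pos_iff.2 hs
  rw [norm_mul, norm_real, Real.norm_of_nonneg (by positivity), show 1 - 6 * e = -(-1 + 6 * e) by
    ring, Real.rpow_neg hs1.le, inv_mul_le_iff₀ (by positivity)] at e7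
  refine e7.trans ?_
  rw [mul_right_comm _ (‖s‖ ^ (-1 + 6 * e)), mul_comm _ (‖s‖ ^ (-1 + 6 * e))]
  refine mul_le_mul_of_nonneg_left ?_ (by positivity)
  have : Real.exp (-L / 8) ≤ 1 := Real.exp_le_one_iff.2 (by linarith)
  have h1 : 0 ≤ K * C ^ 2 := by positivity
  nlinarith [mul_le_mul_of_nonneg_left this h1, mul_le_mul_of_nonneg_left hL h1]

theorem negSt (hC : CoreSt) : NegSt := by
  intro j e hj he Hk Hi hG
  have hj' : (3 : ℝ) ≤ j := by exact_mod_cast hj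
  have he' : e < 1 / 12 := by
    rw [he]; exact one_div_lt_one_div_of_lt (by norm_num) (by linarith)
  obtain ⟨-, hν⟩ := nu_ne he'
  obtain ⟨K, hK⟩ := hC j e hj he Hk Hi hG
  have hz : ‖(1 : ℂ) * (1 ^ j) ^ 2‖ ≤ 3 / 2 := by norm_num
  obtain ⟨G, J, hl, hE⟩ := hK 1 1 norm_one one_ne_zero hz
  have hK0 : 0 ≤ K := (norm_nonneg _).trans (hl.bg 0 0)
  set P := Pm (al e) 1 (1 ^ j) with hP
  set N := Nm (al e) 1 (1 ^ j) with hN
  have bd : ∀ X : M6, ∃ C, 0 < C ∧ ∀ y : Fin 6 → ℂ, ‖y ᵥ* X‖ ≤ C * ‖y‖ := fun X =>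
    (LinearMap.toContinuousLinearMap (vecMulLinear X)).bound
  obtain ⟨C1, hC1, b1⟩ := bd (J * (1 - P))
  set t : ℝ := 1 / (36 * K * C1 ^ 2 + 1) with ht
  have ht0 : 0 < t := by positivity
  set D : M6 := 1 - (t : ℂ) • (J * (1 - P)) with hD
  obtain ⟨C2, hC2, b2⟩ := bd D
  obtain ⟨C3, hC3, b3⟩ := bd (D * N)
  obtain ⟨L, hL, hL1⟩ : ∃ L : ℝ, 36 * K * (C2 + C3) ^ 2 * 64 * ((L / 8) ^ 2 * Real.exp (-(L / 8))) < t
      ∧ 1 ≤ L := by
    have h1 := ((Real.tendsto_pow_mul_exp_neg_atTop_nhds_zero 2).comp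
      (tendsto_id.atTop_div_const (r := 8) (by norm_num))).const_mul (36 * K * (C2 + C3) ^ 2 * 64)
    rw [mul_zero] at h1
    exact ((h1.eventually_lt_const ht0).and (eventually_ge_atTop 1)).exists
  set s : ℂ := 1 * exp (-L) with hs
  have hs0 : s ≠ 0 := mul_ne_zero one_ne_zero (exp_ne_zero _)
  have hs1 : ‖s‖ ≤ 1 / 2 := by
    rw [hs, norm_polar norm_one, Real.exp_neg, one_div]
    exact inv_anti₀ two_pos (by linarith [Real.add_one_le_exp L])
  set M := D * (1 + (L : ℂ) • N) with hM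
  refine ⟨_, lg_ch_inj hs0 hs1 (by simp) hz,
    Pi.single 3 1 ᵥ* (N * M * Tm s 1 (1 ^ j)), Pi.single 4 1 ᵥ* (N * M * Tm s 1 (1 ^ j)),
    fun p q hpq => ?_⟩
  rw [← smul_vecMul, ← smul_vecMul, ← add_vecMul, ← vecMul_vecMul, ← vecMul_vecMul]
  set w : Fin 6 → ℂ := p • Pi.single 3 1 + q • Pi.single 4 1 with hw
  set y := w ᵥ* N with hy
  have hy0 : 0 < ‖y‖ := by
    have ha : al e ≠ 0 := fun h => by
      have := congrArg re h
      simp [al] at this
      linarith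
    refine norm_pos_iff.2 fun h => ?_
    have h0 := congrFun h 0
    have h2 := congrFun h 2
    rw [hy, hw, add_vecMul, smul_vecMul, smul_vecMul, single_one_vecMul, single_one_vecMul] at h0 h2
    simp [hN, Nm, A0, ha] at h0 h2
    tauto
  have yP : y ᵥ* P = 0 := by rw [hy, vecMul_vecMul, NP hν, vecMul_zero]
  have e0 : (1 + (L : ℂ) • N) * Em (al e) 1 (1 ^ j) (-L) =
      1 - P + exp (-(3 * al e + 1) * -L) • P := by
    simp only [Em, add_mul, mul_add, mul_sub, Matrix.smul_mul, Matrix.mul_smul, hN, hP, NN hν,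
      NP hν, Matrix.one_mul, Matrix.mul_one, smul_zero, neg_smul, Matrix.mul_neg]
    abel
  have e1 : y ᵥ* M ᵥ* Em (al e) 1 (1 ^ j) (-L) = y - (t : ℂ) • y ᵥ* (J * (1 - P)) := by
    have : J * (1 - P) * P = 0 := by
      rw [Matrix.mul_assoc, sub_mul, Matrix.one_mul, hP, PP hν, sub_self, Matrix.mul_zero]
    rw [vecMul_vecMul, hM, Matrix.mul_assoc, e0, hD]
    generalize J * (1 - P) = Z at this
    simp only [sub_mul, mul_add, mul_sub, Matrix.smul_mul, Matrix.mul_smul, this, Matrix.one_mul,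
      Matrix.mul_one, smul_zero, sub_zero, vecMul_add, vecMul_sub, vecMul_smul, yP, vecMul_one,
      add_zero]
  have e2 : qf G (y ᵥ* (J * (1 - P))) y = y ⬝ᵥ star y := by
    have h1 : (1 - P) * G = G * (1 - P)ᴴ := by
      have h2 := congrArg conjTranspose hl.pg
      rw [conjTranspose_mul, conjTranspose_mul, conjTranspose_conjTranspose, hl.herm,
        conjTranspose_zero] at h2
      calc (1 - P) * G = (1 - P) * G * (1 - P)ᴴ + (1 - P) * G * Pᴴ := by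
            rw [← mul_add, ← conjTranspose_add, sub_add_cancel, conjTranspose_one, Matrix.mul_one]
        _ = _ := by rw [hl.pg, add_zero, Matrix.mul_assoc, sub_mul, h2, sub_zero, Matrix.one_mul]
    rw [qf, dotProduct_mulVec, vecMul_vecMul, Matrix.mul_assoc, h1, ← Matrix.mul_assoc, hl.jg,
      Matrix.one_mul, ← dotProduct_mulVec, ← star_vecMul, vecMul_sub, yP, sub_zero, vecMul_one]
  have e3 : ‖y‖ ^ 2 ≤ (y ⬝ᵥ star y).re := by
    have h1 : (y ⬝ᵥ star y).re = ∑ i, ‖y i‖ ^ 2 := by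
      simp only [dotProduct, Pi.star_apply, star_def, mul_conj, re_sum, ofReal_re,
        normSq_eq_norm_sq]
    rw [h1, ← Real.le_sqrt (norm_nonneg _) (by positivity), pi_norm_le_iff_of_nonneg (by positivity)]
    exact fun i => Real.le_sqrt_of_sq_le (Finset.single_le_sum (f := fun i => ‖y i‖ ^ 2)
      (fun _ _ => sq_nonneg _) (Finset.mem_univ i))
  have e4 : ‖y ᵥ* M‖ ≤ (C2 + C3) * L * ‖y‖ := by
    rw [hM, mul_add, Matrix.mul_one, Matrix.mul_smul, vecMul_add, vecMul_smul]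
    refine (norm_add_le_of_le (b2 y) ((norm_smul_le _ _).trans
      (mul_le_mul_of_nonneg_left (b3 y) (norm_nonneg _)))).trans ?_
    rw [norm_real, Real.norm_of_nonneg (by linarith)]
    nlinarith [mul_le_mul_of_nonneg_left hL1 (mul_pos hC2 hy0).le]
  have e5 := (re_le_norm _).trans (qf_bd (hE L hL1).1 e4 e4)
  have e6 := (re_le_norm _).trans (qf_bd hl.bg (b1 y) (b1 y))
  rw [qf_sub, qf_vecMul, e1, qf_exp, Red.qf_conj hl.herm (y ᵥ* (J * (1 - P))) y, e2, qf_Ht,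
    show qf G y y = 0 from iso hν hl w w, ← ofReal_pow] at e5
  simp only [sub_re, add_re, re_ofReal_mul, zero_re, star_def, conj_re] at e5
  refine neg_of_mul_neg_left ?_ (Real.rpow_nonneg (norm_nonneg s) (1 - 6 * e))
  have h1 : t * (36 * K * C1 ^ 2) ≤ 1 := by
    rw [ht, div_mul_eq_mul_div, div_le_one (by positivity)]; linarith
  have h2 := pow_pos hy0 2
  rw [neg_div] at e5
  nlinarith [mul_le_mul_of_nonneg_left e3 ht0.le, mul_le_mul_of_nonneg_left e6 (sq_nonneg t),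
    mul_lt_mul_of_pos_right hL h2, mul_le_mul_of_nonneg_right h1 (mul_pos ht0 h2).le]

end Pool.Agent.Lib.MP_0c623d_al.BP.Cu
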