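import Pool.Agent.Lib.MP_0c623d_al.E.MatD
import Pool.Agent.Lib.MP_0c623d_al.E.Log

set_option autoImplicit false

/-!
The logarithmic lower bound in the sheared frame.
-/

namespace Pool.Agent.Lib.MP_0c623d_al.BP.Cu

open Complex Matrix

noncomputable section

theorem lc_QQ : Qm * Qi = 1 := by
  ext i j
  fin_cases i <;> fin_cases j <;> simp [Qm, Qi, Matrix.mul_apply, Fin.sum_univ_succ] <;> norm_num

theorem lc_inv {s u W : ℂ} (hs : s ≠ 0) (hu : u ≠ 0) (hW : W ≠ 0) :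
    (Tm s u W)⁻¹ = Qi * diagonal fun i => (dg s u W i)⁻¹ := by
  refine Matrix.inv_eq_right_inv ?_
  have h : ∀ i, dg s u W i ≠ 0 := fun i => by fin_cases i <;> simp [dg, hs, hu, hW]
  rw [Tm, Matrix.mul_assoc, ← Matrix.mul_assoc Qm, lc_QQ, Matrix.one_mul, diagonal_mul_diagonal,
    ← diagonal_one]
  congr 1
  funext i
  exact mul_inv_cancel₀ (h i)

theorem lc_den {a : Cf} (ha : Function.Injective a) (n : Fin 6) :
    cw a n * Pc a n (a (fst n)) * Pc a n (a (snd n)) ≠ 0 := by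
  have h : ∀ i j, i ≠ j → a i - a j ≠ 0 := fun i j e => sub_ne_zero.2 (ha.ne e)
  have d : ∀ n : Fin 6, fst n ≠ snd n ∧ fst n ≠ fst (cpl n) ∧ fst n ≠ snd (cpl n) ∧
      snd n ≠ fst (cpl n) ∧ snd n ≠ snd (cpl n) := by decide
  obtain ⟨d1, d2, d3, d4, d5⟩ := d n
  exact mul_ne_zero (mul_ne_zero (pow_ne_zero 2 (h _ _ d1)) (mul_ne_zero (h _ _ d2) (h _ _ d3)))
    (mul_ne_zero (h _ _ d4) (h _ _ d5))

theorem lc_vec {s u W : ℂ} (hs : s ≠ 0) (hu : u ≠ 0) (hW : W ≠ 0) :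
    (Tm s u W)⁻¹ *ᵥ ff u = ![u / (2 * s ^ 2) - u / (2 * s),
      1 / (s ^ 2 * W ^ 2) - u / s ^ 2 + u / (2 * s), -1 / (s * W ^ 2) + u / (2 * s),
      -1 / (s ^ 2 * W ^ 2) - u / s ^ 2 + u / (2 * s), 1 / (s * W ^ 2) + u / (2 * s), -u / s] := by
  rw [lc_inv hs hu hW, ← mulVec_mulVec]
  funext n
  fin_cases n <;> simp [Qi, dg, ff, mulVec, dotProduct, diagonal, Fin.sum_univ_succ] <;>
    field_simp <;> ring

theorem Srow_eq {s u W : ℂ} (hs : s ≠ 0) (hu : u ≠ 0) (hW : W ≠ 0)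
    (h4 : 4 + s * (u * W ^ 2) ^ 2 ≠ 0) (ha : Function.Injective (ch s (u * W ^ 2))) :
    (Tm s u W)⁻¹ *ᵥ ff u = nf s u W • Srow (ch s (u * W ^ 2))
      ![2 * x0 s (u * W ^ 2), -(1 + x0 s (u * W ^ 2)), 2] := by
  rw [lc_vec hs hu hW]
  funext n
  rw [Pi.smul_apply, smul_eq_mul, Srow, ← mul_div_assoc, eq_div_iff (lc_den ha n)]
  have hx : x0 s (u * W ^ 2) * (4 + s * (u * W ^ 2) ^ 2) = s * (u * W ^ 2) ^ 2 * (1 + s) :=
    div_mul_cancel₀ _ h4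
  have e : ∀ x y : ℂ, nf s u W * ell ![2 * x0 s (u * W ^ 2), -(1 + x0 s (u * W ^ 2)), 2] x y =
      u * s * (1 - (u * W ^ 2) ^ 2 / 4) * (1 - s) / 4 *
        (s * (u * W ^ 2) ^ 2 * (1 + s) * (2 - x - y) +
          (4 + s * (u * W ^ 2) ^ 2) * (2 * x * y - x - y)) := by
    intro x y
    rw [← hx]
    simp [nf, ell]
    ring
  rw [e]
  fin_cases n <;> simp [cw, Pc, ch, fst, snd, cpl] <;> field_simp <;> ring

theorem logCh (hL : LogSt) : LogCh := by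
  intro j e hj he Hk Hi g
  have j3 : (3 : ℝ) ≤ j := by exact_mod_cast hj
  have he0 : 0 < e := by rw [he]; positivity
  have he1 : e < 1 / 12 := by
    rw [he]
    exact one_div_lt_one_div_of_lt (by norm_num) (by linarith)
  obtain ⟨c, δ, hc, hδ, hb⟩ := hL e he0 he1
  refine ⟨c * (7 / 64) ^ 2, max (-Real.log δ) 1, by positivity, fun s0 u h0 hu hz L hL0 => ?_⟩
  set s : ℂ := s0 * exp (-L) with hsd
  set W : ℂ := u ^ j with hWd
  have hW : W ≠ 0 := pow_ne_zero _ hu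
  have ns : ‖s‖ = Real.exp (-L) := by
    rw [hsd, norm_mul, h0, one_mul, norm_exp]
    simp
  clear_value s
  have s0' : 0 < ‖s‖ := by rw [ns]; exact Real.exp_pos _
  have hs : s ≠ 0 := norm_pos_iff.1 s0'
  have sδ : ‖s‖ ≤ δ := by
    rw [ns, ← Real.exp_log hδ]
    exact Real.exp_le_exp.2 (by linarith [le_max_left (-Real.log δ) 1])
  have s2 : ‖s‖ ≤ 1 / 2 := by
    have h1 : 1 ≤ L := (le_max_right _ _).trans hL0
    rw [ns, Real.exp_neg, ← one_div]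
    exact one_div_le_one_div_of_le (by norm_num) (by linarith [Real.add_one_le_exp L])
  have hz0 : u * W ^ 2 ≠ 0 := mul_ne_zero hu (pow_ne_zero _ hW)
  have u0 : 0 < ‖u‖ := norm_pos_iff.2 hu
  have zz : ‖(u * W ^ 2) ^ 2‖ ≤ 9 / 4 := by
    rw [norm_pow]
    nlinarith [norm_nonneg (u * W ^ 2)]
  have sz : ‖s * (u * W ^ 2) ^ 2‖ ≤ 9 / 8 := by
    rw [norm_mul]
    nlinarith [norm_nonneg ((u * W ^ 2) ^ 2)]
  have n4 : 2 ≤ ‖4 + s * (u * W ^ 2) ^ 2‖ := by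
    have := norm_sub_le (4 + s * (u * W ^ 2) ^ 2) (s * (u * W ^ 2) ^ 2)
    rw [add_sub_cancel_right, Complex.norm_ofNat] at this
    linarith
  have h4 : 4 + s * (u * W ^ 2) ^ 2 ≠ 0 := norm_pos_iff.1 (by linarith)
  have ha := lg_ch_inj hs s2 hz0 hz
  have hx : ‖x0 s (u * W ^ 2)‖ ≤ 3 * ‖s‖ := by
    rw [x0, norm_div, div_le_iff₀ (by linarith), norm_mul, norm_mul]
    have h1 : ‖1 + s‖ ≤ 3 / 2 := by linarith [norm_add_le 1 s, norm_one (α := ℂ)]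
    have h2 : ‖(u * W ^ 2) ^ 2‖ * ‖1 + s‖ ≤ 9 / 4 * (3 / 2) :=
      mul_le_mul zz h1 (norm_nonneg _) (by norm_num)
    nlinarith
  have hG := hb s (u * W ^ 2) _ hs sδ hz0 hz hx
  have hlog : Real.log (1 / ‖s‖) = L := by
    rw [ns, one_div, ← Real.exp_neg, neg_neg, Real.log_exp]
  have hzu : ‖u * W ^ 2‖ ^ (-4 * e) = (‖u‖ ^ 2)⁻¹ := by
    have : ‖u * W ^ 2‖ = ‖u‖ ^ (2 * j + 1) := by
      rw [hWd, norm_mul, norm_pow, norm_pow]
      ring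
    rw [this, ← Real.rpow_natCast, ← Real.rpow_mul u0.le, ← Real.rpow_natCast,
      ← Real.rpow_neg u0.le, he]
    congr 1
    push_cast
    field_simp
    ring
  have hn : ‖u‖ * ‖s‖ * (7 / 64) ≤ ‖nf s u W‖ := by
    have a1 : 7 / 16 ≤ ‖1 - (u * W ^ 2) ^ 2 / 4‖ := by
      have := norm_add_le (1 - (u * W ^ 2) ^ 2 / 4) ((u * W ^ 2) ^ 2 / 4)
      rw [sub_add_cancel, norm_one, norm_div, Complex.norm_ofNat] at this
      linarith
    have a2 : 1 / 2 ≤ ‖1 - s‖ := by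
      have := norm_add_le (1 - s) s
      rw [sub_add_cancel, norm_one] at this
      linarith
    have a3 : 1 / 2 ≤ ‖1 + s * (u * W ^ 2) ^ 2 / 4‖ := by
      have := norm_sub_le (1 + s * (u * W ^ 2) ^ 2 / 4) (s * (u * W ^ 2) ^ 2 / 4)
      rw [add_sub_cancel_right, norm_one, norm_div, Complex.norm_ofNat] at this
      linarith
    rw [nf, norm_mul (_ * _), norm_mul (_ * _), norm_mul (u * s), norm_mul u s]
    calc _ = ‖u‖ * ‖s‖ * (7 / 16) * (1 / 2) * (1 / 2) := by ring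
      _ ≤ _ := by gcongr
  have key : star (ff u) ⬝ᵥ Hti e Hi s u W *ᵥ ff u =
      ((‖s‖ ^ (-1 + 6 * e) * ‖nf s u W‖ ^ 2 * G e (ch s (u * W ^ 2))
        ![2 * x0 s (u * W ^ 2), -(1 + x0 s (u * W ^ 2)), 2] : ℝ) : ℂ) := by
    rw [Hti, smul_mulVec, dotProduct_smul, ← mulVec_mulVec, ← mulVec_mulVec, dotProduct_mulVec,
      ← star_mulVec, Srow_eq hs hu hW h4 ha, star_smul, mulVec_smul, smul_dotProduct,
      dotProduct_smul, g.dual _ ha]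
    simp only [smul_eq_mul, star_def]
    push_cast
    rw [← conj_mul']
    ring
  rw [key, ofReal_re]
  rw [hlog, hzu] at hG
  have hL1 : 0 ≤ L := by linarith [le_max_right (-Real.log δ) 1]
  have e2 : ‖s‖ ^ (-1 + 6 * e) * ‖s‖ ^ 2 * ‖s‖ ^ (-1 - 6 * e) = 1 := by
    rw [← Real.rpow_natCast, ← Real.rpow_add s0', ← Real.rpow_add s0']
    have : -1 + 6 * e + ((2 : ℕ) : ℝ) + (-1 - 6 * e) = 0 := by push_cast; ring
    rw [this, Real.rpow_zero]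
  calc c * (7 / 64) ^ 2 * L
      = ‖s‖ ^ (-1 + 6 * e) * (‖u‖ * ‖s‖ * (7 / 64)) ^ 2 *
          (c * (‖u‖ ^ 2)⁻¹ * ‖s‖ ^ (-1 - 6 * e) * L) := by
        have : ‖s‖ ^ (-1 + 6 * e) * (‖u‖ * ‖s‖ * (7 / 64)) ^ 2 *
            (c * (‖u‖ ^ 2)⁻¹ * ‖s‖ ^ (-1 - 6 * e) * L) =
            (‖s‖ ^ (-1 + 6 * e) * ‖s‖ ^ 2 * ‖s‖ ^ (-1 - 6 * e)) * (c * (7 / 64) ^ 2 * L) := by
          field_simp
        rw [this, e2, one_mul]
    _ ≤ _ := by gcongr

end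

end Pool.Agent.Lib.MP_0c623d_al.BP.Cu
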