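import Mathlib
import Pool.Agent.Lib.MP_0c623d_al.E.Defs

set_option autoImplicit false

/-!
Chart versions of the statements at a triple collision.
-/

namespace Pool.Agent.Lib.MP_0c623d_al.BP

open Complex Matrix

noncomputable section

/-- the tangent vector `x s ∂_s + y ∂_z` of the chart -/
def tv (s z x y : ℂ) : Cf := ![-(s * (x * z + y) / 2), s * (x * z + y) / 2, x * s, 0]

/-- growth in the chart -/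
def GrowCh (e : ℝ) (Hk : Cf → M6) : Prop := ∃ C δ : ℝ, 0 < δ ∧ ∀ s z : ℂ, s ≠ 0 → ‖s‖ ≤ δ →
  z ≠ 0 → ‖z‖ ≤ 3 / 2 → ‖qf (Hk (ch s z)) (cw (ch s z)) (cw (ch s z))‖ ≤
    C * ‖s‖ ^ (-1 + 6 * e) * Real.log (1 / ‖s‖)

/-- the lower bound of the metric in the chart -/
def CuspCh (Hk : Cf → M6) : Prop := ∃ C δ : ℝ, 0 < δ ∧ ∀ s z : ℂ, s ≠ 0 → ‖s‖ ≤ δ →
  z ≠ 0 → ‖z‖ ≤ 3 / 2 → ∀ x y : ℂ,
    (‖x‖ ^ 2 + ‖y‖ ^ 2) * (qf (Hk (ch s z)) (cw (ch s z)) (cw (ch s z))).re ^ 2 ≤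
      C * Real.log (1 / ‖s‖) ^ 2 *
        (‖qf (Hk (ch s z)) (cw (ch s z)) (Bm (ch s z) (tv s z x y))‖ ^ 2 -
          (qf (Hk (ch s z)) (cw (ch s z)) (cw (ch s z))).re *
            (qf (Hk (ch s z)) (Bm (ch s z) (tv s z x y)) (Bm (ch s z) (tv s z x y))).re)

/-- homogeneity of the Gram matrix -/
def ScaleSt : Prop := ∀ (e : ℝ) (Hk Hi : Cf → M6), Gr e Hk Hi → ∀ (a : Cf) (c d : ℂ),
  Function.Injective a → c ≠ 0 →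
    Hk (fun i => c * a i + d) = ((‖c‖ ^ (-7 + 10 * e) : ℝ) : ℂ) • Hk a

/-- normal form of a configuration near a triple collision -/
def NormSt : Prop := ∃ C δ : ℝ, 0 < C ∧ 0 < δ ∧ ∀ (l : Fin 4) (a : Cf), Function.Injective a →
  Sl l a ≤ δ * Sz a → ∃ (σ : Equiv.Perm (Fin 4)) (c d s z : ℂ), σ 3 = l ∧ c ≠ 0 ∧ s ≠ 0 ∧ z ≠ 0 ∧
    ‖z‖ ≤ 3 / 2 ∧ a ∘ σ = (fun i => c * ch s z i + d) ∧ ‖s‖ ^ 2 ≤ C * (Sl l a / Sz a) ∧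
      Sl l a / Sz a ≤ C * ‖s‖ ^ 2 ∧ Sz a ≤ C * ‖c‖ ^ 2 ∧ ‖c‖ ^ 2 ≤ C * Sz a

/-- the derivative of the proper function in the chart -/
def TauSt : Prop := ∃ C δ : ℝ, 0 < δ ∧ ∀ s z : ℂ, s ≠ 0 → ‖s‖ ≤ δ → ‖z‖ ≤ 3 / 2 →
  ∀ p q x y : ℂ, (fderiv ℝ (tau 3) (ch s z) (fun i => p * ch s z i + q + tv s z x y i)) ^ 2 *
    Real.log (1 / ‖s‖) ^ 2 ≤ C * (‖x‖ ^ 2 + ‖y‖ ^ 2)

/-- reduction of the growth statement to the chart -/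
def RedGrow : Prop := ∀ (e : ℝ) (Hk Hi : Cf → M6), 0 < e → e < 1 / 12 → Gr e Hk Hi →
  GrowCh e Hk → ∃ C δ : ℝ, 0 < δ ∧ ∀ (l : Fin 4) (a : Cf), Function.Injective a →
    Sl l a ≤ δ * Sz a → ‖qf (Hk a) (cw a) (cw a)‖ ≤
      C * Sz a ^ (-3 / 2 + 5 * e) * (Sl l a / Sz a) ^ (-1 / 2 + 3 * e) *
        Real.log (Sz a / Sl l a)

/-- reduction of the completeness inequality to the chart -/
def RedCusp : Prop := ∀ (e : ℝ) (Hk Hi : Cf → M6), 0 < e → e < 1 / 12 → Gr e Hk Hi → Sg Hk →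
  CuspCh Hk → ∃ C R0 : ℝ, ∀ (l : Fin 4) (a v : Cf), Function.Injective a →
    R0 < tau l a → (fderiv ℝ (tau l) a v) ^ 2 * (qf (Hk a) (cw a) (cw a)).re ^ 2 ≤
      C * (‖qf (Hk a) (cw a) (Bm a v)‖ ^ 2 -
        (qf (Hk a) (cw a) (cw a)).re * (qf (Hk a) (Bm a v) (Bm a v)).re)

end

end Pool.Agent.Lib.MP_0c623d_al.BP
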