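import Mathlib
import Pool.Agent.Lib.MP_0c623d_al.E.Defs2

set_option autoImplicit false
set_option linter.unusedVariables false

/-!
Explicit matrices of the system in the frame adapted to a triple collision and to a mirror.
-/

namespace Pool.Agent.Lib.MP_0c623d_al.BP.Cu

open Complex Matrix

noncomputable section

/-- an explicit matrix -/
def Qm : M6 :=
  !![1, 1 / 4, 1 / 4, 1 / 4, 1 / 4, 0;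
    0, 1 / 2, 0, -(1 / 2), 0, 0;
    0, 1, 0, 1, 0, 1;
    0, 0, 1 / 2, 0, -(1 / 2), 0;
    0, 0, 0, 0, 0, -(1);
    0, 0, 1, 0, 1, 1]

/-- an explicit matrix -/
def Qi : M6 :=
  !![1, 0, -(1 / 4), 0, -(1 / 2), -(1 / 4);
    0, 1, 1 / 2, 0, 1 / 2, 0;
    0, 0, 0, 1, 1 / 2, 1 / 2;
    0, -(1), 1 / 2, 0, 1 / 2, 0;
    0, 0, 0, -(1), 1 / 2, 1 / 2;
    0, 0, 0, 0, -(1), 0]

/-- an explicit matrix -/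
def Rm (a : ℂ) : Fin 6 → M6 :=
  ![!![a - 1, 0, 3 / 4 * a + 1 / 4, 0, 3 / 2 * a + 1 / 2, 3 / 4 * a + 1 / 4;
    0, 2 * a, 0, 0, 0, 0;
    0, 0, 0, 0, 0, 0;
    0, 0, 0, 2 * a, 0, 0;
    0, 0, 0, 0, 0, 0;
    0, 0, 0, 0, 0, 0],
  !![a, 3 / 4 * a - 1 / 4, -(3 / 8 * a) - 1 / 8, 1 / 2 * a, -(3 / 8 * a) - 1 / 8, 0;
    a, 1 / 2 * a - 1 / 2, -(1 / 4), 1 / 2 * a, -(1 / 2 * a) - 1 / 4, 0;
    0, -(a) - 1, 3 / 2 * a - 1 / 2, 0, -(1 / 2 * a) - 1 / 2, 0;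
    0, 0, 0, 1 / 2 * a, 3 / 4 * a, 1 / 4 * a;
    0, 0, 0, a, 3 / 2 * a, 1 / 2 * a;
    0, 0, 0, 0, 0, 0],
  !![a, 1 / 2 * a, 0, 3 / 4 * a - 1 / 4, -(3 / 8 * a) - 1 / 8, -(3 / 8 * a) - 1 / 8;
    0, 1 / 2 * a, 1 / 4 * a, 0, 3 / 4 * a, 0;
    0, 0, 0, 0, 0, 0;
    a, 1 / 2 * a, 0, 1 / 2 * a - 1 / 2, -(1 / 2 * a) - 1 / 4, -(1 / 4);
    0, a, 1 / 2 * a, 0, 3 / 2 * a, 0;
    0, 0, 0, -(a) - 1, -(1 / 2 * a) - 1 / 2, 3 / 2 * a - 1 / 2],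
  !![a, -(3 / 4 * a) + 1 / 4, -(3 / 8 * a) - 1 / 8, -(1 / 2 * a), -(3 / 8 * a) - 1 / 8, 0;
    -(a), 1 / 2 * a - 1 / 2, 1 / 4, 1 / 2 * a, 1 / 2 * a + 1 / 4, 0;
    0, a + 1, 3 / 2 * a - 1 / 2, 0, -(1 / 2 * a) - 1 / 2, 0;
    0, 0, 0, 1 / 2 * a, -(3 / 4 * a), -(1 / 4 * a);
    0, 0, 0, -(a), 3 / 2 * a, 1 / 2 * a;
    0, 0, 0, 0, 0, 0],
  !![a, -(1 / 2 * a), 0, -(3 / 4 * a) + 1 / 4, -(3 / 8 * a) - 1 / 8, -(3 / 8 * a) - 1 / 8;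
    0, 1 / 2 * a, -(1 / 4 * a), 0, -(3 / 4 * a), 0;
    0, 0, 0, 0, 0, 0;
    -(a), 1 / 2 * a, 0, 1 / 2 * a - 1 / 2, 1 / 2 * a + 1 / 4, 1 / 4;
    0, -(a), 1 / 2 * a, 0, 3 / 2 * a, 0;
    0, 0, 0, a + 1, -(1 / 2 * a) - 1 / 2, 3 / 2 * a - 1 / 2],
  !![0, 0, 0, 0, 0, 0;
    0, a, 0, -(a), 0, 0;
    0, 0, 2 * a, 0, a + 1, 0;
    0, -(a), 0, a, 0, 0;
    0, 0, -(a), 0, -(a) - 1, -(a);
    0, 0, 0, 0, a + 1, 2 * a]]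

/-- an explicit matrix -/
def A0 (a u W : ℂ) : M6 :=
  !![0, 0, 0, 0, 0, 0;
    0, 0, 0, 0, 0, 0;
    0, 0, 0, 0, 0, 0;
    W * a, a, 0, 0, 0, 0;
    0, a * u, a, 0, 0, 0;
    0, 0, 0, -(a * u) - u, -(a) - 1, -(3 * a) - 1]

/-- an explicit matrix -/
def M1 (a s u W : ℂ) : M6 :=
  !![0, 0, 0, 0, -(3 / 4 * W ^ 3 * a * s * u) + 3 / 4 * W ^ 3 * a * u - 1 / 4 * W ^ 3 * s * u + 1 / 4 * W ^ 3 * u, 3 / 4 * W ^ 3 * a * s * u - 3 / 4 * W ^ 3 * a * s ^ 2 * u + 1 / 4 * W ^ 3 * s * u - 1 / 4 * W ^ 3 * s ^ 2 * u;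
    0, -(a), 0, a, 0, 0;
    0, 0, -(2 * a), 0, -(a) - 1, 0;
    0, a, 0, -(a), 0, 0;
    0, 0, a, 0, a + 1, a;
    0, 0, 0, 0, -(a) - 1, -(2 * a)]

/-- an explicit matrix -/
def M2 (a s u W : ℂ) : M6 :=
  !![-(2 * W ^ 4 * a * s * u ^ 2), 2 * W ^ 3 * a * u ^ 2, 0, 3 * W ^ 3 * a * s * u ^ 2 - W ^ 3 * s * u ^ 2, 3 / 4 * W ^ 7 * a * s ^ 2 * u ^ 3 + 1 / 4 * W ^ 7 * s ^ 2 * u ^ 3, 3 / 4 * W ^ 7 * a * s ^ 3 * u ^ 3 + 1 / 4 * W ^ 7 * s ^ 3 * u ^ 3;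
    0, -(W ^ 4 * a * s * u ^ 2), W ^ 4 * a * u, 0, 3 * W ^ 4 * a * s * u, 0;
    0, 0, 0, 0, 0, 0;
    W ^ 5 * a * s * u ^ 2, -(W ^ 4 * a * u ^ 2), 0, -(W ^ 4 * a * s * u ^ 2) + W ^ 4 * s * u ^ 2, -(2 * W ^ 4 * a * u) - W ^ 4 * u, -(W ^ 4 * s * u);
    0, W ^ 4 * a * s * u ^ 3, -(W ^ 4 * a * u ^ 2), 0, -(3 * W ^ 4 * a * s * u ^ 2), 0;
    0, 0, 0, -(W ^ 4 * a * s * u ^ 3) - W ^ 4 * s * u ^ 3, W ^ 4 * a * u ^ 2 + W ^ 4 * u ^ 2, -(3 * W ^ 4 * a * s * u ^ 2) + W ^ 4 * s * u ^ 2]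

/-- an explicit matrix -/
def U0u (a s u W : ℂ) : M6 :=
  !![0, 0, 3 / 4 * W ^ 3 * a + 1 / 4 * W ^ 3, 0, 3 / 2 * W ^ 3 * a * s + 1 / 2 * W ^ 3 * s, 3 / 4 * W ^ 3 * a * s ^ 2 + 1 / 4 * W ^ 3 * s ^ 2;
    0, 0, 0, 0, 0, 0;
    0, 0, 0, 0, 0, 0;
    0, 0, 0, 0, 0, 0;
    0, 0, 0, 0, 0, 0;
    0, 0, 0, 0, 0, 0]

/-- an explicit matrix -/
def U2u (a s u W : ℂ) : M6 :=
  !![-(2 * W ^ 4 * a * u), 3 * W ^ 3 * a * u - W ^ 3 * u, 3 / 4 * W ^ 7 * a * u ^ 2 + 1 / 4 * W ^ 7 * u ^ 2, 2 * W ^ 3 * a * s * u, 3 / 4 * W ^ 7 * a * s * u ^ 2 + 1 / 4 * W ^ 7 * s * u ^ 2, 0;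
    0, -(W ^ 4 * a * u) + W ^ 4 * u, -(W ^ 4), -(W ^ 4 * a * s * u), -(2 * W ^ 4 * a * s) - W ^ 4 * s, 0;
    0, -(4 * a) - 4, -(3 * W ^ 4 * a * u) + W ^ 4 * u, 0, W ^ 4 * a * s * u + W ^ 4 * s * u, 0;
    0, 0, 0, -(W ^ 4 * a * u), 3 * W ^ 4 * a, W ^ 4 * a * s;
    0, 0, 0, 4 * a, -(3 * W ^ 4 * a * u), -(W ^ 4 * a * s * u);
    0, 0, 0, 0, 0, 0]

/-- an explicit matrix -/
def U2w (a s u W : ℂ) : M6 :=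
  !![0, 0, 0, 0, 0, 0;
    4 * a, 0, 0, 0, 0, 0;
    0, 0, 0, 0, 0, 0;
    0, 0, 0, 0, 0, 0;
    0, 0, 0, 0, 0, 0;
    0, 0, 0, 0, 0, 0]

/-- an explicit matrix -/
def U3u (a s u W : ℂ) : M6 :=
  !![-(2 * W ^ 4 * a * s ^ 2 * u), 2 * W ^ 3 * a * s * u, 0, 3 * W ^ 3 * a * s ^ 2 * u - W ^ 3 * s ^ 2 * u, 3 / 4 * W ^ 7 * a * s ^ 3 * u ^ 2 + 1 / 4 * W ^ 7 * s ^ 3 * u ^ 2, 3 / 4 * W ^ 7 * a * s ^ 4 * u ^ 2 + 1 / 4 * W ^ 7 * s ^ 4 * u ^ 2;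
    0, -(W ^ 4 * a * s ^ 2 * u), W ^ 4 * a * s, 0, 3 * W ^ 4 * a * s ^ 2, 0;
    0, 0, 0, 0, 0, 0;
    0, -(W ^ 4 * a * s * u), 0, -(W ^ 4 * a * s ^ 2 * u) + W ^ 4 * s ^ 2 * u, -(2 * W ^ 4 * a * s) - W ^ 4 * s, -(W ^ 4 * s ^ 2);
    0, 4 * a, -(W ^ 4 * a * s * u), 0, -(3 * W ^ 4 * a * s ^ 2 * u), 0;
    0, 0, 0, -(4 * a) - 4, W ^ 4 * a * s * u + W ^ 4 * s * u, -(3 * W ^ 4 * a * s ^ 2 * u) + W ^ 4 * s ^ 2 * u]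

/-- an explicit matrix -/
def U3w (a s u W : ℂ) : M6 :=
  !![0, 0, 0, 0, 0, 0;
    0, 0, 0, 0, 0, 0;
    0, 0, 0, 0, 0, 0;
    4 * a, 0, 0, 0, 0, 0;
    0, 0, 0, 0, 0, 0;
    0, 0, 0, 0, 0, 0]

/-- the shear -/
def dg (s u W : ℂ) : Fin 6 → ℂ := ![s ^ 2 * u * W ^ 3, s ^ 2 * W ^ 2, s ^ 2, s * W ^ 2, s, 1]

/-- the weights of `s` -/
def kk : Fin 6 → ℂ := ![2, 2, 2, 1, 1, 0]

/-- the weights of `u` -/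
def pw (j : ℂ) : Fin 6 → ℂ := ![3 * j + 1, 2 * j, 0, 2 * j, 0, 0]

/-- the connection in the constant frame -/
def Cm (a s z x y : ℂ) : M6 :=
  ((x * z + y) / z) • Rm a 0 + ((x * z + y + 2 * x) / (z + 2)) • Rm a 1 +
    (s * (x * z + y) / (s * z + 2)) • Rm a 2 + ((x * z + y - 2 * x) / (z - 2)) • Rm a 3 +
    (s * (x * z + y) / (s * z - 2)) • Rm a 4 + (x * s / (s - 1)) • Rm a 5

/-- the radial system -/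
def As (a s u W : ℂ) : M6 :=
  A0 a u W + (s / (1 - s)) • M1 a s u W + (s / (4 - (s * (u * W ^ 2)) ^ 2)) • M2 a s u W

/-- the part of the mirror system that is divisible by `u` -/
def Bu (a s u W : ℂ) : M6 :=
  U0u a s u W + (4 - (u * W ^ 2) ^ 2)⁻¹ • U2u a s u W + (4 - (s * (u * W ^ 2)) ^ 2)⁻¹ • U3u a s u W

/-- the part of the mirror system that is divisible by `W` -/
def Bw (a s u W : ℂ) : M6 :=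
  (4 - (u * W ^ 2) ^ 2)⁻¹ • U2w a s u W + (4 - (s * (u * W ^ 2)) ^ 2)⁻¹ • U3w a s u W

/-- the diagonal of the residue along the mirror -/
def rd (a : ℂ) : Fin 6 → ℂ := ![a - 1, 2 * a, 0, 2 * a, 0, 0]

/-- the period vector -/
def c0 (u W : ℂ) : Fin 6 → ℂ := ![u * W, 2 * u, 1, 2 * u, 2, 1]

/-- the radial derivative -/
def cs (u W : ℂ) : Fin 6 → ℂ := ![u * W, 2 * u, 1, u, 1, 0]

/-- the derivative along the curve -/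
def cu (W : ℂ) : Fin 6 → ℂ := ![W, 1, 0, 1, 0, 0]

/-- first row of the nilpotent part -/
def r1 (u W : ℂ) : Fin 6 → ℂ := ![u * W, 2 * u, 1, 0, 0, 0]

/-- second row of the nilpotent part -/
def r2 (W : ℂ) : Fin 6 → ℂ := ![W, 1, 0, 0, 0, 0]

/-- the column with logarithmic growth -/
def ff (u : ℂ) : Fin 6 → ℂ := ![0, 1, -(2 * u), -1, u, 0]

/-- its image under the nilpotent part -/
def fn (u : ℂ) : Fin 6 → ℂ := ![0, 0, 0, 1, -u, 0]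

/-- the change of frame -/
def Tm (s u W : ℂ) : M6 := diagonal (dg s u W) * Qm

/-- the root of the second linear factor -/
def x0 (s z : ℂ) : ℂ := s * z ^ 2 * (1 + s) / (4 + s * z ^ 2)

/-- the normalising factor -/
def nf (s u W : ℂ) : ℂ :=
  u * s * (1 - (u * W ^ 2) ^ 2 / 4) * (1 - s) * (1 + s * (u * W ^ 2) ^ 2 / 4)

/-- the nilpotent part of the residue -/
def Nm (a u W : ℂ) : M6 := A0 a u W + (3 * a + 1)⁻¹ • (A0 a u W * A0 a u W)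

/-- the projector on the decaying line -/
def Pm (a u W : ℂ) : M6 := ((3 * a + 1) ^ 2)⁻¹ • (A0 a u W * A0 a u W)

/-- the exponential of the residue -/
def Em (a u W t : ℂ) : M6 :=
  1 - Pm a u W + t • Nm a u W + Complex.exp (-(3 * a + 1) * t) • Pm a u W

/-- entrywise bound -/
def Bd (X : M6) (K : ℝ) : Prop := ∀ i j, ‖X i j‖ ≤ K

/-- the sheared Gram matrix -/
def Ht (e : ℝ) (Hk : Cf → M6) (s u W : ℂ) : M6 :=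
  ((‖s‖ ^ (1 - 6 * e) : ℝ) : ℂ) • (Tm s u W * Hk (ch s (u * W ^ 2)) * (Tm s u W)ᴴ)

/-- its inverse -/
def Hti (e : ℝ) (Hi : Cf → M6) (s u W : ℂ) : M6 :=
  ((‖s‖ ^ (-1 + 6 * e) : ℝ) : ℂ) • (((Tm s u W)⁻¹)ᴴ * Hi (ch s (u * W ^ 2)) * (Tm s u W)⁻¹)

/-- the limit form along a ray -/
structure Lim (a u W : ℂ) (K : ℝ) (G J : M6) : Prop where
  gj : G * J = 1
  jg : J * G = 1
  herm : Gᴴ = G
  bg : Bd G K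
  bj : Bd J K
  ng : Nm a u W * G = G * (Nm a u W)ᴴ
  pg : (1 - Pm a u W) * G * (Pm a u W)ᴴ = 0

/-- the radial system satisfied by the sheared Gram matrix -/
def SysSt : Prop := ∀ (e : ℝ) (Hk Hi : Cf → M6), Gr e Hk Hi → ∀ s0 u W : ℂ, ‖s0‖ = 1 → u ≠ 0 →
  W ≠ 0 → ‖u * W ^ 2‖ ≤ 3 / 2 → ∀ t : ℂ, t.re ≤ -1 →
    (∃ D : ℂ →L[ℝ] M6, HasFDerivAt (fun t => Ht e Hk (s0 * Complex.exp t) u W) D t ∧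
      ∀ τ : ℂ, D τ = (τ • As (al e) (s0 * Complex.exp t) u W) * Ht e Hk (s0 * Complex.exp t) u W +
        Ht e Hk (s0 * Complex.exp t) u W * (τ • As (al e) (s0 * Complex.exp t) u W)ᴴ) ∧
    Ht e Hk (s0 * Complex.exp t) u W * Hti e Hi (s0 * Complex.exp t) u W = 1 ∧
    Hti e Hi (s0 * Complex.exp t) u W * Ht e Hk (s0 * Complex.exp t) u W = 1 ∧
    (Ht e Hk (s0 * Complex.exp t) u W)ᴴ = Ht e Hk (s0 * Complex.exp t) u W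

/-- the radial system is close to its residue -/
def RemSt : Prop := ∀ a : ℂ, ∃ C : ℝ, ∀ s u W : ℂ, ‖s‖ ≤ 1 / 2 → ‖u‖ ≤ 2 → ‖W‖ ≤ 2 →
  ‖u * W ^ 2‖ ≤ 3 / 2 → Bd (As a s u W - A0 a u W) (C * ‖s‖) ∧ Bd (A0 a u W) C

/-- uniform bounds on one circle -/
def StartSt : Prop := ∀ (j : ℕ) (e : ℝ), 3 ≤ j → e = 1 / (4 * j + 2) → ∀ Hk Hi : Cf → M6,
  Gr e Hk Hi → ∃ C : ℝ, ∀ s u : ℂ, ‖s‖ = Real.exp (-1) → u ≠ 0 → ‖u * (u ^ j) ^ 2‖ ≤ 3 / 2 →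
    Bd (Ht e Hk s u (u ^ j)) C ∧ Bd (Hti e Hi s u (u ^ j)) C

/-- the asymptotic form of the sheared Gram matrix -/
def Core (j : ℕ) (e : ℝ) (Hk Hi : Cf → M6) : Prop := ∃ K : ℝ, ∀ s0 u : ℂ, ‖s0‖ = 1 → u ≠ 0 →
  ‖u * (u ^ j) ^ 2‖ ≤ 3 / 2 → ∃ G J : M6, Lim (al e) u (u ^ j) K G J ∧ ∀ L : ℝ, 1 ≤ L →
    Bd (Ht e Hk (s0 * Complex.exp (-L)) u (u ^ j) -
      Em (al e) u (u ^ j) (-L) * G * (Em (al e) u (u ^ j) (-L))ᴴ) (K * Real.exp (-L / 8)) ∧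
    ‖star (ff u) ⬝ᵥ Hti e Hi (s0 * Complex.exp (-L)) u (u ^ j) *ᵥ ff u -
      star (ff u + ((L : ℂ) * al e) • fn u) ⬝ᵥ J *ᵥ (ff u + ((L : ℂ) * al e) • fn u)‖ ≤
        K * Real.exp (-L / 8)

/-- statement: the asymptotic form holds -/
def CoreSt : Prop := ∀ (j : ℕ) (e : ℝ), 3 ≤ j → e = 1 / (4 * j + 2) → ∀ Hk Hi : Cf → M6,
  Gr e Hk Hi → Core j e Hk Hi

/-- the logarithmic lower bound in the sheared frame -/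
def LogCh : Prop := ∀ (j : ℕ) (e : ℝ), 3 ≤ j → e = 1 / (4 * j + 2) → ∀ Hk Hi : Cf → M6,
  Gr e Hk Hi → ∃ c L0 : ℝ, 0 < c ∧ ∀ s0 u : ℂ, ‖s0‖ = 1 → u ≠ 0 → ‖u * (u ^ j) ^ 2‖ ≤ 3 / 2 →
    ∀ L : ℝ, L0 ≤ L →
      c * L ≤ (star (ff u) ⬝ᵥ Hti e Hi (s0 * Complex.exp (-L)) u (u ^ j) *ᵥ ff u).re

/-- uniform non degeneracy of the limit form -/
def NonDeg : Prop := ∀ (a K c : ℝ), -1 / 2 < a → a < -1 / 3 → 0 < c → ∃ c' : ℝ, 0 < c' ∧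
  ∀ (u W : ℂ) (G J : M6), ‖u‖ ≤ 2 → ‖W‖ ≤ 2 → Lim a u W K G J →
    c ≤ ‖star (ff u) ⬝ᵥ J *ᵥ fn u‖ → c' ≤ ‖qf G (cs u W) (r1 u W)‖ ∧
      c' ≤ ‖qf G (cs u W) (r1 u W) * qf G (cu W) (r2 W) -
        qf G (cs u W) (r2 W) * qf G (cu W) (r1 u W)‖

end

end Pool.Agent.Lib.MP_0c623d_al.BP.Cu
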