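import Mathlib
import Pool.Agent.Lib.MP_0c623d_al.E.MatD

set_option autoImplicit false

/-!
Uniform non degeneracy of the limit form at a triple collision.
-/

namespace Pool.Agent.Lib.MP_0c623d_al.BP.Cu

open Complex Matrix

noncomputable section

/-- the second generator of the image of the nilpotent part -/
def gn (h : ℂ) : Fin 6 → ℂ := ![0, 0, 0, 0, 1, h]

theorem Nm_eq {a : ℂ} (hn : 3 * a + 1 ≠ 0) (u W : ℂ) : Nm a u W =
    !![0, 0, 0, 0, 0, 0;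
      0, 0, 0, 0, 0, 0;
      0, 0, 0, 0, 0, 0;
      W * a, a, 0, 0, 0, 0;
      0, a * u, a, 0, 0, 0;
      -(a + 1) / (3 * a + 1) * a * (u * W), -(a + 1) / (3 * a + 1) * a * (2 * u),
        -(a + 1) / (3 * a + 1) * a, 0, 0, 0] := by
  have h := inv_mul_cancel₀ hn
  simp only [Nm, div_eq_mul_inv]
  generalize (3 * a + 1)⁻¹ = t at *
  ext i j
  fin_cases i <;> fin_cases j <;> simp [A0, Matrix.mul_apply, Fin.sum_univ_succ] <;>
    first
      | ring1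
      | linear_combination (a + 1) * u * h
      | linear_combination (a + 1) * h
      | linear_combination (3 * a + 1) * h

theorem cs_Nm {a : ℂ} (hn : 3 * a + 1 ≠ 0) (u W : ℂ) : cs u W ᵥ* Nm a u W = a • r1 u W := by
  rw [Nm_eq hn]
  funext j
  fin_cases j <;> simp [cs, r1, vecMul, dotProduct, Fin.sum_univ_succ] <;> ring

theorem cu_Nm {a : ℂ} (hn : 3 * a + 1 ≠ 0) (u W : ℂ) : cu W ᵥ* Nm a u W = a • r2 W := by
  rw [Nm_eq hn]
  funext j
  fin_cases j <;> simp [cu, r2, vecMul, dotProduct, Fin.sum_univ_succ] <;> ring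

theorem Nm_mulVec {a : ℂ} (hn : 3 * a + 1 ≠ 0) (u W : ℂ) (v : Fin 6 → ℂ) :
    Nm a u W *ᵥ v = (a * (r2 W ⬝ᵥ v)) • fn u +
      (a * (r1 u W ⬝ᵥ v)) • gn (-(a + 1) / (3 * a + 1)) := by
  rw [Nm_eq hn]
  funext j
  fin_cases j <;> simp [fn, gn, r1, r2, mulVec, dotProduct, Fin.sum_univ_succ] <;> ring

/-- the columns `G r*` lie in the image of the nilpotent part -/
theorem G_row {a : ℝ} (ha : a ≠ 0) (hn : 3 * (a : ℂ) + 1 ≠ 0) {u W : ℂ} {G : M6}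
    (hg : Nm a u W * G = G * (Nm a u W)ᴴ) {c r : Fin 6 → ℂ} (h : c ᵥ* Nm a u W = (a : ℂ) • r) :
    G *ᵥ star r = qf G (cu W) r • fn u + qf G (cs u W) r • gn (-(a + 1) / (3 * a + 1)) := by
  have ha' : (a : ℂ) ≠ 0 := ofReal_ne_zero.2 ha
  have h1 : (a : ℂ) • (G *ᵥ star r) = Nm a u W *ᵥ (G *ᵥ star c) := by
    rw [mulVec_mulVec, hg, ← mulVec_mulVec, ← star_vecMul, h, star_smul, mulVec_smul]
    simp
  obtain ⟨p, q, h2⟩ : ∃ p q : ℂ, G *ᵥ star r = p • fn u + q • gn (-(a + 1) / (3 * a + 1)) := by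
    refine ⟨r2 W ⬝ᵥ G *ᵥ star c, r1 u W ⬝ᵥ G *ᵥ star c, ?_⟩
    refine smul_right_injective _ ha' ?_
    simp only [h1, Nm_mulVec hn, smul_add, smul_smul]
  have h3 : qf G (cu W) r = p := by
    rw [qf, h2]
    simp [cu, fn, gn, dotProduct, Fin.sum_univ_succ]
  have h4 : qf G (cs u W) r = q := by
    rw [qf, h2]
    simp [cs, fn, gn, dotProduct, Fin.sum_univ_succ]
    ring
  rw [h3, h4, h2]

theorem norm_J_fn {J : M6} {K : ℝ} (hJ : Bd J K) {u : ℂ} (hu : ‖u‖ ≤ 2) (i : Fin 6) :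
    ‖(J *ᵥ fn u) i‖ ≤ 3 * K := by
  have h : (J *ᵥ fn u) i = J i 3 - J i 4 * u := by
    simp [fn, mulVec, dotProduct, Fin.sum_univ_succ]
    ring
  have h1 := norm_sub_le (J i 3) (J i 4 * u)
  have h2 : ‖J i 4‖ * ‖u‖ ≤ K * 2 :=
    mul_le_mul (hJ i 4) hu (norm_nonneg _) ((norm_nonneg _).trans (hJ i 4))
  have h3 := hJ i 3
  rw [norm_mul] at h1
  rw [h]
  linarith

theorem norm_J_gn {J : M6} {K : ℝ} (hJ : Bd J K) (h : ℂ) (i : Fin 6) :
    ‖(J *ᵥ gn h) i‖ ≤ K * (1 + ‖h‖) := by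
  have h0 : (J *ᵥ gn h) i = J i 4 + J i 5 * h := by
    simp [gn, mulVec, dotProduct, Fin.sum_univ_succ]
  have h1 := norm_add_le (J i 4) (J i 5 * h)
  have h2 : ‖J i 5‖ * ‖h‖ ≤ K * ‖h‖ := mul_le_mul_of_nonneg_right (hJ i 5) (norm_nonneg _)
  have h3 := hJ i 4
  rw [norm_mul] at h1
  rw [h0]
  linarith

theorem norm_ff_dot {u : ℂ} (hu : ‖u‖ ≤ 2) (v : Fin 6 → ℂ) {M : ℝ} (hv : ∀ i, ‖v i‖ ≤ M) :
    ‖star (ff u) ⬝ᵥ v‖ ≤ 24 * M := by
  have hM : 0 ≤ M := (norm_nonneg _).trans (hv 0)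
  have h1 : ∀ i, ‖ff u i‖ ≤ 4 := by
    intro i
    fin_cases i <;> simp [ff] <;> linarith
  refine (norm_sum_le _ _).trans ?_
  have h := Finset.sum_le_card_nsmul (Finset.univ : Finset (Fin 6))
    (fun i => ‖star (ff u) i * v i‖) (4 * M) fun i _ => by
      rw [norm_mul, Pi.star_apply, norm_star]
      exact mul_le_mul (h1 i) (hv i) (norm_nonneg _) (by norm_num)
  simp only [Finset.card_univ, Fintype.card_fin, nsmul_eq_mul, Nat.cast_ofNat] at h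
  linarith

theorem inv_le_of_one_le {x M T : ℝ} (hx : 0 ≤ x) (h : 1 ≤ x * M) (hT : M ≤ T) (h0 : 0 < T) :
    1 / T ≤ x := by
  rw [div_le_iff₀ h0]
  exact h.trans (mul_le_mul_of_nonneg_left hT hx)

theorem nonDeg : NonDeg := by
  intro a K c h1 h2 hc
  obtain ⟨h, hh⟩ : ∃ h : ℂ, h = -(a + 1) / (3 * a + 1) := ⟨_, rfl⟩
  obtain ⟨H, hH⟩ : ∃ H : ℝ, H = K * (1 + ‖h‖) := ⟨_, rfl⟩
  refine ⟨1 / (1 + |24 * H / c * (3 * K) + H| + |6 * K * H|), by positivity, ?_⟩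
  intro u W G J hu _ hL hJ
  have ha : a ≠ 0 := by linarith
  have hn : 3 * (a : ℂ) + 1 ≠ 0 := by
    have h3 : 3 * a + 1 ≠ 0 := by linarith
    exact_mod_cast h3
  have e1 := G_row ha hn hL.ng (cs_Nm hn u W)
  have e2 := G_row ha hn hL.ng (cu_Nm hn u W)
  rw [← hh] at e1 e2
  have f1 := congrArg (J *ᵥ ·) e1
  have f2 := congrArg (J *ᵥ ·) e2
  simp only [mulVec_mulVec, hL.jg, one_mulVec, mulVec_add, mulVec_smul] at f1 f2
  have bx := norm_J_fn hL.bj hu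
  have by' := norm_J_gn hL.bj h
  rw [← hH] at by'
  have bz := norm_ff_dot hu _ by'
  have hK : 0 ≤ K := (norm_nonneg _).trans (hL.bj 0 0)
  have hH0 : 0 ≤ H := (norm_nonneg _).trans (by' 0)
  generalize J *ᵥ fn u = X at *
  generalize J *ᵥ gn h = Y at *
  generalize qf G (cs u W) (r1 u W) = n1 at *
  generalize qf G (cs u W) (r2 W) = n2 at *
  generalize qf G (cu W) (r1 u W) = A1 at *
  generalize qf G (cu W) (r2 W) = A2 at *
  have g12 : A1 * X 2 + n1 * Y 2 = 1 := by simpa [r1] using (congrFun f1 2).symm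
  have g22 : A2 * X 2 + n2 * Y 2 = 0 := by simpa [r2] using (congrFun f2 2).symm
  have g21 : A2 * X 1 + n2 * Y 1 = 1 := by simpa [r2] using (congrFun f2 1).symm
  have g0 : A1 * (star (ff u) ⬝ᵥ X) + n1 * (star (ff u) ⬝ᵥ Y) = 0 := by
    have h3 := congrArg (star (ff u) ⬝ᵥ ·) f1
    simp only [dotProduct_add, dotProduct_smul, smul_eq_mul] at h3
    rw [← h3]
    simp [ff, r1, dotProduct, Fin.sum_univ_succ]
  have p1 := abs_nonneg (24 * H / c * (3 * K) + H)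
  have p2 := abs_nonneg (6 * K * H)
  constructor
  · refine inv_le_of_one_le (M := 24 * H / c * (3 * K) + H) (norm_nonneg _) ?_
      (by linarith [le_abs_self (24 * H / c * (3 * K) + H)]) (by positivity)
    have k1 : ‖A1‖ * c ≤ ‖n1‖ * (24 * H) := by
      have k2 : ‖A1‖ * ‖star (ff u) ⬝ᵥ X‖ = ‖n1‖ * ‖star (ff u) ⬝ᵥ Y‖ := by
        rw [← norm_mul, ← norm_mul, eq_neg_of_add_eq_zero_left g0, norm_neg]
      calc _ ≤ ‖A1‖ * ‖star (ff u) ⬝ᵥ X‖ := mul_le_mul_of_nonneg_left hJ (norm_nonneg _)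
        _ ≤ _ := k2.le.trans (mul_le_mul_of_nonneg_left bz (norm_nonneg _))
    have k3 : ‖A1‖ ≤ ‖n1‖ * (24 * H / c) := by
      rw [← mul_div_assoc, le_div_iff₀ hc]
      exact k1
    have k4 := norm_add_le (A1 * X 2) (n1 * Y 2)
    rw [g12, norm_one, norm_mul, norm_mul] at k4
    have k5 : ‖A1‖ * ‖X 2‖ ≤ ‖n1‖ * (24 * H / c) * (3 * K) :=
      mul_le_mul k3 (bx 2) (norm_nonneg _) (by positivity)
    have k6 : ‖n1‖ * ‖Y 2‖ ≤ ‖n1‖ * H := mul_le_mul_of_nonneg_left (by' 2) (norm_nonneg _)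
    linarith
  · refine inv_le_of_one_le (M := 6 * K * H) (norm_nonneg _) ?_
      (by linarith [le_abs_self (6 * K * H)]) (by positivity)
    have k1 : (n1 * A2 - n2 * A1) * (X 1 * Y 2 - X 2 * Y 1) = 1 := by
      linear_combination (A2 * X 1 + n2 * Y 1) * g12 + g21 - (A1 * X 1 + n1 * Y 1) * g22
    have k2 := congrArg norm k1
    rw [norm_mul, norm_one] at k2
    have k3 := norm_sub_le (X 1 * Y 2) (X 2 * Y 1)
    rw [norm_mul, norm_mul] at k3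
    have k4 : ‖X 1‖ * ‖Y 2‖ ≤ 3 * K * H :=
      mul_le_mul (bx 1) (by' 2) (norm_nonneg _) (by positivity)
    have k5 : ‖X 2‖ * ‖Y 1‖ ≤ 3 * K * H :=
      mul_le_mul (bx 2) (by' 1) (norm_nonneg _) (by positivity)
    rw [← k2]
    exact mul_le_mul_of_nonneg_left (by linarith) (norm_nonneg _)

end

end Pool.Agent.Lib.MP_0c623d_al.BP.Cu
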