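import Pool.Agent.Lib.MP_0c623d_al.E.MatD

set_option autoImplicit false

/-!
The radial system is close to its residue.
-/

namespace Pool.Agent.Lib.MP_0c623d_al.BP.Cu

open Complex Matrix Metric

/-- matrices with continuous entries are bounded on a polydisc -/
theorem bd_of_cont (F : ℂ → ℂ → ℂ → M6)
    (hF : ∀ i j, Continuous fun p : ℂ × ℂ × ℂ => F p.1 p.2.1 p.2.2 i j) (R : ℝ) :
    ∃ C : ℝ, 0 ≤ C ∧ ∀ s u W : ℂ, ‖s‖ ≤ R → ‖u‖ ≤ R → ‖W‖ ≤ R → Bd (F s u W) C := by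
  have h : Continuous fun p : ℂ × ℂ × ℂ => fun i j => F p.1 p.2.1 p.2.2 i j :=
    continuous_pi fun i => continuous_pi fun j => hF i j
  obtain ⟨C, hC⟩ := (isCompact_closedBall (0 : ℂ × ℂ × ℂ) R).exists_bound_of_continuousOn
    h.continuousOn
  refine ⟨max C 0, le_max_right _ _, fun s u W hs hu hW i j => ?_⟩
  have h1 := hC (s, u, W) (by simp [Prod.norm_def, hs, hu, hW])
  exact ((norm_le_pi_norm _ j).trans ((norm_le_pi_norm _ i).trans h1)).trans (le_max_left _ _)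

theorem cont_A0 (a : ℂ) (i j : Fin 6) :
    Continuous fun p : ℂ × ℂ × ℂ => A0 a p.2.1 p.2.2 i j := by
  fin_cases i <;> fin_cases j <;> simp [A0] <;> fun_prop

theorem cont_M1 (a : ℂ) (i j : Fin 6) :
    Continuous fun p : ℂ × ℂ × ℂ => M1 a p.1 p.2.1 p.2.2 i j := by
  fin_cases i <;> fin_cases j <;> simp [M1] <;> fun_prop

theorem cont_M2 (a : ℂ) (i j : Fin 6) :
    Continuous fun p : ℂ × ℂ × ℂ => M2 a p.1 p.2.1 p.2.2 i j := by
  fin_cases i <;> fin_cases j <;> simp [M2] <;> fun_prop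

theorem one_sub_ge {s : ℂ} (hs : ‖s‖ ≤ 1 / 2) : 1 / 2 ≤ ‖1 - s‖ := by
  have := norm_sub_norm_le (1 : ℂ) s
  rw [norm_one] at this
  linarith

theorem four_sub_ge {s z : ℂ} (hs : ‖s‖ ≤ 1 / 2) (hz : ‖z‖ ≤ 3 / 2) : 3 ≤ ‖4 - (s * z) ^ 2‖ := by
  have h := norm_sub_norm_le (4 : ℂ) ((s * z) ^ 2)
  have h1 : ‖s‖ * ‖z‖ ≤ 1 / 2 * (3 / 2) := mul_le_mul hs hz (norm_nonneg _) (by norm_num)
  have h2 : 0 ≤ ‖s‖ * ‖z‖ := by positivity
  rw [norm_pow, norm_mul, Complex.norm_ofNat] at h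
  nlinarith

theorem remSt : RemSt := by
  intro a
  obtain ⟨C0, h0, H0⟩ := bd_of_cont (fun _ u W => A0 a u W) (cont_A0 a) 2
  obtain ⟨C1, h1, H1⟩ := bd_of_cont (M1 a) (cont_M1 a) 2
  obtain ⟨C2, h2, H2⟩ := bd_of_cont (M2 a) (cont_M2 a) 2
  refine ⟨C0 + 2 * C1 + C2, fun s u W hs hu hW hz => ⟨fun i j => ?_, fun i j => ?_⟩⟩
  · have hs2 : ‖s‖ ≤ 2 := by linarith
    have e : (As a s u W - A0 a u W) i j = s / (1 - s) * M1 a s u W i j +
        s / (4 - (s * (u * W ^ 2)) ^ 2) * M2 a s u W i j := by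
      simp only [As, Matrix.sub_apply, Matrix.add_apply, Matrix.smul_apply, smul_eq_mul]
      ring
    have b1 : ‖s / (1 - s)‖ ≤ 2 * ‖s‖ := by
      rw [norm_div, div_le_iff₀ (by linarith [one_sub_ge hs])]
      nlinarith [one_sub_ge hs, norm_nonneg s]
    have b2 : ‖s / (4 - (s * (u * W ^ 2)) ^ 2)‖ ≤ ‖s‖ := by
      rw [norm_div]
      exact div_le_self (norm_nonneg _) (by linarith [four_sub_ge hs hz])
    rw [e]
    refine (norm_add_le _ _).trans ?_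
    rw [norm_mul, norm_mul]
    have c1 := mul_le_mul b1 (H1 s u W hs2 hu hW i j) (norm_nonneg _) (by positivity)
    have c2 := mul_le_mul b2 (H2 s u W hs2 hu hW i j) (norm_nonneg _) (norm_nonneg _)
    nlinarith [mul_nonneg h0 (norm_nonneg s)]
  · have := H0 0 u W (by simp) hu hW i j
    linarith

end Pool.Agent.Lib.MP_0c623d_al.BP.Cu
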