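import Mathlib
import Pool.Agent.Lib.MP_0c623d_al.E.MatD

set_option autoImplicit false

/-!
The mirror system and the rows of the period map in the sheared frame.
-/

namespace Pool.Agent.Lib.MP_0c623d_al.BP.Cu

open Complex Matrix

noncomputable section

theorem B_eq (a : ℂ) {s u W : ℂ} (hz : u * W ^ 2 ≠ 0) (h1 : u * W ^ 2 + 2 ≠ 0)
    (h2 : u * W ^ 2 - 2 ≠ 0) (h3 : s * (u * W ^ 2) + 2 ≠ 0) (h4 : s * (u * W ^ 2) - 2 ≠ 0) :
    (u • Bu a s u W + W • Bw a s u W) * diagonal (dg s u W) =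
      diagonal (fun i => -rd a i * dg s u W i) +
      diagonal (dg s u W) * Cm a s (u * W ^ 2) 0 (u * W ^ 2) := by
  have e0 : (0 * (u * W ^ 2) + u * W ^ 2) / (u * W ^ 2) = 1 := by
    rw [zero_mul, zero_add, div_self hz]
  have h6 : 4 - (s * (u * W ^ 2)) ^ 2 ≠ 0 := by
    intro h; apply mul_ne_zero h3 h4; linear_combination -h
  have h7 : 4 - (u * W ^ 2) ^ 2 ≠ 0 := by
    intro h; apply mul_ne_zero h1 h2; linear_combination -h
  obtain ⟨p, hp⟩ : ∃ p, p = (4 - (u * W ^ 2) ^ 2)⁻¹ := ⟨_, rfl⟩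
  obtain ⟨q, hq⟩ : ∃ q, q = (4 - (s * (u * W ^ 2)) ^ 2)⁻¹ := ⟨_, rfl⟩
  have hp1 : p * (4 - (u * W ^ 2) ^ 2) = 1 := by rw [hp]; exact inv_mul_cancel₀ h7
  have hq1 : q * (4 - (s * (u * W ^ 2)) ^ 2) = 1 := by rw [hq]; exact inv_mul_cancel₀ h6
  have e1 : (0 * (u * W ^ 2) + u * W ^ 2 + 2 * 0) / (u * W ^ 2 + 2) =
      u * W ^ 2 * (2 - u * W ^ 2) * p := by
    rw [div_eq_iff h1]; linear_combination (-(u * W ^ 2)) * hp1
  have e3 : (0 * (u * W ^ 2) + u * W ^ 2 - 2 * 0) / (u * W ^ 2 - 2) =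
      -(u * W ^ 2 * (2 + u * W ^ 2) * p) := by
    rw [div_eq_iff h2]; linear_combination (-(u * W ^ 2)) * hp1
  have e2 : s * (0 * (u * W ^ 2) + u * W ^ 2) / (s * (u * W ^ 2) + 2) =
      s * (u * W ^ 2) * (2 - s * (u * W ^ 2)) * q := by
    rw [div_eq_iff h3]; linear_combination (-(s * (u * W ^ 2))) * hq1
  have e4 : s * (0 * (u * W ^ 2) + u * W ^ 2) / (s * (u * W ^ 2) - 2) =
      -(s * (u * W ^ 2) * (2 + s * (u * W ^ 2)) * q) := by
    rw [div_eq_iff h4]; linear_combination (-(s * (u * W ^ 2))) * hq1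
  have e5 : 0 * s / (s - 1) = 0 := by rw [zero_mul, zero_div]
  rw [Bu, Bw, Cm, e0, e1, e2, e3, e4, e5, ← hp, ← hq]
  clear e0 e1 e2 e3 e4 e5 hp hq h1 h2 h3 h4 h6 h7 hz hp1 hq1
  ext i j
  simp only [Matrix.mul_diagonal, Matrix.diagonal_mul, Matrix.add_apply, Matrix.smul_apply,
    smul_eq_mul]
  fin_cases i <;> fin_cases j <;> simp [U0u, U2u, U2w, U3u, U3w, Rm, dg, rd] <;> ring1

theorem cw_eq (s u W : ℂ) : cw (ch s (u * W ^ 2)) = c0 u W ᵥ* Tm s u W := by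
  ext n
  rw [Tm, ← Matrix.vecMul_vecMul]
  simp only [Matrix.vecMul, dotProduct, Fin.sum_univ_six, Matrix.diagonal_apply]
  fin_cases n <;> simp [cw, ch, fst, snd, c0, dg, Qm] <;> ring

theorem Bm_eq (s u W x y : ℂ) : Bm (ch s (u * W ^ 2)) (tv s (u * W ^ 2) x (y * W ^ 2)) =
    (x • cs u W + y • cu W) ᵥ* Tm s u W := by
  ext n
  rw [Tm, ← Matrix.vecMul_vecMul]
  simp only [Matrix.vecMul, dotProduct, Fin.sum_univ_six, Matrix.diagonal_apply]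
  fin_cases n <;> simp [Bm, tv, ch, fst, snd, cs, cu, dg, Qm] <;> ring

end

end Pool.Agent.Lib.MP_0c623d_al.BP.Cu
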