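import Pool.Agent.Lib.MP_0c623d_al.E.MatD

set_option autoImplicit false

/-!
Roots and polar coordinates for the chart at a triple collision.
-/

namespace Pool.Agent.Lib.MP_0c623d_al.BP.Cu

open Complex

theorem root_bd {j : ℕ} {u : ℂ} (h : ‖u * (u ^ j) ^ 2‖ ≤ 3 / 2) : ‖u‖ ≤ 2 ∧ ‖u ^ j‖ ≤ 2 := by
  rw [norm_mul, norm_pow, norm_pow] at h
  rw [norm_pow]
  rcases le_total ‖u‖ 1 with h1 | h1
  · exact ⟨by linarith, (pow_le_one₀ (norm_nonneg _) h1).trans one_le_two⟩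
  · have h2 : 1 ≤ ‖u‖ ^ j := one_le_pow₀ h1
    constructor <;> nlinarith [mul_le_mul h2 h2 zero_le_one (zero_le_one.trans h2)]

theorem root_ex (j : ℕ) {z : ℂ} (hz : z ≠ 0) (hz' : ‖z‖ ≤ 3 / 2) :
    ∃ u : ℂ, u ≠ 0 ∧ z = u * (u ^ j) ^ 2 ∧ ‖u‖ ≤ 2 ∧ ‖u ^ j‖ ≤ 2 := by
  obtain ⟨u, hu⟩ := IsAlgClosed.exists_pow_nat_eq z (n := 2 * j + 1) (by omega)
  have h : z = u * (u ^ j) ^ 2 := by rw [← hu]; ring
  exact ⟨u, fun h0 => hz (by rw [h, h0, zero_mul]), h, root_bd (h ▸ hz')⟩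

theorem polar_ex {s : ℂ} (hs : s ≠ 0) :
    ∃ s0 : ℂ, ‖s0‖ = 1 ∧ s = s0 * exp (-(Real.log (1 / ‖s‖) : ℝ)) := by
  have h := norm_pos_iff.2 hs
  have h1 : (‖s‖ : ℂ) ≠ 0 := ofReal_ne_zero.2 h.ne'
  refine ⟨s / ‖s‖, by simp [hs], ?_⟩
  rw [← ofReal_neg, ← ofReal_exp, one_div, Real.log_inv, neg_neg, Real.exp_log h,
    div_mul_cancel₀ _ h1]

theorem norm_polar {s0 : ℂ} (h : ‖s0‖ = 1) (L : ℝ) : ‖s0 * exp (-L)‖ = Real.exp (-L) := by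
  rw [norm_mul, h, one_mul, ← ofReal_neg, norm_exp_ofReal]

theorem le_log_of_le {s : ℂ} (hs : s ≠ 0) {L : ℝ} (h : ‖s‖ ≤ Real.exp (-L)) :
    L ≤ Real.log (1 / ‖s‖) := by
  have := Real.log_le_log (norm_pos_iff.2 hs) h
  rw [Real.log_exp] at this
  rw [one_div, Real.log_inv]
  linarith

end Pool.Agent.Lib.MP_0c623d_al.BP.Cu
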