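import Pool.Agent.Lib.MP_0c623d_al.E.Mat
import Pool.Agent.Lib.MP_0c623d_al.E.Mat2
import Pool.Agent.Lib.MP_0c623d_al.E.Root
import Pool.Agent.Lib.MP_0c623d_al.E.Log
import Pool.Agent.Lib.MP_0c623d_al.BP.E0

set_option autoImplicit false

/-!
Uniform bounds for the sheared Gram matrix and its inverse on the circle `|s| = 1 / e`.
-/

namespace Pool.Agent.Lib.MP_0c623d_al.BP.Cu

open Complex Matrix Set

namespace Start

theorem der_iff {F : ℝ → M6} {F' : M6} {x : ℝ} :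
    HasDerivAt F F' x ↔ ∀ i j, HasDerivAt (fun x => F x i j) (F' i j) x :=
  hasDerivAt_pi.trans (forall_congr' fun _ => hasDerivAt_pi)

theorem der_mul {F G : ℝ → M6} {F' G' : M6} {x : ℝ} (h : HasDerivAt F F' x)
    (h' : HasDerivAt G G' x) : HasDerivAt (fun x => F x * G x) (F' * G x + F x * G') x :=
  der_iff.2 fun i j => by
    simp only [Matrix.mul_apply, Matrix.add_apply, ← Finset.sum_add_distrib]
    exact HasDerivAt.fun_sum fun l _ => (der_iff.1 h i l).mul (der_iff.1 h' l j)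

theorem der_ct {F : ℝ → M6} {F' : M6} {x : ℝ} (h : HasDerivAt F F' x) :
    HasDerivAt (fun x => (F x)ᴴ) F'ᴴ x := der_iff.2 fun i j => (der_iff.1 h j i).star

theorem ne_of_lt {w : ℂ} (h : ‖w‖ < 2) : w + 2 ≠ 0 ∧ w - 2 ≠ 0 ∧ 4 - w ^ 2 ≠ 0 := by
  have a : w + 2 ≠ 0 := fun e => by
    rw [eq_neg_of_add_eq_zero_left e] at h
    simp at h
  have b : w - 2 ≠ 0 := fun e => by
    rw [sub_eq_zero.1 e] at h
    simp at h
  exact ⟨a, b, fun e => mul_ne_zero a b (by linear_combination -e)⟩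

theorem sz_lt {s z : ℂ} (hs : ‖s‖ ≤ 1 / 2) (hz : ‖z‖ ≤ 3 / 2) : ‖s * z‖ < 2 := by
  rw [norm_mul]
  nlinarith [norm_nonneg s, norm_nonneg z]

theorem inv {e : ℝ} {Hk Hi : Cf → M6} (g : Gr e Hk Hi) {s u W : ℂ} (hs : s ≠ 0)
    (hs1 : ‖s‖ ≤ 1 / 2) (hu : u ≠ 0) (hW : W ≠ 0) (hz : ‖u * W ^ 2‖ ≤ 3 / 2) :
    Ht e Hk s u W * Hti e Hi s u W = 1 := by
  have hT : IsUnit (Tm s u W).det := by
    rw [Tm, det_mul, det_diagonal]
    refine (IsUnit.mk0 _ (Finset.prod_ne_zero_iff.2 fun i _ => ?_)).mul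
      (isUnit_det_of_right_inverse Qm_Qi)
    fin_cases i <;> simp [dg, hs, hu, hW]
  have h1 := (g.inv _ (lg_ch_inj hs hs1 (mul_ne_zero hu (pow_ne_zero 2 hW)) hz)).1
  have h2 : (Tm s u W)ᴴ * ((Tm s u W)⁻¹)ᴴ = 1 := by
    rw [← conjTranspose_mul, nonsing_inv_mul _ hT, conjTranspose_one]
  have h3 : ((‖s‖ ^ (1 - 6 * e) : ℝ) : ℂ) * (‖s‖ ^ (-1 + 6 * e) : ℝ) = 1 := by
    rw [← ofReal_mul, ← Real.rpow_add (norm_pos_iff.2 hs)]
    simp
  rw [Ht, Hti, smul_mul_smul_comm, h3, one_smul]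
  simp only [Matrix.mul_assoc]
  rw [← Matrix.mul_assoc (Tm s u W)ᴴ, h2, Matrix.one_mul, ← Matrix.mul_assoc (Hk _), h1,
    Matrix.one_mul, mul_nonsing_inv _ hT]

/-- the coefficient of the system along a ray towards the mirror -/
noncomputable def Am (j : ℕ) (a s u : ℂ) : M6 :=
  (-(2 * j + 1) : ℂ) • (u • Bu a s u (u ^ j) + u ^ j • Bw a s u (u ^ j))

open scoped Matrix.Norms.Elementwise in
theorem der {j : ℕ} {e : ℝ} (he : e = 1 / (4 * j + 2)) {Hk Hi : Cf → M6} (g : Gr e Hk Hi)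
    {s : ℂ} (hs : s ≠ 0) (hs1 : ‖s‖ ≤ 1 / 2) {u : ℝ → ℂ} {x : ℝ} (hd : HasDerivAt u (-u x) x)
    (hu : u x ≠ 0) (hz : ‖u x * (u x ^ j) ^ 2‖ ≤ 3 / 2) :
    HasDerivAt (fun x => Ht e Hk s (u x) (u x ^ j))
      (Am j (al e) s (u x) * Ht e Hk s (u x) (u x ^ j) +
        Ht e Hk s (u x) (u x ^ j) * (Am j (al e) s (u x))ᴴ) x := by
  have z0 : u x * (u x ^ j) ^ 2 ≠ 0 := mul_ne_zero hu (pow_ne_zero 2 (pow_ne_zero j hu))
  have hW : HasDerivAt (fun x => u x ^ j) (-j * u x ^ j) x := by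
    refine (hd.pow j).congr_deriv ?_
    rcases j with _ | j
    · simp
    · rw [Nat.add_sub_cancel, pow_succ]
      ring
  have dz : HasDerivAt (fun x => u x * (u x ^ j) ^ 2)
      (-(2 * j + 1) * (u x * (u x ^ j) ^ 2)) x := (hd.mul (hW.pow 2)).congr_deriv (by
    simp only [Pi.pow_apply]
    push_cast
    ring)
  have ha : (2 * j + 1 : ℂ) * al e = -j := by
    have : (2 * j + 1 : ℂ) ≠ 0 := by exact_mod_cast (by omega : 2 * j + 1 ≠ 0)
    have h4 : (4 * j + 2 : ℂ) = 2 * (2 * j + 1) := by ring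
    rw [al, he]
    push_cast
    rw [h4]
    field_simp
    ring
  have dT : HasDerivAt (fun x => Tm s (u x) (u x ^ j))
      (diagonal (fun i => (2 * j + 1) * rd (al e) i * dg s (u x) (u x ^ j) i) * Qm) x := by
    refine (der_mul (der_iff.2 fun i l => ?_) (hasDerivAt_const x Qm)).congr_deriv
      (by rw [Matrix.mul_zero, add_zero])
    by_cases h : i = l
    · subst h
      simp only [diagonal_apply_eq]
      fin_cases i
      · exact ((hd.const_mul (s ^ 2)).mul (hW.pow 3)).congr_deriv (by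
          simp [rd, dg]
          linear_combination (-(s ^ 2 * u x * (u x ^ j) ^ 3)) * ha)
      · exact ((hW.pow 2).const_mul (s ^ 2)).congr_deriv (by
          simp [rd, dg]
          linear_combination (-2 * (s ^ 2 * (u x ^ j) ^ 2)) * ha)
      · exact (hasDerivAt_const x (s ^ 2)).congr_deriv (by simp [rd])
      · exact ((hW.pow 2).const_mul s).congr_deriv (by
          simp [rd, dg]
          linear_combination (-2 * (s * (u x ^ j) ^ 2)) * ha)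
      · exact (hasDerivAt_const x s).congr_deriv (by simp [rd])
      · exact (hasDerivAt_const x (1 : ℂ)).congr_deriv (by simp [rd])
    · simp only [diagonal_apply_ne _ h]
      exact hasDerivAt_const x 0
  obtain ⟨D, hD, eD⟩ := g.der _ (lg_ch_inj hs hs1 z0 hz)
  have dc : HasDerivAt (fun x => ch s (u x * (u x ^ j) ^ 2))
      (tv s (u x * (u x ^ j) ^ 2) 0 (-(2 * j + 1) * (u x * (u x ^ j) ^ 2))) x := by
    refine hasDerivAt_pi.2 fun i => ?_
    fin_cases i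
    · exact ((dz.const_mul s).div_const 2).neg.congr_deriv (by simp [tv])
    · exact ((dz.const_mul s).div_const 2).congr_deriv (by simp [tv])
    · exact (hasDerivAt_const x s).congr_deriv (by simp [tv])
    · exact hasDerivAt_const x (1 : ℂ)
  have dH := (hD.comp_hasDerivAt x dc).congr_deriv (eD _)
  have n1 := ne_of_lt (w := u x * (u x ^ j) ^ 2) (by linarith)
  have n2 := ne_of_lt (sz_lt hs1 hz)
  have q := Q_conn e hs z0 n1.1 n1.2.1 n2.1 n2.2.1 (fun h => by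
    rw [sub_eq_zero.1 h] at hs1
    norm_num at hs1) 0 (-(2 * j + 1) * (u x * (u x ^ j) ^ 2))
  have b := B_eq (al e) z0 n1.1 n1.2.1 n2.1 n2.2.1
  have c : Cm (al e) s (u x * (u x ^ j) ^ 2) 0 (-(2 * j + 1) * (u x * (u x ^ j) ^ 2)) =
      (-(2 * j + 1) : ℂ) • Cm (al e) s (u x * (u x ^ j) ^ 2) 0 (u x * (u x ^ j) ^ 2) := by
    simp only [Cm]
    match_scalars <;> ring
  have key : Am j (al e) s (u x) * Tm s (u x) (u x ^ j) =
      diagonal (fun i => (2 * j + 1) * rd (al e) i * dg s (u x) (u x ^ j) i) * Qm +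
        Tm s (u x) (u x ^ j) * conn e (ch s (u x * (u x ^ j) ^ 2))
          (tv s (u x * (u x ^ j) ^ 2) 0 (-(2 * j + 1) * (u x * (u x ^ j) ^ 2))) := by
    rw [Am, Tm, Matrix.mul_assoc, q, c, ← Matrix.mul_assoc, ← Matrix.mul_assoc, Matrix.smul_mul, b,
      ← Matrix.add_mul, smul_add, Matrix.mul_smul, ← diagonal_smul]
    congr 3
    funext i
    simp only [Pi.smul_apply, smul_eq_mul]
    ring
  refine (((der_mul (der_mul dT dH) (der_ct dT))).const_smul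
    ((‖s‖ ^ (1 - 6 * e) : ℝ) : ℂ)).congr_deriv ?_
  rw [Ht, Matrix.mul_smul, Matrix.smul_mul, ← smul_add, ← Matrix.mul_assoc, ← Matrix.mul_assoc, key,
    Matrix.mul_assoc _ _ (Am j _ _ _)ᴴ, ← conjTranspose_mul, key]
  simp only [Function.comp_apply, conjTranspose_add, conjTranspose_mul, Matrix.mul_add,
    Matrix.add_mul, Matrix.mul_assoc]
  congr 1
  abel

theorem cont_B (a : ℂ) : ContinuousOn (fun p : ℂ × ℂ × ℂ =>
    (Bu a p.1 p.2.1 p.2.2, Bw a p.1 p.2.1 p.2.2))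
    {p | ‖p.1‖ ≤ 1 / 2 ∧ ‖p.2.1 * p.2.2 ^ 2‖ ≤ 3 / 2} := by
  have c1 : ContinuousOn (fun p : ℂ × ℂ × ℂ => (4 - (p.2.1 * p.2.2 ^ 2) ^ 2)⁻¹)
      {p | ‖p.1‖ ≤ 1 / 2 ∧ ‖p.2.1 * p.2.2 ^ 2‖ ≤ 3 / 2} :=
    ContinuousOn.inv₀ (by fun_prop) fun p hp => (ne_of_lt (by linarith [hp.2])).2.2
  have c2 : ContinuousOn (fun p : ℂ × ℂ × ℂ => (4 - (p.1 * (p.2.1 * p.2.2 ^ 2)) ^ 2)⁻¹)
      {p | ‖p.1‖ ≤ 1 / 2 ∧ ‖p.2.1 * p.2.2 ^ 2‖ ≤ 3 / 2} :=
    ContinuousOn.inv₀ (by fun_prop) fun p hp => (ne_of_lt (sz_lt hp.1 hp.2)).2.2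
  have m : ∀ U : ℂ → ℂ → ℂ → ℂ → M6, U = U0u ∨ U = U2u ∨ U = U3u ∨ U = U2w ∨ U = U3w →
      Continuous fun p : ℂ × ℂ × ℂ => U a p.1 p.2.1 p.2.2 := by
    rintro U (rfl | rfl | rfl | rfl | rfl) <;> refine continuous_matrix fun i l => ?_ <;>
      fin_cases i <;> fin_cases l <;> simp [U0u, U2u, U3u, U2w, U3w] <;> fun_prop
  exact (((m _ (by simp)).continuousOn.add (c1.smul (m _ (by simp)).continuousOn)).add
    (c2.smul (m _ (by simp)).continuousOn)).prodMk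
    ((c1.smul (m _ (by simp)).continuousOn).add (c2.smul (m _ (by simp)).continuousOn))

theorem norm_z (j : ℕ) (u : ℂ) : ‖u * (u ^ j) ^ 2‖ = ‖u‖ ^ (2 * j + 1) := by
  rw [← norm_pow]
  congr 1
  ring

theorem cont_H {j : ℕ} {e : ℝ} {Hk Hi : Cf → M6} (g : Gr e Hk Hi) {K : Set (ℂ × ℂ)}
    (hK : ∀ p ∈ K, p.1 ≠ 0 ∧ ‖p.1‖ ≤ 1 / 2 ∧ p.2 ≠ 0 ∧ ‖p.2 * (p.2 ^ j) ^ 2‖ ≤ 3 / 2) :
    ContinuousOn (fun p : ℂ × ℂ =>
      (Ht e Hk p.1 p.2 (p.2 ^ j), Hti e Hi p.1 p.2 (p.2 ^ j))) K := by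
  have cT : Continuous fun p : K => Tm p.1.1 p.1.2 (p.1.2 ^ j) := by
    refine (Continuous.matrix_diagonal (continuous_pi fun i => ?_)).matrix_mul continuous_const
    fin_cases i <;> simp [dg] <;> fun_prop
  have cc : Continuous fun p : K => ch p.1.1 (p.1.2 * (p.1.2 ^ j) ^ 2) := by
    refine continuous_pi fun i => ?_
    fin_cases i <;> simp [ch] <;> fun_prop
  have cH : Continuous fun p : K => Hk (ch p.1.1 (p.1.2 * (p.1.2 ^ j) ^ 2)) :=
    continuous_iff_continuousAt.2 fun p => by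
      obtain ⟨a, b, c, d⟩ := hK _ p.2
      obtain ⟨D, hD, -⟩ := g.der _ (lg_ch_inj a b
        (mul_ne_zero c (pow_ne_zero 2 (pow_ne_zero j c))) d)
      exact ContinuousAt.comp (f := fun p : K => ch p.1.1 (p.1.2 * (p.1.2 ^ j) ^ 2))
        hD.continuousAt cc.continuousAt
  have c1 : Continuous fun p : K => Ht e Hk p.1.1 p.1.2 (p.1.2 ^ j) :=
    (continuous_ofReal.comp (Continuous.rpow_const (by fun_prop) fun p =>
      Or.inl (norm_ne_zero_iff.2 (hK _ p.2).1))).smul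
      ((cT.matrix_mul cH).matrix_mul cT.matrix_conjTranspose)
  have i : ∀ p : K, Ht e Hk p.1.1 p.1.2 (p.1.2 ^ j) * Hti e Hi p.1.1 p.1.2 (p.1.2 ^ j) = 1 :=
    fun p => let ⟨a, b, c, d⟩ := hK _ p.2; inv g a b c (pow_ne_zero j c) d
  refine continuousOn_iff_continuous_restrict.2 (c1.prodMk ?_)
  refine ((c1.matrix_det.inv₀ fun p => (isUnit_det_of_right_inverse (i p)).ne_zero).smul
    c1.matrix_adjugate).congr fun p => ?_
  rw [← inv_eq_right_inv (i p), Matrix.inv_def, Ring.inverse_eq_inv']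
  rfl

end Start

open Start in
open scoped Matrix.Norms.L2Operator in
theorem startSt : StartSt := by
  intro j e hj he Hk Hi g
  obtain ⟨c, c0, hc⟩ : ∃ c : ℝ, 0 ≤ c ∧ ∀ (X : M6) (i l : Fin 6), ‖X i l‖ ≤ c * ‖X‖ := by
    let L : M6 →L[ℂ] (Fin 6 → Fin 6 → ℂ) :=
      LinearMap.toContinuousLinearMap (Matrix.ofLinearEquiv ℂ).symm.toLinearMap
    exact ⟨‖L‖, norm_nonneg _, fun X i l =>
      ((norm_le_pi_norm (L X i) l).trans (norm_le_pi_norm (L X) i)).trans (L.le_opNorm X)⟩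
  obtain ⟨R, R0, hR⟩ : ∃ R : ℝ, 0 < R ∧ R ^ (2 * j + 1) = 3 / 2 :=
    ⟨(3 / 2) ^ ((2 * j + 1 : ℕ) : ℝ)⁻¹, by positivity,
      Real.rpow_inv_natCast_pow (by norm_num) (by omega)⟩
  have e1 : Real.exp (-1) ≤ 1 / 2 := by
    rw [Real.exp_neg, one_div]
    exact inv_anti₀ two_pos (by linarith [Real.add_one_le_exp 1])
  have hs : ∀ s : ℂ, ‖s‖ = Real.exp (-1) → s ≠ 0 ∧ ‖s‖ ≤ 1 / 2 := fun s h =>
    ⟨norm_pos_iff.1 (h ▸ Real.exp_pos _), h ▸ e1⟩
  obtain ⟨B, hB⟩ := (((isCompact_closedBall (0 : ℂ) (1 / 2)).prod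
    ((isCompact_closedBall (0 : ℂ) 2).prod (isCompact_closedBall (0 : ℂ) 2))).inter_right
    (isClosed_le (f := fun p : ℂ × ℂ × ℂ => ‖p.2.1 * p.2.2 ^ 2‖) (g := fun _ => 3 / 2)
      (by fun_prop) continuous_const)).exists_bound_of_continuousOn
    ((cont_B (al e)).mono fun p hp => ⟨mem_closedBall_zero_iff.1 hp.1.1, hp.2⟩)
  obtain ⟨C, hC⟩ := ((isCompact_sphere (0 : ℂ) (Real.exp (-1))).prod
    (isCompact_sphere (0 : ℂ) R)).exists_bound_of_continuousOn (cont_H (j := j) g fun p hp => by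
      have a := hs _ (mem_sphere_zero_iff_norm.1 hp.1)
      have b := mem_sphere_zero_iff_norm.1 hp.2
      exact ⟨a.1, a.2, norm_pos_iff.1 (b ▸ R0), by rw [norm_z, b, hR]⟩)
  obtain ⟨K, hK⟩ := Pool.Agent.BP.Lev.G0 (A := M6) ((2 * j + 1) * ((R + R ^ j) * B))
  refine ⟨c * (|K| * C), fun s u h1 hu hz => ?_⟩
  obtain ⟨s0, s1⟩ := hs s h1
  have u0 := norm_pos_iff.2 hu
  have uR : ‖u‖ ≤ R := le_of_pow_le_pow_left₀ (n := 2 * j + 1) (by omega) R0.le
    (by rwa [← norm_z, hR])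
  obtain ⟨x, x0, hx⟩ : ∃ x : ℝ, 0 ≤ x ∧ ‖u‖ * Real.exp x = R :=
    ⟨Real.log (R / ‖u‖), Real.log_nonneg ((one_le_div u0).2 uR), by
      rw [Real.exp_log (div_pos R0 u0), mul_div_cancel₀ _ u0.ne']⟩
  let v : ℝ → ℂ := fun y => u * (Real.exp (x - y) : ℝ)
  have nv : ∀ y, ‖v y‖ = R * Real.exp (-y) := fun y => by
    rw [norm_mul, norm_real, Real.norm_of_nonneg (Real.exp_pos _).le, sub_eq_add_neg, Real.exp_add,
      ← mul_assoc, hx]
  have v0 : ∀ y, v y ≠ 0 := fun y => norm_pos_iff.1 (by rw [nv]; positivity)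
  have ey : ∀ y, 0 ≤ y → Real.exp (-y) ≤ 1 := fun y hy => Real.exp_le_one_iff.2 (by linarith)
  have vz : ∀ y, 0 ≤ y → ‖v y * (v y ^ j) ^ 2‖ ≤ 3 / 2 := fun y hy => by
    rw [norm_z, nv, ← hR]
    exact pow_le_pow_left₀ (by positivity) (mul_le_of_le_one_right R0.le (ey y hy)) _
  have dv : ∀ y, HasDerivAt v (-v y) y := fun y =>
    ((((hasDerivAt_id y).const_sub x).exp.ofReal_comp).const_mul u).congr_deriv (by simp [v])
  have h := hK (fun y => Ht e Hk s (v y) (v y ^ j)) (fun y => Hti e Hi s (v y) (v y ^ j))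
    (fun y => Am j (al e) s (v y)) (fun y hy => der he g s0 s1 (dv y) (v0 y) (vz y hy))
    (fun y hy => ?_) (fun y hy => ⟨inv g s0 s1 (v0 y) (pow_ne_zero j (v0 y)) (vz y hy),
      mul_eq_one_comm.1 (inv g s0 s1 (v0 y) (pow_ne_zero j (v0 y)) (vz y hy))⟩) x x0
  · have b := hC (s, v 0) ⟨mem_sphere_zero_iff_norm.2 h1, mem_sphere_zero_iff_norm.2 (by
      simp [nv])⟩
    have ex : v x = u := by simp [v]
    simp only [ex] at h
    exact ⟨fun i l => (hc _ i l).trans (mul_le_mul_of_nonneg_left (h.1.trans (mul_le_mul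
      (le_abs_self K) ((norm_fst_le _).trans b) (norm_nonneg _) (abs_nonneg K))) c0),
      fun i l => (hc _ i l).trans (mul_le_mul_of_nonneg_left (h.2.trans (mul_le_mul
      (le_abs_self K) ((norm_snd_le _).trans b) (norm_nonneg _) (abs_nonneg K))) c0)⟩
  · have r := root_bd (vz y hy)
    have b := hB (s, v y, v y ^ j) ⟨⟨mem_closedBall_zero_iff.2 s1, mem_closedBall_zero_iff.2 r.1,
      mem_closedBall_zero_iff.2 r.2⟩, vz y hy⟩
    have w : ‖v y ^ j‖ ≤ R ^ j * Real.exp (-y) := by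
      rw [norm_pow, nv, mul_pow]
      exact mul_le_mul_of_nonneg_left (pow_le_of_le_one (Real.exp_pos _).le (ey y hy) (by omega))
        (by positivity)
    have n : ‖(-(2 * j + 1) : ℂ)‖ = 2 * j + 1 := by
      rw [norm_neg]
      exact_mod_cast Complex.norm_natCast (2 * j + 1)
    rw [Am, norm_smul, n, mul_assoc]
    refine mul_le_mul_of_nonneg_left ((norm_add_le _ _).trans ?_) (by positivity)
    rw [norm_smul, norm_smul]
    refine (add_le_add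
      (mul_le_mul (nv y).le ((norm_fst_le _).trans b) (norm_nonneg _) (by positivity))
      (mul_le_mul w ((norm_snd_le _).trans b) (norm_nonneg _) (by positivity))).trans
      (le_of_eq (by ring))

end Pool.Agent.Lib.MP_0c623d_al.BP.Cu
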