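import Mathlib
import Pool.Agent.Lib.MP_0c623d_al.E.MatD

set_option autoImplicit false

/-!
The radial system in the sheared frame.
-/

namespace Pool.Agent.Lib.MP_0c623d_al.BP.Cu

open Complex Matrix

noncomputable section

theorem As_eq (a : ℂ) {s u W : ℂ} (hz : u * W ^ 2 ≠ 0) (h1 : u * W ^ 2 + 2 ≠ 0)
    (h2 : u * W ^ 2 - 2 ≠ 0) (h3 : s * (u * W ^ 2) + 2 ≠ 0) (h4 : s * (u * W ^ 2) - 2 ≠ 0)
    (h5 : s - 1 ≠ 0) :
    As a s u W * diagonal (dg s u W) = diagonal (fun i => (kk i - (3 * a + 1)) * dg s u W i) +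
      diagonal (dg s u W) * Cm a s (u * W ^ 2) 1 0 := by
  have e0 : (1 * (u * W ^ 2) + 0) / (u * W ^ 2) = 1 := by rw [one_mul, add_zero, div_self hz]
  have e1 : (1 * (u * W ^ 2) + 0 + 2 * 1) / (u * W ^ 2 + 2) = 1 := by
    rw [div_eq_one_iff_eq h1]; ring
  have e3 : (1 * (u * W ^ 2) + 0 - 2 * 1) / (u * W ^ 2 - 2) = 1 := by
    rw [div_eq_one_iff_eq h2]; ring
  have h6 : 4 - (s * (u * W ^ 2)) ^ 2 ≠ 0 := by
    intro h; apply mul_ne_zero h3 h4; linear_combination -h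
  have h7 : 1 - s ≠ 0 := by intro h; apply h5; linear_combination -h
  obtain ⟨p, hp⟩ : ∃ p, p = (1 - s)⁻¹ := ⟨_, rfl⟩
  obtain ⟨q, hq⟩ : ∃ q, q = (4 - (s * (u * W ^ 2)) ^ 2)⁻¹ := ⟨_, rfl⟩
  have hp1 : p * (1 - s) = 1 := by rw [hp]; exact inv_mul_cancel₀ h7
  have hq1 : q * (4 - (s * (u * W ^ 2)) ^ 2) = 1 := by rw [hq]; exact inv_mul_cancel₀ h6
  have e2 : s * (1 * (u * W ^ 2) + 0) / (s * (u * W ^ 2) + 2) =
      s * (u * W ^ 2) * (2 - s * (u * W ^ 2)) * q := by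
    rw [div_eq_iff h3]; linear_combination (-(s * (u * W ^ 2))) * hq1
  have e4 : s * (1 * (u * W ^ 2) + 0) / (s * (u * W ^ 2) - 2) =
      -(s * (u * W ^ 2) * (2 + s * (u * W ^ 2)) * q) := by
    rw [div_eq_iff h4]; linear_combination (-(s * (u * W ^ 2))) * hq1
  have e5 : 1 * s / (s - 1) = -(s * p) := by
    rw [div_eq_iff h5]; linear_combination (-s) * hp1
  have e6 : s / (1 - s) = s * p := by rw [hp, div_eq_mul_inv]
  have e7 : s / (4 - (s * (u * W ^ 2)) ^ 2) = s * q := by rw [hq, div_eq_mul_inv]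
  rw [As, Cm, e0, e1, e2, e3, e4, e5, e6, e7]
  clear e0 e1 e2 e3 e4 e5 e6 e7 hp hq h1 h2 h3 h4 h5 h6 h7 hz
  ext i j
  simp only [Matrix.mul_diagonal, Matrix.diagonal_mul, Matrix.add_apply, Matrix.smul_apply,
    smul_eq_mul]
  fin_cases i <;> fin_cases j <;> simp [A0, M1, M2, Rm, dg, kk] <;>
    first | ring1 | grind

end

end Pool.Agent.Lib.MP_0c623d_al.BP.Cu
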