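import Pool.Agent.Lib.MP_0c623d_al.E.Mat
import Pool.Agent.Lib.MP_0c623d_al.E.Mat1
import Pool.Agent.Lib.MP_0c623d_al.E.Log

set_option autoImplicit false

/-!
The radial system of the sheared Gram matrix.
-/

namespace Pool.Agent.Lib.MP_0c623d_al.BP.Cu

open Complex Matrix
open scoped Matrix.Norms.Operator

namespace Sy

/-- the conjugate transpose as a real continuous linear map -/
noncomputable def ct : M6 →L[ℝ] M6 :=
  LinearMap.toContinuousLinearMap
    { toFun := fun X => Xᴴ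
      map_add' := conjTranspose_add
      map_smul' := fun c X => by ext i j; simp [conjTranspose_apply] }

/-- change of frame in a two-sided system -/
lemma gauge {T H : ℂ → M6} {T' C A : M6} {t : ℂ} {D : ℂ →L[ℝ] M6} (hT : HasDerivAt T T' t)
    (hH : HasFDerivAt H D t) (hD : ∀ τ : ℂ, D τ = (τ • C) * H t + H t * (τ • C)ᴴ)
    (hA : A * T t = T' + T t * C) :
    ∃ D' : ℂ →L[ℝ] M6, HasFDerivAt (fun t => T t * H t * (T t)ᴴ) D' t ∧
      ∀ τ : ℂ, D' τ = (τ • A) * (T t * H t * (T t)ᴴ) + (T t * H t * (T t)ᴴ) * (τ • A)ᴴ := by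
  have d := hT.hasFDerivAt.restrictScalars ℝ
  refine ⟨_, (d.mul' hH).mul' (ct.hasFDerivAt.comp t d), fun τ => ?_⟩
  change (T t * H t) * (τ • T')ᴴ + (T t * D τ + (τ • T') * H t) * (T t)ᴴ = _
  have e1 : (τ • A) * (T t * H t * (T t)ᴴ) = (τ • T' + T t * (τ • C)) * H t * (T t)ᴴ := by
    rw [← mul_assoc, ← mul_assoc, smul_mul_assoc, hA, smul_add, mul_smul_comm]
  have e2 : (T t * H t * (T t)ᴴ) * (τ • A)ᴴ = T t * H t * (τ • T' + T t * (τ • C))ᴴ := by
    rw [mul_assoc, ← conjTranspose_mul, smul_mul_assoc, hA, smul_add, mul_smul_comm]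
  rw [e1, e2, hD, conjTranspose_add, conjTranspose_mul]
  noncomm_ring

lemma conn_smul (e : ℝ) (a v : Cf) (τ : ℂ) : conn e a (τ • v) = τ • conn e a v := by
  simp only [conn, Finset.smul_sum, smul_smul, Pi.smul_apply, smul_eq_mul, ← mul_sub,
    mul_div_assoc]

lemma der_ch (s0 z t : ℂ) :
    HasDerivAt (fun t => ch (s0 * exp t) z) (tv (s0 * exp t) z 1 0) t := by
  have h : HasDerivAt (fun t => s0 * exp t) (s0 * exp t) t := (hasDerivAt_exp t).const_mul s0
  refine hasDerivAt_pi.2 fun i => ?_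
  fin_cases i
  · exact ((h.mul_const z).div_const 2).neg.congr_deriv (by simp [tv])
  · exact ((h.mul_const z).div_const 2).congr_deriv (by simp [tv])
  · exact h.congr_deriv (by simp [tv])
  · exact (hasDerivAt_const t (1 : ℂ)).congr_deriv (by simp [tv])

lemma der_dg (s0 u W t : ℂ) (i : Fin 6) :
    HasDerivAt (fun t => dg (s0 * exp t) u W i) (kk i * dg (s0 * exp t) u W i) t := by
  have h : HasDerivAt (fun t => s0 * exp t) (s0 * exp t) t := (hasDerivAt_exp t).const_mul s0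
  fin_cases i
  · exact (((h.pow 2).mul_const u).mul_const (W ^ 3)).congr_deriv (by simp [kk, dg]; ring)
  · exact ((h.pow 2).mul_const (W ^ 2)).congr_deriv (by simp [kk, dg]; ring)
  · exact (h.pow 2).congr_deriv (by simp [kk, dg]; ring)
  · exact (h.mul_const (W ^ 2)).congr_deriv (by simp [kk, dg])
  · exact h.congr_deriv (by simp [kk, dg])
  · exact (hasDerivAt_const t (1 : ℂ)).congr_deriv (by simp [kk, dg])

lemma der_diag (s0 u W t : ℂ) :
    HasDerivAt (fun t => (diagonal (dg (s0 * exp t) u W) : M6))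
      (diagonal fun i => kk i * dg (s0 * exp t) u W i) t := by
  refine hasDerivAt_pi.2 fun i => hasDerivAt_pi.2 fun j => ?_
  by_cases h : i = j
  · subst h
    simp only [diagonal_apply_eq]
    exact der_dg s0 u W t i
  · simp only [diagonal_apply_ne _ h]
    exact hasDerivAt_const t (0 : ℂ)

lemma dg_ne {s u W : ℂ} (hs : s ≠ 0) (hu : u ≠ 0) (hW : W ≠ 0) (i : Fin 6) : dg s u W i ≠ 0 := by
  fin_cases i <;> simp [dg, hs, hu, hW]

lemma scal (e : ℝ) {s0 : ℂ} (h0 : ‖s0‖ = 1) (t : ℂ) :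
    ((‖s0 * exp t‖ ^ (1 - 6 * e) : ℝ) : ℂ) =
      exp (-(3 * al e + 1) * t) * star (exp (-(3 * al e + 1) * t)) := by
  have h1 : -(3 * al e + 1) = ((1 / 2 - 3 * e : ℝ) : ℂ) := by
    simp only [al]; push_cast; ring
  rw [star_def, mul_conj, normSq_eq_norm_sq, norm_mul, h0, one_mul, norm_exp, norm_exp, h1,
    re_ofReal_mul, ← Real.exp_mul, sq, ← Real.exp_add]
  congr 2
  ring

lemma ne_of_norm {w c : ℂ} (h : ‖w‖ < ‖c‖) : w + c ≠ 0 ∧ w - c ≠ 0 := by
  constructor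
  · intro h1
    rw [eq_neg_of_add_eq_zero_left h1, norm_neg] at h
    exact lt_irrefl _ h
  · intro h1
    rw [sub_eq_zero.1 h1] at h
    exact lt_irrefl _ h

end Sy

open Sy

theorem Tm_unit (hQ : Qm * Qi = 1) {s u W : ℂ} (hs : s ≠ 0) (hu : u ≠ 0) (hW : W ≠ 0) :
    IsUnit (Tm s u W).det := by
  rw [Tm, det_mul, det_diagonal]
  exact (Finset.prod_ne_zero_iff.2 fun i _ => dg_ne hs hu hW i).isUnit.mul
    (isUnit_det_of_right_inverse hQ)

theorem Ht_inv (hQ : Qm * Qi = 1) {e : ℝ} {Hk Hi : Cf → M6} (g : Gr e Hk Hi) {s u W : ℂ}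
    (hs : s ≠ 0) (hu : u ≠ 0) (hW : W ≠ 0) (hi : Function.Injective (ch s (u * W ^ 2))) :
    Ht e Hk s u W * Hti e Hi s u W = 1 ∧ Hti e Hi s u W * Ht e Hk s u W = 1 ∧
      (Ht e Hk s u W)ᴴ = Ht e Hk s u W := by
  have hT := Tm_unit hQ hs hu hW
  have h1 : Ht e Hk s u W * Hti e Hi s u W = 1 := by
    have s0 : 0 < ‖s‖ := norm_pos_iff.2 hs
    rw [Ht, Hti, smul_mul_smul_comm, ← ofReal_mul, ← Real.rpow_add s0,
      show 1 - 6 * e + (-1 + 6 * e) = 0 by ring, Real.rpow_zero, ofReal_one, one_smul]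
    calc _ = Tm s u W * (Hk (ch s (u * W ^ 2)) * ((Tm s u W)⁻¹ * Tm s u W)ᴴ *
          Hi (ch s (u * W ^ 2))) * (Tm s u W)⁻¹ := by
          rw [conjTranspose_mul]; simp only [mul_assoc]
      _ = 1 := by
          rw [nonsing_inv_mul _ hT, conjTranspose_one, mul_one, (g.inv _ hi).1, mul_one,
            mul_nonsing_inv _ hT]
  refine ⟨h1, mul_eq_one_comm.1 h1, ?_⟩
  rw [Ht, conjTranspose_smul, conjTranspose_mul, conjTranspose_mul, conjTranspose_conjTranspose,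
    g.herm _ hi, star_def, conj_ofReal, mul_assoc]

theorem sys_of (hQ : Qm * Qi = 1)
    (hC : ∀ (e : ℝ) (s z : ℂ), s ≠ 0 → z ≠ 0 → z + 2 ≠ 0 → z - 2 ≠ 0 → s * z + 2 ≠ 0 →
      s * z - 2 ≠ 0 → s - 1 ≠ 0 →
      Qm * conn e (ch s z) (tv s z 1 0) = Cm (al e) s z 1 0 * Qm)
    (hA : ∀ a s u W : ℂ, s ≠ 0 → u * W ^ 2 ≠ 0 → u * W ^ 2 + 2 ≠ 0 → u * W ^ 2 - 2 ≠ 0 →
      s * (u * W ^ 2) + 2 ≠ 0 → s * (u * W ^ 2) - 2 ≠ 0 → s - 1 ≠ 0 →
      As a s u W * diagonal (dg s u W) = diagonal (fun i => (kk i - (3 * a + 1)) * dg s u W i) +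
        diagonal (dg s u W) * Cm a s (u * W ^ 2) 1 0) : SysSt := by
  intro e Hk Hi g s0 u W h0 hu hW hz t ht
  have hn : ‖s0 * exp t‖ ≤ 1 / 2 := by
    rw [norm_mul, h0, one_mul, norm_exp]
    have h1 := Real.exp_le_exp.2 ht
    have h2 := Real.exp_neg_one_lt_d9
    linarith
  have hs : s0 * exp t ≠ 0 :=
    mul_ne_zero (norm_pos_iff.1 (by rw [h0]; exact one_pos)) (exp_ne_zero t)
  have hz0 : u * W ^ 2 ≠ 0 := mul_ne_zero hu (pow_ne_zero 2 hW)
  have hi := lg_ch_inj hs hn hz0 hz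
  refine ⟨?_, Ht_inv hQ g hs hu hW hi⟩
  have n1 := ne_of_norm (w := u * W ^ 2) (c := 2) (by rw [Complex.norm_two]; linarith)
  have n2 := ne_of_norm (w := s0 * exp t * (u * W ^ 2)) (c := 2) (by
    rw [Complex.norm_two, norm_mul]
    have := mul_le_mul hn hz (norm_nonneg _) (by norm_num)
    linarith)
  have n3 := (ne_of_norm (w := s0 * exp t) (c := 1) (by rw [norm_one]; linarith)).2
  obtain ⟨D, hD, hv⟩ := g.der _ hi
  have dH := hD.comp t ((der_ch s0 (u * W ^ 2) t).hasFDerivAt.restrictScalars ℝ)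
  have dc : HasDerivAt (fun t => exp (-(3 * al e + 1) * t))
      (exp (-(3 * al e + 1) * t) * -(3 * al e + 1)) t := by
    have h := ((hasDerivAt_id t).const_mul (-(3 * al e + 1))).cexp
    rw [mul_one] at h
    exact h
  have dT := dc.smul ((der_diag s0 u W t).mul_const Qm)
  obtain ⟨D', h1, h2⟩ := gauge (C := conn e (ch (s0 * exp t) (u * W ^ 2))
    (tv (s0 * exp t) (u * W ^ 2) 1 0)) (A := As (al e) (s0 * exp t) u W) dT dH
    (fun τ => by
      change D (τ • tv (s0 * exp t) (u * W ^ 2) 1 0) = _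
      rw [hv, conn_smul]
      rfl)
    (by
      change As (al e) (s0 * exp t) u W *
        (exp (-(3 * al e + 1) * t) • (diagonal (dg (s0 * exp t) u W) * Qm)) = _ +
        (exp (-(3 * al e + 1) * t) • (diagonal (dg (s0 * exp t) u W) * Qm)) * _
      rw [mul_smul_comm, ← mul_assoc, hA _ _ _ _ hs hz0 n1.1 n1.2 n2.1 n2.2 n3, smul_mul_assoc,
        mul_assoc, hC _ _ _ hs hz0 n1.1 n1.2 n2.1 n2.2 n3, add_mul, smul_add, mul_assoc]
      congr 1
      rw [mul_smul, ← smul_add, ← smul_mul_assoc (-(3 * al e + 1)), ← add_mul, ← diagonal_smul,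
        diagonal_add]
      congr 3
      funext i
      simp only [Pi.smul_apply, smul_eq_mul]
      ring)
  have key : ∀ t : ℂ, Ht e Hk (s0 * exp t) u W =
      (exp (-(3 * al e + 1) * t) • (diagonal (dg (s0 * exp t) u W) * Qm)) *
        Hk (ch (s0 * exp t) (u * W ^ 2)) *
        (exp (-(3 * al e + 1) * t) • (diagonal (dg (s0 * exp t) u W) * Qm))ᴴ := by
    intro t
    rw [Ht, scal e h0, conjTranspose_smul, smul_mul_assoc, smul_mul_smul_comm, Tm]
  simp only [key]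
  exact ⟨D', h1, h2⟩

theorem sysSt : SysSt :=
  sys_of Qm_Qi (fun e _ _ hs hz h1 h2 h3 h4 h5 => Q_conn e hs hz h1 h2 h3 h4 h5 1 0)
    fun a _ _ _ _ hz h1 h2 h3 h4 h5 => As_eq a hz h1 h2 h3 h4 h5

end Pool.Agent.Lib.MP_0c623d_al.BP.Cu
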