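import Mathlib
import Pool.Agent.Lib.MP_0c623d_al.E.Defs2
import Pool.Agent.Lib.MP_0c623d_al.F.Defs

set_option autoImplicit false

/-!
The proper functions at the triple collisions: invariance, smoothness, properness, derivative in
the chart, and the normal form of a configuration near a triple collision.
-/

namespace Pool.Agent.Lib.MP_0c623d_al.BP

open Complex Matrix
open Pool.Agent.BP.F (NoTriple)

noncomputable section

theorem Sz_eq (a : Cf) : Sz a = (∑ i, ∑ j, ‖a i - a j‖ ^ 2) / 2 := by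
  simp only [Sz, Fin.sum_univ_succ, Fin.sum_univ_zero, fst, snd]
  simp [norm_sub_rev (a 1) (a 0), norm_sub_rev (a 2) (a 0), norm_sub_rev (a 3) (a 0),
    norm_sub_rev (a 2) (a 1), norm_sub_rev (a 3) (a 1), norm_sub_rev (a 3) (a 2)]
  ring

theorem Sl_eq (l : Fin 4) (a : Cf) :
    Sl l a = (∑ i, ∑ j, if i = l ∨ j = l then 0 else ‖a i - a j‖ ^ 2) / 2 := by
  simp only [Sl, Fin.sum_univ_succ, Fin.sum_univ_zero, fst, snd]
  fin_cases l <;>
  · simp [norm_sub_rev (a 1) (a 0), norm_sub_rev (a 2) (a 0), norm_sub_rev (a 3) (a 0),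
      norm_sub_rev (a 2) (a 1), norm_sub_rev (a 3) (a 1), norm_sub_rev (a 3) (a 2)]
    ring

theorem Sz_perm (a : Cf) (π : Equiv.Perm (Fin 4)) : Sz (a ∘ π) = Sz a := by
  rw [Sz_eq, Sz_eq, ← Equiv.sum_comp π fun i => ∑ j, ‖a i - a j‖ ^ 2]
  congr 1
  refine Finset.sum_congr rfl fun i _ => ?_
  exact Equiv.sum_comp π fun j => ‖a (π i) - a j‖ ^ 2

theorem Sl_perm (l : Fin 4) (a : Cf) (π : Equiv.Perm (Fin 4)) : Sl l (a ∘ π) = Sl (π l) a := by
  rw [Sl_eq, Sl_eq,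
    ← Equiv.sum_comp π fun i => ∑ j, if i = π l ∨ j = π l then 0 else ‖a i - a j‖ ^ 2]
  congr 1
  refine Finset.sum_congr rfl fun i _ => ?_
  rw [← Equiv.sum_comp π fun j => if π i = π l ∨ j = π l then 0 else ‖a (π i) - a j‖ ^ 2]
  simp only [Equiv.apply_eq_iff_eq, Function.comp]

theorem Sz_aff (a : Cf) (c d : ℂ) : Sz (fun i => c * a i + d) = ‖c‖ ^ 2 * Sz a := by
  simp only [Sz, Finset.mul_sum]
  refine Finset.sum_congr rfl fun n _ => ?_
  rw [← mul_pow, ← norm_mul]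
  congr 2
  ring

theorem Sl_aff (l : Fin 4) (a : Cf) (c d : ℂ) :
    Sl l (fun i => c * a i + d) = ‖c‖ ^ 2 * Sl l a := by
  simp only [Sl, Finset.mul_sum]
  refine Finset.sum_congr rfl fun n _ => ?_
  split_ifs
  · simp
  · rw [← mul_pow, ← norm_mul]
    congr 2
    ring

theorem Sl_nonneg (l : Fin 4) (a : Cf) : 0 ≤ Sl l a :=
  Finset.sum_nonneg fun n _ => by split_ifs <;> positivity

theorem Sz_nonneg (a : Cf) : 0 ≤ Sz a := Finset.sum_nonneg fun n _ => by positivity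

theorem Sl_le_Sz (l : Fin 4) (a : Cf) : Sl l a ≤ Sz a :=
  Finset.sum_le_sum fun n _ => by split_ifs <;> [positivity; exact le_rfl]

theorem sq_le_Sz (a : Cf) (i j : Fin 4) : ‖a i - a j‖ ^ 2 ≤ Sz a := by
  by_cases h : i = j
  · simpa [h] using Sz_nonneg a
  have hn : ∀ i j : Fin 4, i ≠ j → (fst (ix i j) = i ∧ snd (ix i j) = j) ∨
      (fst (ix i j) = j ∧ snd (ix i j) = i) := by decide
  have h1 : ‖a (fst (ix i j)) - a (snd (ix i j))‖ ^ 2 ≤ Sz a :=
    Finset.single_le_sum (f := fun n => ‖a (fst n) - a (snd n)‖ ^ 2)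
      (fun n _ => by positivity) (Finset.mem_univ _)
  rcases hn i j h with ⟨h2, h3⟩ | ⟨h2, h3⟩
  · rwa [h2, h3] at h1
  · rwa [h2, h3, norm_sub_rev] at h1

theorem sq_le_Sl (l : Fin 4) (a : Cf) (i j : Fin 4) (hi : i ≠ l) (hj : j ≠ l) :
    ‖a i - a j‖ ^ 2 ≤ Sl l a := by
  by_cases h : i = j
  · simpa [h] using Sl_nonneg l a
  have hn : ∀ i j : Fin 4, i ≠ j → (fst (ix i j) = i ∧ snd (ix i j) = j) ∨
      (fst (ix i j) = j ∧ snd (ix i j) = i) := by decide
  have h1 : (if fst (ix i j) = l ∨ snd (ix i j) = l then 0 else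
      ‖a (fst (ix i j)) - a (snd (ix i j))‖ ^ 2) ≤ Sl l a :=
    Finset.single_le_sum
      (f := fun n => if fst n = l ∨ snd n = l then 0 else ‖a (fst n) - a (snd n)‖ ^ 2)
      (fun n _ => by split_ifs <;> positivity) (Finset.mem_univ _)
  rcases hn i j h with ⟨h2, h3⟩ | ⟨h2, h3⟩
  · rwa [h2, h3, if_neg (by tauto)] at h1
  · rwa [h2, h3, if_neg (by tauto), norm_sub_rev] at h1

theorem Sl_le (l : Fin 4) (a : Cf) (r : ℝ) (h : ∀ i j, i ≠ l → j ≠ l → ‖a i - a j‖ ≤ r) :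
    Sl l a ≤ 6 * r ^ 2 := by
  have h1 : Sl l a ≤ (Finset.univ : Finset (Fin 6)).card • r ^ 2 := by
    refine Finset.sum_le_card_nsmul _ _ _ fun n _ => ?_
    split_ifs with h2
    · positivity
    · rw [not_or] at h2
      exact pow_le_pow_left₀ (norm_nonneg _) (h _ _ h2.1 h2.2) 2
  simpa using h1

theorem noTriple_of_inj {a : Cf} (h : Function.Injective a) : NoTriple a :=
  fun _ _ _ hij _ _ h1 => hij (h h1.1)

theorem Sl_pos (l : Fin 4) {b : Cf} (h : NoTriple b) : 0 < Sl l b := by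
  have hn : ∀ l : Fin 4, ∃ i j k : Fin 4, i ≠ j ∧ j ≠ k ∧ i ≠ k ∧ i ≠ l ∧ j ≠ l ∧ k ≠ l := by
    decide
  obtain ⟨i, j, k, h1, h2, h3, h4, h5, h6⟩ := hn l
  by_cases h7 : b i = b j
  · have h8 : b j - b k ≠ 0 := fun h8 => h i j k h1 h2 h3 ⟨h7, sub_eq_zero.1 h8⟩
    exact lt_of_lt_of_le (by positivity) (sq_le_Sl l b j k h5 h6)
  · have h8 : b i - b j ≠ 0 := sub_ne_zero.2 h7
    exact lt_of_lt_of_le (by positivity) (sq_le_Sl l b i j h4 h5)

theorem Sz_pos {b : Cf} (h : NoTriple b) : 0 < Sz b := (Sl_pos 0 h).trans_le (Sl_le_Sz 0 b)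

theorem log_ratio_nonneg (l : Fin 4) {b : Cf} (h : NoTriple b) :
    0 ≤ Real.log (Sz b / Sl l b) :=
  Real.log_nonneg ((one_le_div (Sl_pos l h)).2 (Sl_le_Sz l b))

theorem contDiff_pair (i j : Fin 4) : ContDiff ℝ 1 fun a : Cf => ‖a i - a j‖ ^ 2 :=
  ContDiff.norm_sq ℝ ((contDiff_apply ℝ ℂ i).sub (contDiff_apply ℝ ℂ j))

theorem contDiff_Sz : ContDiff ℝ 1 Sz := ContDiff.sum fun _ _ => contDiff_pair _ _

theorem contDiff_Sl (l : Fin 4) : ContDiff ℝ 1 (Sl l) := by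
  refine ContDiff.sum fun n _ => ?_
  split_ifs
  · exact contDiff_const
  · exact contDiff_pair _ _

theorem tau_c1 : ∀ l b, NoTriple b → ContDiffAt ℝ 1 (tau l) b := by
  intro l b h
  have h1 := Sl_pos l h
  have h2 := Sz_pos h
  have h3 := log_ratio_nonneg l h
  refine ContDiffAt.log (contDiffAt_const.add (ContDiffAt.log
    (contDiff_Sz.contDiffAt.div (contDiff_Sl l).contDiffAt h1.ne') (by positivity))) ?_
  positivity

theorem tau_perm : ∀ l b (π : Equiv.Perm (Fin 4)), tau l (b ∘ π) = tau (π l) b := by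
  intro l b π
  simp only [tau, Sz_perm, Sl_perm]

theorem tau_aff (l : Fin 4) (b : Cf) (c d : ℂ) (hc : c ≠ 0) :
    tau l (fun i => c * b i + d) = tau l b := by
  have h : ‖c‖ ^ 2 ≠ 0 := by positivity
  simp only [tau, Sz_aff, Sl_aff, mul_div_mul_left _ _ h]

theorem tau_add : ∀ l (b : Cf) (c : ℂ), tau l (fun i => b i + c) = tau l b := by
  intro l b c
  simpa using tau_aff l b 1 c one_ne_zero

theorem tau_smul (l : Fin 4) (b : Cf) (c : ℂ) (hc : c ≠ 0) : tau l (c • b) = tau l b := by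
  have h : c • b = fun i => c * b i + 0 := by
    funext i
    simp
  rw [h, tau_aff l b c 0 hc]

theorem Sz_le_of_tau {l : Fin 4} {b : Cf} (h : NoTriple b) {R : ℝ} (hR : tau l b ≤ R) :
    Sz b ≤ Real.exp (Real.exp R) * Sl l b := by
  have h1 := Sl_pos l h
  have h2 := Sz_pos h
  have h3 := log_ratio_nonneg l h
  have h4 : 1 + Real.log (Sz b / Sl l b) ≤ Real.exp R :=
    (Real.log_le_iff_le_exp (by positivity)).1 hR
  have h5 : Sz b / Sl l b ≤ Real.exp (Real.exp R) :=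
    (Real.log_le_iff_le_exp (by positivity)).1 (by linarith)
  exact (div_le_iff₀ h1).1 h5

theorem Sl_le_of_tau {l : Fin 4} {b : Cf} (h : NoTriple b) {R : ℝ} (hR : R ≤ tau l b) :
    Sl l b ≤ Real.exp (1 - Real.exp R) * Sz b := by
  have h1 := Sl_pos l h
  have h2 := Sz_pos h
  have h3 := log_ratio_nonneg l h
  have h4 : Real.exp R ≤ 1 + Real.log (Sz b / Sl l b) :=
    (Real.le_log_iff_exp_le (by positivity)).1 hR
  have h5 : Real.exp (Real.exp R - 1) ≤ Sz b / Sl l b :=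
    (Real.le_log_iff_exp_le (by positivity)).1 (by linarith)
  rw [le_div_iff₀ h1] at h5
  have h6 : Real.exp (1 - Real.exp R) * Real.exp (Real.exp R - 1) = 1 := by
    rw [← Real.exp_add]
    simp
  calc Sl l b = Real.exp (1 - Real.exp R) * (Real.exp (Real.exp R - 1) * Sl l b) := by
        rw [← mul_assoc, h6, one_mul]
    _ ≤ _ := mul_le_mul_of_nonneg_left h5 (Real.exp_pos _).le

theorem tau_prop : ∀ R : ℝ, ∃ η : ℝ, 0 < η ∧ ∀ b, NoTriple b → (∀ l, tau l b ≤ R) →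
    ∀ i j l : Fin 4, i ≠ j → j ≠ l → i ≠ l → ∀ i' j' : Fin 4,
      η * ‖b i' - b j'‖ ≤ ‖b i - b j‖ + ‖b j - b l‖ := by
  intro R
  have hK : 1 ≤ Real.exp (Real.exp R) := Real.one_le_exp (Real.exp_pos R).le
  refine ⟨1 / (6 * Real.exp (Real.exp R)), by positivity, ?_⟩
  intro b hb hR i j l hij hjl hil i' j'
  have hn : ∀ i j l : Fin 4, i ≠ j → j ≠ l → i ≠ l →
      ∃ l0 : Fin 4, ∀ u, u ≠ l0 → u = i ∨ u = j ∨ u = l := by decide
  obtain ⟨l0, h0⟩ := hn i j l hij hjl hil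
  have h1 := Sz_le_of_tau hb (hR l0)
  have x0 := norm_nonneg (b i - b j)
  have y0 := norm_nonneg (b j - b l)
  have t1 : ‖b i - b l‖ ≤ ‖b i - b j‖ + ‖b j - b l‖ := norm_sub_le_norm_sub_add_norm_sub _ _ _
  have h2 : Sl l0 b ≤ 6 * (‖b i - b j‖ + ‖b j - b l‖) ^ 2 := by
    refine Sl_le l0 b _ fun u v hu hv => ?_
    have e1 := norm_sub_rev (b j) (b i)
    have e2 := norm_sub_rev (b l) (b j)
    have e3 := norm_sub_rev (b l) (b i)
    rcases h0 u hu with rfl | rfl | rfl <;> rcases h0 v hv with rfl | rfl | rfl <;>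
      first
        | linarith
        | (rw [sub_self, norm_zero]; linarith)
  have h3 := sq_le_Sz b i' j'
  generalize Real.exp (Real.exp R) = K at *
  generalize ‖b i - b j‖ + ‖b j - b l‖ = m at *
  have m0 : 0 ≤ m := le_trans (norm_nonneg _) t1
  have h4 : ‖b i' - b j'‖ ^ 2 ≤ (6 * K * m) ^ 2 := by
    have h5 : K * Sl l0 b ≤ K * (6 * m ^ 2) := mul_le_mul_of_nonneg_left h2 (by linarith)
    have h6 : 1 * (K * (6 * m ^ 2)) ≤ (6 * K) * (K * (6 * m ^ 2)) :=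
      mul_le_mul_of_nonneg_right (by linarith) (by positivity)
    calc _ ≤ (6 * K) * (K * (6 * m ^ 2)) := by linarith
      _ = _ := by ring
  have h7 : ‖b i' - b j'‖ ≤ 6 * K * m :=
    (pow_le_pow_iff_left₀ (norm_nonneg _) (by positivity) two_ne_zero).1 h4
  rw [one_div, inv_mul_le_iff₀ (by positivity)]
  exact h7

end

end Pool.Agent.Lib.MP_0c623d_al.BP
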