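import Mathlib
import Pool.Agent.Lib.MP_0c623d_al.E.Tau

set_option autoImplicit false

/-!
The derivative of the proper function in the chart, and the normal form of a configuration near a
triple collision.
-/

namespace Pool.Agent.Lib.MP_0c623d_al.BP

open Complex Matrix
open Pool.Agent.BP.F (NoTriple)

noncomputable section

/-- the derivative of one square distance -/
def dpair (i j : Fin 4) (a v : Cf) : ℝ := 2 * inner ℝ (a i - a j) (v i - v j)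

/-- the derivative of `Sz` -/
def dSz (a v : Cf) : ℝ := ∑ n, dpair (fst n) (snd n) a v

/-- the derivative of `Sl` -/
def dSl (l : Fin 4) (a v : Cf) : ℝ :=
  ∑ n, if fst n = l ∨ snd n = l then 0 else dpair (fst n) (snd n) a v

theorem hasDerivAt_pair (i j : Fin 4) (a v : Cf) :
    HasDerivAt (fun t : ℝ => ‖(a + t • v) i - (a + t • v) j‖ ^ 2) (dpair i j a v) 0 := by
  have h1 : HasDerivAt (fun t : ℝ => (a i - a j) + t • (v i - v j)) (v i - v j) 0 := by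
    simpa using ((hasDerivAt_id (0 : ℝ)).smul_const (v i - v j)).const_add (a i - a j)
  have h2 := h1.norm_sq
  have h3 : (fun t : ℝ => ‖(a + t • v) i - (a + t • v) j‖ ^ 2) =
      fun t : ℝ => ‖(a i - a j) + t • (v i - v j)‖ ^ 2 := by
    funext t
    congr 2
    simp only [Pi.add_apply, Pi.smul_apply, smul_sub]
    ring
  rw [h3]
  simpa [dpair] using h2

theorem hasDerivAt_Sz (a v : Cf) : HasDerivAt (fun t : ℝ => Sz (a + t • v)) (dSz a v) 0 :=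
  HasDerivAt.fun_sum fun _ _ => hasDerivAt_pair _ _ a v

theorem hasDerivAt_Sl (l : Fin 4) (a v : Cf) :
    HasDerivAt (fun t : ℝ => Sl l (a + t • v)) (dSl l a v) 0 := by
  refine HasDerivAt.fun_sum fun n _ => ?_
  split_ifs
  · exact hasDerivAt_const _ _
  · exact hasDerivAt_pair _ _ a v

theorem fderiv_tau (l : Fin 4) {a : Cf} (h : NoTriple a) (v : Cf) :
    fderiv ℝ (tau l) a v =
      (dSz a v / Sz a - dSl l a v / Sl l a) / (1 + Real.log (Sz a / Sl l a)) := by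
  have h1 := Sl_pos l h
  have h2 := Sz_pos h
  have h3 := log_ratio_nonneg l h
  have hd : DifferentiableAt ℝ (tau l) a := (tau_c1 l a h).differentiableAt one_ne_zero
  rw [← hd.lineDeriv_eq_fderiv]
  refine HasLineDerivAt.lineDeriv ?_
  have e0 : a + (0 : ℝ) • v = a := by simp
  have d1 := (hasDerivAt_Sz a v).div (hasDerivAt_Sl l a v) (by rw [e0]; exact h1.ne')
  have d2 := d1.log (by simp only [Pi.div_apply, e0]; positivity)
  have d3 := (d2.const_add 1).log (by simp only [Pi.div_apply, e0]; positivity)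
  simp only [Pi.div_apply, e0] at d3
  refine d3.congr_deriv ?_
  congr 1
  field_simp

theorem dpair_aff (i j : Fin 4) (a w : Cf) (p q : ℂ) :
    dpair i j a (fun k => p * a k + q + w k) = 2 * p.re * ‖a i - a j‖ ^ 2 + dpair i j a w := by
  have h : p * a i + q + w i - (p * a j + q + w j) = p * (a i - a j) + (w i - w j) := by ring
  simp only [dpair, h, inner_add_right]
  generalize a i - a j = d
  have h2 : inner ℝ d (p * d) = p.re * ‖d‖ ^ 2 := by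
    rw [Complex.inner, Complex.sq_norm, normSq_apply]
    simp
    ring
  rw [h2]
  ring

theorem dSz_aff (a w : Cf) (p q : ℂ) :
    dSz a (fun k => p * a k + q + w k) = 2 * p.re * Sz a + dSz a w := by
  simp only [dSz, dpair_aff, Finset.sum_add_distrib, Sz, Finset.mul_sum]

theorem dSl_aff (l : Fin 4) (a w : Cf) (p q : ℂ) :
    dSl l a (fun k => p * a k + q + w k) = 2 * p.re * Sl l a + dSl l a w := by
  simp only [dSl, Sl, Finset.mul_sum, ← Finset.sum_add_distrib]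
  refine Finset.sum_congr rfl fun n _ => ?_
  split_ifs
  · simp
  · exact dpair_aff _ _ _ _ _ _

theorem fderiv_tau_aff (l : Fin 4) {a : Cf} (h : NoTriple a) (w : Cf) (p q : ℂ) :
    fderiv ℝ (tau l) a (fun k => p * a k + q + w k) = fderiv ℝ (tau l) a w := by
  have h1 := Sl_pos l h
  have h2 := Sz_pos h
  rw [fderiv_tau l h, fderiv_tau l h, dSz_aff, dSl_aff]
  congr 1
  field_simp
  ring

theorem abs_dpair_le (i j : Fin 4) (a v : Cf) {r m : ℝ} (h1 : ‖a i - a j‖ ≤ r)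
    (h2 : ‖v i - v j‖ ≤ m) : |dpair i j a v| ≤ 2 * (r * m) := by
  rw [dpair, abs_mul, abs_two]
  refine mul_le_mul_of_nonneg_left ((abs_real_inner_le_norm _ _).trans ?_) two_pos.le
  exact mul_le_mul h1 h2 (norm_nonneg _) ((norm_nonneg _).trans h1)

theorem abs_dSz_le (a v : Cf) {r m : ℝ} (h1 : ∀ i j, ‖a i - a j‖ ≤ r)
    (h2 : ∀ i j, ‖v i - v j‖ ≤ m) : |dSz a v| ≤ 12 * (r * m) := by
  refine (Finset.abs_sum_le_sum_abs _ _).trans ?_
  have h := Finset.sum_le_card_nsmul (Finset.univ : Finset (Fin 6))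
    (fun n => |dpair (fst n) (snd n) a v|) (2 * (r * m))
    fun n _ => abs_dpair_le _ _ a v (h1 _ _) (h2 _ _)
  simp only [Finset.card_univ, Fintype.card_fin, nsmul_eq_mul, Nat.cast_ofNat] at h
  linarith

theorem abs_dSl_le (l : Fin 4) (a v : Cf) {r m : ℝ} (hr : 0 ≤ r)
    (h1 : ∀ i j, i ≠ l → j ≠ l → ‖a i - a j‖ ≤ r)
    (h2 : ∀ i j, ‖v i - v j‖ ≤ m) : |dSl l a v| ≤ 12 * (r * m) := by
  have hm : 0 ≤ m := (norm_nonneg _).trans (h2 0 0)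
  refine (Finset.abs_sum_le_sum_abs _ _).trans ?_
  have h := Finset.sum_le_card_nsmul (Finset.univ : Finset (Fin 6))
    (fun n => |if fst n = l ∨ snd n = l then 0 else dpair (fst n) (snd n) a v|) (2 * (r * m))
    fun n _ => by
      split_ifs with h3
      · rw [abs_zero]
        positivity
      · rw [not_or] at h3
        exact abs_dpair_le _ _ a v (h1 _ _ h3.1 h3.2) (h2 _ _)
  simp only [Finset.card_univ, Fintype.card_fin, nsmul_eq_mul, Nat.cast_ofNat] at h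
  linarith

theorem norm_ch_le {s z : ℂ} (hz : ‖z‖ ≤ 3 / 2) (i : Fin 4) (hi : i ≠ 3) : ‖ch s z i‖ ≤ ‖s‖ := by
  have h : ‖s‖ * ‖z‖ ≤ ‖s‖ * (3 / 2) := mul_le_mul_of_nonneg_left hz (norm_nonneg _)
  have h0 := norm_nonneg s
  fin_cases i
  · simp [ch]
    linarith
  · simp [ch]
    linarith
  · simp [ch]
  · exact absurd rfl hi

theorem norm_tv_le {s z : ℂ} (hz : ‖z‖ ≤ 3 / 2) (x y : ℂ) (i : Fin 4) :
    ‖tv s z x y i‖ ≤ ‖s‖ * (‖x‖ + ‖y‖) := by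
  have h0 := norm_nonneg s
  have hx := norm_nonneg x
  have hy := norm_nonneg y
  have h1 : ‖x * z + y‖ ≤ 2 * (‖x‖ + ‖y‖) := by
    have h2 : ‖x‖ * ‖z‖ ≤ ‖x‖ * (3 / 2) := mul_le_mul_of_nonneg_left hz hx
    have h3 := norm_add_le (x * z) y
    rw [norm_mul] at h3
    linarith
  have h4 := mul_le_mul_of_nonneg_left h1 h0
  have h5 := mul_nonneg h0 hy
  fin_cases i
  · simp [tv]
    linarith
  · simp [tv]
    linarith
  · simp [tv]
    linarith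
  · simp [tv]
    positivity

theorem Sl_ch_lower {s z : ℂ} (hz : ‖z‖ ≤ 3 / 2) : ‖s‖ ^ 2 / 16 ≤ Sl 3 (ch s z) := by
  have h1 := sq_le_Sl 3 (ch s z) 2 1 (by decide) (by decide)
  have h2 : ‖s‖ / 4 ≤ ‖ch s z 2 - ch s z 1‖ := by
    have h3 := norm_sub_norm_le (ch s z 2) (ch s z 1)
    have h : ‖s‖ * ‖z‖ ≤ ‖s‖ * (3 / 2) := mul_le_mul_of_nonneg_left hz (norm_nonneg _)
    have h4 : ‖ch s z 2‖ = ‖s‖ := by simp [ch]
    have h5 : ‖ch s z 1‖ = ‖s‖ * ‖z‖ / 2 := by simp [ch]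
    linarith
  have h6 := pow_le_pow_left₀ (by positivity) h2 2
  calc ‖s‖ ^ 2 / 16 = (‖s‖ / 4) ^ 2 := by ring
    _ ≤ _ := h6.trans h1

theorem Sl_ch_upper {s z : ℂ} (hz : ‖z‖ ≤ 3 / 2) : Sl 3 (ch s z) ≤ 24 * ‖s‖ ^ 2 := by
  have h := Sl_le 3 (ch s z) (2 * ‖s‖) fun i j hi hj => by
    have h1 := norm_sub_le (ch s z i) (ch s z j)
    have h2 := norm_ch_le (s := s) hz i hi
    have h3 := norm_ch_le (s := s) hz j hj
    linarith
  calc _ ≤ _ := h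
    _ = _ := by ring

theorem Sz_ch_lower {s : ℂ} (z : ℂ) (hs : ‖s‖ ≤ 1 / 2) : 1 / 4 ≤ Sz (ch s z) := by
  have h1 := sq_le_Sz (ch s z) 3 2
  have h2 : 1 / 2 ≤ ‖ch s z 3 - ch s z 2‖ := by
    have h3 := norm_sub_norm_le (ch s z 3) (ch s z 2)
    have h4 : ‖ch s z 2‖ = ‖s‖ := by simp [ch]
    have h5 : ‖ch s z 3‖ = 1 := by simp [ch]
    linarith
  have h6 := pow_le_pow_left₀ (by positivity) h2 2
  linarith

theorem noTriple_ch {s z : ℂ} (h0 : s ≠ 0) (hs : ‖s‖ ≤ 1 / 2) (hz : ‖z‖ ≤ 3 / 2) :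
    NoTriple (ch s z) := by
  have hp : 0 < ‖s‖ := norm_pos_iff.2 h0
  have h3 : ∀ i : Fin 4, i ≠ 3 → ch s z i ≠ ch s z 3 := by
    intro i hi h
    have h1 := norm_ch_le (s := s) hz i hi
    have h5 : ‖ch s z 3‖ = 1 := by simp [ch]
    rw [h] at h1
    linarith
  have h2 : ∀ i : Fin 4, i ≠ 2 → ch s z i ≠ ch s z 2 := by
    intro i hi h
    have h4 : ‖ch s z 2‖ = ‖s‖ := by simp [ch]
    have h6 : ‖s‖ * ‖z‖ ≤ ‖s‖ * (3 / 2) := mul_le_mul_of_nonneg_left hz (norm_nonneg _)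
    have h7 := congrArg norm h
    fin_cases i
    · simp [ch] at h7
      linarith
    · simp [ch] at h7
      linarith
    · exact hi rfl
    · exact h3 2 (by decide) h.symm
  intro i j l hij hjl hil ⟨e1, e2⟩
  have hn : ∀ i j l : Fin 4, i ≠ j → j ≠ l → i ≠ l → i = 2 ∨ i = 3 ∨ j = 2 ∨ j = 3 ∨ l = 2 ∨
      l = 3 := by decide
  rcases hn i j l hij hjl hil with rfl | rfl | rfl | rfl | rfl | rfl
  · exact h2 j hij.symm e1.symm
  · exact h3 j hij.symm e1.symm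
  · exact h2 i hij e1
  · exact h3 i hij e1
  · exact h2 j hjl e2
  · exact h3 j hjl e2

theorem log_le_ratio {s z : ℂ} (h0 : s ≠ 0) (hs : ‖s‖ ≤ 1 / 96) (hz : ‖z‖ ≤ 3 / 2) :
    Real.log (1 / ‖s‖) ≤ Real.log (Sz (ch s z) / Sl 3 (ch s z)) := by
  have hp : 0 < ‖s‖ := norm_pos_iff.2 h0
  have h1 := Sl_pos 3 (noTriple_ch h0 (by linarith) hz)
  have h2 := Sl_ch_upper (s := s) hz
  have h3 := Sz_ch_lower z (show ‖s‖ ≤ 1 / 2 by linarith)
  refine Real.log_le_log (by positivity) ?_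
  rw [div_le_div_iff₀ hp h1]
  have h4 : ‖s‖ * ‖s‖ ≤ ‖s‖ * (1 / 96) := mul_le_mul_of_nonneg_left hs hp.le
  have h5 : 1 / 4 * ‖s‖ ≤ Sz (ch s z) * ‖s‖ := mul_le_mul_of_nonneg_right h3 hp.le
  have h6 : ‖s‖ ^ 2 = ‖s‖ * ‖s‖ := sq _
  linarith

theorem tauSt : TauSt := by
  refine ⟨2 * 960 ^ 2, 1 / 96, by norm_num, ?_⟩
  intro s z h0 hs hz p q x y
  have hp : 0 < ‖s‖ := norm_pos_iff.2 h0
  have hn : NoTriple (ch s z) := noTriple_ch h0 (by linarith) hz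
  rw [fderiv_tau_aff 3 hn, fderiv_tau 3 hn]
  have h1 := Sl_ch_lower (s := s) hz
  have h2 := Sz_ch_lower z (show ‖s‖ ≤ 1 / 2 by linarith)
  have h3 := log_le_ratio h0 hs hz
  have h4 : 0 ≤ Real.log (1 / ‖s‖) := Real.log_nonneg ((one_le_div hp).2 (by linarith))
  have hx := norm_nonneg x
  have hy := norm_nonneg y
  have ht : ∀ i j, ‖tv s z x y i - tv s z x y j‖ ≤ 2 * (‖s‖ * (‖x‖ + ‖y‖)) := fun i j => by
    have a1 := norm_sub_le (tv s z x y i) (tv s z x y j)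
    have a2 := norm_tv_le (s := s) hz x y i
    have a3 := norm_tv_le (s := s) hz x y j
    linarith
  have h5 : ∀ i, ‖ch s z i‖ ≤ 1 := fun i => by
    by_cases hi : i = 3
    · simp [hi, ch]
    · have := norm_ch_le (s := s) hz i hi
      linarith
  have h6 := abs_dSz_le (ch s z) (tv s z x y) (r := 2) (fun i j => by
    have a1 := norm_sub_le (ch s z i) (ch s z j)
    have a2 := h5 i
    have a3 := h5 j
    linarith) ht
  have h7 := abs_dSl_le 3 (ch s z) (tv s z x y) (r := 2 * ‖s‖) (by positivity)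
    (fun i j hi hj => by
      have a1 := norm_sub_le (ch s z i) (ch s z j)
      have a2 := norm_ch_le (s := s) hz i hi
      have a3 := norm_ch_le (s := s) hz j hj
      linarith) ht
  have hm : (‖x‖ + ‖y‖) ^ 2 ≤ 2 * (‖x‖ ^ 2 + ‖y‖ ^ 2) := by
    have := sq_nonneg (‖x‖ - ‖y‖)
    linarith
  have m0 : 0 ≤ ‖x‖ + ‖y‖ := by positivity
  generalize ‖x‖ + ‖y‖ = m at *
  generalize Real.log (Sz (ch s z) / Sl 3 (ch s z)) = L at *
  generalize Real.log (1 / ‖s‖) = L0 at *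
  generalize dSz (ch s z) (tv s z x y) = u at *
  generalize dSl 3 (ch s z) (tv s z x y) = w at *
  generalize Sz (ch s z) = A at *
  generalize Sl 3 (ch s z) = B at *
  generalize ‖s‖ = r at *
  have hA : 0 < A := by linarith
  have hB : 0 < B := lt_of_lt_of_le (by positivity) h1
  have b1 : |u / A| ≤ 192 * m := by
    rw [abs_div, abs_of_pos hA, div_le_iff₀ hA]
    have c1 : r * m ≤ 1 * m := mul_le_mul_of_nonneg_right (by linarith) m0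
    have c2 : 192 * m * (1 / 4) ≤ 192 * m * A := mul_le_mul_of_nonneg_left h2 (by positivity)
    linarith
  have b2 : |w / B| ≤ 768 * m := by
    rw [abs_div, abs_of_pos hB, div_le_iff₀ hB]
    have c2 : 768 * m * (r ^ 2 / 16) ≤ 768 * m * B := mul_le_mul_of_nonneg_left h1 (by positivity)
    linarith
  have b3 : |u / A - w / B| ≤ 960 * m := (abs_sub _ _).trans (by linarith)
  generalize u / A - w / B = D at *
  have b4 : D ^ 2 ≤ (960 * m) ^ 2 := by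
    rw [← sq_abs D]
    exact pow_le_pow_left₀ (abs_nonneg _) b3 2
  have b5 : (L0 / (1 + L)) ^ 2 ≤ 1 :=
    pow_le_one₀ (div_nonneg h4 (by linarith)) ((div_le_one (by linarith)).2 (by linarith))
  calc (D / (1 + L)) ^ 2 * L0 ^ 2 = D ^ 2 * (L0 / (1 + L)) ^ 2 := by ring
    _ ≤ (960 * m) ^ 2 * 1 := mul_le_mul b4 b5 (sq_nonneg _) (sq_nonneg _)
    _ ≤ _ := by linarith

theorem exists_perm_closest (l : Fin 4) (a : Cf) : ∃ σ : Equiv.Perm (Fin 4), σ 3 = l ∧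
    ‖a (σ 0) - a (σ 1)‖ ≤ ‖a (σ 0) - a (σ 2)‖ ∧ ‖a (σ 0) - a (σ 1)‖ ≤ ‖a (σ 1) - a (σ 2)‖ := by
  obtain ⟨π, hπ⟩ : ∃ π : Equiv.Perm (Fin 4), π 3 = l := ⟨Equiv.swap 3 l, by simp⟩
  have e1 := norm_sub_rev (a (π 1)) (a (π 0))
  have e2 := norm_sub_rev (a (π 2)) (a (π 0))
  have e3 := norm_sub_rev (a (π 2)) (a (π 1))
  have s1 : Equiv.swap (1 : Fin 4) 2 3 = 3 ∧ Equiv.swap (1 : Fin 4) 2 0 = 0 ∧
      Equiv.swap (1 : Fin 4) 2 1 = 2 ∧ Equiv.swap (1 : Fin 4) 2 2 = 1 := by decide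
  have s2 : Equiv.swap (0 : Fin 4) 2 3 = 3 ∧ Equiv.swap (0 : Fin 4) 2 0 = 2 ∧
      Equiv.swap (0 : Fin 4) 2 1 = 1 ∧ Equiv.swap (0 : Fin 4) 2 2 = 0 := by decide
  by_cases h1 : ‖a (π 0) - a (π 1)‖ ≤ ‖a (π 0) - a (π 2)‖ ∧
      ‖a (π 0) - a (π 1)‖ ≤ ‖a (π 1) - a (π 2)‖
  · exact ⟨π, hπ, h1⟩
  by_cases h2 : ‖a (π 0) - a (π 2)‖ ≤ ‖a (π 1) - a (π 2)‖
  · refine ⟨π * Equiv.swap 1 2, ?_⟩
    simp only [Equiv.Perm.mul_apply, s1]
    rw [not_and_or, not_le, not_le] at h1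
    refine ⟨hπ, ?_, ?_⟩ <;> rcases h1 with h1 | h1 <;> linarith
  · refine ⟨π * Equiv.swap 0 2, ?_⟩
    simp only [Equiv.Perm.mul_apply, s2]
    rw [not_and_or, not_le, not_le] at h1
    rw [not_le] at h2
    refine ⟨hπ, ?_, ?_⟩ <;> rcases h1 with h1 | h1 <;> linarith

theorem par (u h : ℂ) : ‖u + h‖ ^ 2 + ‖u - h‖ ^ 2 = 2 * ‖u‖ ^ 2 + 2 * ‖h‖ ^ 2 := by
  have := parallelogram_law_with_norm ℝ u h
  linarith

theorem norm_core (b : Cf) (hb : Function.Injective b) (h1 : ‖b 0 - b 1‖ ≤ ‖b 0 - b 2‖)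
    (h2 : ‖b 0 - b 1‖ ≤ ‖b 1 - b 2‖) (hS : Sl 3 b ≤ 1 / 4 * Sz b) :
    ∃ c d s z : ℂ, c ≠ 0 ∧ s ≠ 0 ∧ z ≠ 0 ∧
      ‖z‖ ≤ 3 / 2 ∧ b = (fun i => c * ch s z i + d) ∧ ‖s‖ ^ 2 ≤ 8 * (Sl 3 b / Sz b) ∧
      Sl 3 b / Sz b ≤ 8 * ‖s‖ ^ 2 ∧ Sz b ≤ 8 * ‖c‖ ^ 2 ∧ ‖c‖ ^ 2 ≤ 8 * Sz b := by
  obtain ⟨d, hd⟩ : ∃ d, d = (b 0 + b 1) / 2 := ⟨_, rfl⟩
  obtain ⟨h, hh⟩ : ∃ h, h = (b 1 - b 0) / 2 := ⟨_, rfl⟩
  obtain ⟨u, hu⟩ : ∃ u, u = b 2 - d := ⟨_, rfl⟩
  obtain ⟨c, hc⟩ : ∃ c, c = b 3 - d := ⟨_, rfl⟩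
  have e01 : ‖b 0 - b 1‖ = 2 * ‖h‖ := by
    rw [norm_sub_rev, show b 1 - b 0 = 2 * h by rw [hh]; ring, norm_mul]
    simp
  have e02 : ‖b 0 - b 2‖ = ‖u + h‖ := by
    rw [norm_sub_rev, hu, hh, hd]
    congr 1
    ring
  have e12 : ‖b 1 - b 2‖ = ‖u - h‖ := by
    rw [norm_sub_rev, hu, hh, hd]
    congr 1
    ring
  have e03 : ‖b 0 - b 3‖ = ‖c + h‖ := by
    rw [norm_sub_rev, hc, hh, hd]
    congr 1
    ring
  have e13 : ‖b 1 - b 3‖ = ‖c - h‖ := by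
    rw [norm_sub_rev, hc, hh, hd]
    congr 1
    ring
  have e23 : ‖b 2 - b 3‖ = ‖c - u‖ := by
    rw [norm_sub_rev, hc, hu]
    congr 1
    ring
  have hl : Sl 3 b = ‖b 0 - b 1‖ ^ 2 + ‖b 0 - b 2‖ ^ 2 + ‖b 1 - b 2‖ ^ 2 := by
    simp [Sl, Fin.sum_univ_succ, fst, snd]
    ring
  have hz : Sz b = Sl 3 b + (‖b 0 - b 3‖ ^ 2 + ‖b 1 - b 3‖ ^ 2 + ‖b 2 - b 3‖ ^ 2) := by
    rw [hl]
    simp [Sz, Fin.sum_univ_succ, fst, snd]
    ring
  have hh0 : h ≠ 0 := by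
    rw [hh]
    exact div_ne_zero (sub_ne_zero.2 fun e => absurd (hb e) (by decide)) two_ne_zero
  have hp : 0 < ‖h‖ := norm_pos_iff.2 hh0
  have p1 := par u h
  have p2 := par c h
  have p3 := par c u
  have q1 := pow_le_pow_left₀ (norm_nonneg _) h1 2
  have q2 := pow_le_pow_left₀ (norm_nonneg _) h2 2
  rw [e01, e02] at q1
  rw [e01, e12] at q2
  rw [e01, e02, e12] at hl
  rw [e03, e13, e23] at hz
  have n1 := sq_nonneg ‖c + u‖
  have n2 := sq_nonneg ‖c - u‖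
  have hp2 : 0 < ‖h‖ ^ 2 := by positivity
  have k1 : 3 * ‖h‖ ^ 2 ≤ ‖u‖ ^ 2 := by linarith
  have k2 : 2 * ‖u‖ ^ 2 ≤ Sl 3 b := by linarith
  have k3 : Sl 3 b ≤ 4 * ‖u‖ ^ 2 := by linarith
  have k4 : Sz b ≤ 8 * ‖c‖ ^ 2 := by linarith
  have k5 : 2 * ‖c‖ ^ 2 ≤ Sz b := by linarith
  have u2 : 0 < ‖u‖ ^ 2 := by linarith
  have z0 : 0 < Sz b := by linarith
  have c2 : 0 < ‖c‖ ^ 2 := by linarith
  have hu0 : u ≠ 0 := fun e => by simp [e] at u2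
  have hc0 : c ≠ 0 := fun e => by simp [e] at c2
  have hs : ‖u / c‖ ^ 2 = ‖u‖ ^ 2 / ‖c‖ ^ 2 := by rw [norm_div, div_pow]
  refine ⟨c, d, u / c, 2 * h / u, hc0, div_ne_zero hu0 hc0,
    div_ne_zero (mul_ne_zero two_ne_zero hh0) hu0, ?_, ?_, ?_, ?_, k4, by linarith⟩
  · refine (pow_le_pow_iff_left₀ (norm_nonneg _) (by positivity) two_ne_zero).1 ?_
    rw [norm_div, div_pow, div_le_iff₀ u2, norm_mul, mul_pow]
    simp only [Complex.norm_ofNat]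
    linarith
  · have a1 : c * (u / c * (2 * h / u) / 2) = h := by field_simp
    have a2 : c * (u / c) = u := by field_simp
    funext i
    fin_cases i
    · show b 0 = c * -(u / c * (2 * h / u) / 2) + d
      rw [mul_neg, a1, hh, hd]
      ring
    · show b 1 = c * (u / c * (2 * h / u) / 2) + d
      rw [a1, hh, hd]
      ring
    · show b 2 = c * (u / c) + d
      rw [a2, hu]
      ring
    · show b 3 = c * 1 + d
      rw [hc]
      ring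
  · rw [hs, ← mul_div_assoc, div_le_div_iff₀ c2 z0]
    have a1 : ‖u‖ ^ 2 * Sz b ≤ ‖u‖ ^ 2 * (8 * ‖c‖ ^ 2) := mul_le_mul_of_nonneg_left k4 u2.le
    have a2 : ‖u‖ ^ 2 * ‖c‖ ^ 2 ≤ Sl 3 b * ‖c‖ ^ 2 :=
      mul_le_mul_of_nonneg_right (by linarith) c2.le
    linarith
  · rw [hs, ← mul_div_assoc, div_le_div_iff₀ z0 c2]
    have a1 : Sl 3 b * ‖c‖ ^ 2 ≤ 4 * ‖u‖ ^ 2 * ‖c‖ ^ 2 := mul_le_mul_of_nonneg_right k3 c2.le
    have a2 : ‖u‖ ^ 2 * ‖c‖ ^ 2 ≤ ‖u‖ ^ 2 * Sz b := mul_le_mul_of_nonneg_left (by linarith) u2.le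
    have a3 : 0 ≤ ‖u‖ ^ 2 * Sz b := by positivity
    linarith

theorem normSt : NormSt := by
  refine ⟨8, 1 / 4, by norm_num, by norm_num, ?_⟩
  intro l a ha hS
  obtain ⟨σ, h3, h1, h2⟩ := exists_perm_closest l a
  have e1 : Sl 3 (a ∘ σ) = Sl l a := by rw [Sl_perm, h3]
  have e2 : Sz (a ∘ σ) = Sz a := Sz_perm a σ
  obtain ⟨c, d, s, z, H⟩ := norm_core (a ∘ σ) (ha.comp σ.injective) h1 h2 (by rw [e1, e2]; exact hS)
  rw [e1, e2] at H
  exact ⟨σ, c, d, s, z, h3, H⟩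

end

end Pool.Agent.Lib.MP_0c623d_al.BP
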