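import Pool.Agent.Lib.MP_0c623d_al.E.Red
import Pool.Agent.Lib.MP_0c623d_al.BP.Sk
import Pool.Agent.Lib.MP_0c623d_al.BP.Cov
import Pool.Agent.Lib.MP_0c623d_al.F.Ord
import Pool.Agent.Lib.MP_0c623d_al.F.Wall
import Pool.Agent.Lib.MP_caab05_ag.GB.Osg

set_option autoImplicit false

/-!
The Gram matrix is single valued on the configuration space.
-/

namespace Pool.Agent.Lib.MP_0c623d_al.BP

open Complex Matrix Filter Topology
open scoped ComplexConjugate Matrix.Norms.Operator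

namespace Glob

theorem pp_mul : ∀ (σ τ : Equiv.Perm (Fin 4)) (n : Fin 6), pp (σ * τ) n = pp σ (pp τ n) := by
  decide +kernel

theorem pp_one : ∀ n : Fin 6, pp 1 n = n := by decide +kernel

/-- The action on pairs, as a permutation. -/
def pe (σ : Equiv.Perm (Fin 4)) : Fin 6 ≃ Fin 6 :=
  ⟨pp σ, pp σ⁻¹, fun n => by rw [← pp_mul, inv_mul_cancel, pp_one],
    fun n => by rw [← pp_mul, mul_inv_cancel, pp_one]⟩

theorem pp_cases : ∀ (σ : Equiv.Perm (Fin 4)) (n : Fin 6),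
    (fst (pp σ n) = σ (fst n) ∧ snd (pp σ n) = σ (snd n)) ∨
      (fst (pp σ n) = σ (snd n) ∧ snd (pp σ n) = σ (fst n)) := by decide +kernel

theorem pp_cpl : ∀ (σ : Equiv.Perm (Fin 4)) (n : Fin 6), cpl (pp σ n) = pp σ (cpl n) := by
  decide +kernel

theorem pp_ResA : ∀ (σ : Equiv.Perm (Fin 4)) (n r c : Fin 6),
    ResA (pp σ n) (pp σ r) (pp σ c) = ResA n r c := by decide +kernel

theorem pp_pc : ∀ (σ : Equiv.Perm (Fin 4)) (n : Fin 6) (i : Fin 4),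
    pc (pp σ n) (σ i) = pc n i := by decide +kernel

theorem conn_perm (e : ℝ) (σ : Equiv.Perm (Fin 4)) (a v : Cf) :
    conn e (a ∘ σ) (v ∘ σ) = (conn e a v).submatrix (pe σ) (pe σ) := by
  ext r c
  simp only [conn, submatrix_apply, Matrix.sum_apply, Matrix.smul_apply]
  rw [← Equiv.sum_comp (pe σ)
    (fun n => ((v (fst n) - v (snd n)) / (a (fst n) - a (snd n))) • Res e n (pe σ r) (pe σ c))]
  refine Finset.sum_congr rfl fun n _ => ?_
  congr 1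
  · change _ = (v (fst (pp σ n)) - v (snd (pp σ n))) / (a (fst (pp σ n)) - a (snd (pp σ n)))
    rcases pp_cases σ n with h | h <;> rw [h.1, h.2]
    · rfl
    · rw [← neg_div_neg_eq, neg_sub, neg_sub]
      rfl
  · simp only [Res, of_apply, (pe σ).injective.eq_iff]
    rw [← pp_ResA σ n r c]
    rfl

theorem cw_perm (σ : Equiv.Perm (Fin 4)) (a : Cf) (n : Fin 6) : cw (a ∘ σ) n = cw a (pp σ n) := by
  simp only [cw, Function.comp]
  rcases pp_cases σ n with h | h <;> rw [h.1, h.2]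
  ring

theorem Pc_perm (σ : Equiv.Perm (Fin 4)) (a : Cf) (n : Fin 6) (x : ℂ) :
    Pc (a ∘ σ) n x = Pc a (pp σ n) x := by
  simp only [Pc, Function.comp, pp_cpl]
  rcases pp_cases σ (cpl n) with h | h <;> rw [h.1, h.2]
  ring

theorem Srow_perm (σ : Equiv.Perm (Fin 4)) (a : Cf) (l : Fin 3 → ℂ) :
    Srow (a ∘ σ) l = Srow a l ∘ pe σ := by
  funext n
  change _ = Srow a l (pp σ n)
  simp only [Srow, cw_perm, Pc_perm, Function.comp, ell]
  rcases pp_cases σ n with h | h <;> rw [h.1, h.2]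
  ring

theorem Jc_perm (e : ℝ) (σ : Equiv.Perm (Fin 4)) (a : Cf) :
    Jc e 0 (a ∘ σ) = Jc e 0 a ∘ pe σ := by
  funext n
  change _ = Jc e 0 a (pp σ n)
  simp only [Jc, cw_perm, Pi.single_zero]
  rw [← In_perm e (pc (pp σ n)) 0 (pc (pp σ n)) 0 a σ,
    show pc (pp σ n) ∘ σ = pc n from funext (pp_pc σ n)]
  rfl

/-- Composition with a permutation. -/
noncomputable def cp (σ : Equiv.Perm (Fin 4)) : Cf →L[ℂ] Cf :=
  ContinuousLinearMap.pi fun i => ContinuousLinearMap.proj (R := ℂ) (φ := fun _ => ℂ) (σ i)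

theorem cp_apply (σ : Equiv.Perm (Fin 4)) (a : Cf) : cp σ a = a ∘ σ := rfl

/-- Reindexing. -/
noncomputable def sm (f g : Fin 6 → Fin 6) : M6 →L[ℂ] M6 :=
  LinearMap.toContinuousLinearMap
    { toFun := fun X => X.submatrix f g, map_add' := fun _ _ => rfl, map_smul' := fun _ _ => rfl }

theorem sm_apply (f g : Fin 6 → Fin 6) (X : M6) : sm f g X = X.submatrix f g := rfl

/-- The connection as a linear map. -/
noncomputable def cL (e : ℝ) (a : Cf) : Cf →L[ℂ] M6 :=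
  ∑ n, (dif n a)⁻¹ • (dif n).smulRight (Res e n)

theorem cL_apply (e : ℝ) (a v : Cf) : cL e a v = conn e a v := by
  simp [cL, conn, smul_smul, div_eq_inv_mul, dif_apply]

/-- `Y` solves the system at `a`. -/
def SolU (e : ℝ) (Y : Cf → M6) (a : Cf) : Prop :=
  IsUnit (Y a) ∧ ∃ L : Cf →L[ℂ] M6, (∀ v, L v = conn e a v * Y a) ∧ HasFDerivAt Y L a

theorem SolU.der {e : ℝ} {Y : Cf → M6} {a : Cf} (h : SolU e Y a) :
    HasFDerivAt Y ((ContinuousLinearMap.mul ℂ M6).flip (Y a) ∘L cL e a) a := by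
  obtain ⟨L, h1, h2⟩ := h.2
  refine h2.congr_fderiv (ContinuousLinearMap.ext fun v => ?_)
  rw [h1, ← cL_apply]
  rfl

theorem unit_sub {X : M6} (h : IsUnit X) (f : Fin 6 ≃ Fin 6) : IsUnit (X.submatrix f id) :=
  (isUnit_submatrix_equiv f (Equiv.refl _)).2 h

theorem sub_inv (X : M6) (f : Fin 6 ≃ Fin 6) : (X.submatrix f id)⁻¹ = X⁻¹.submatrix id f :=
  inv_submatrix_equiv X f (Equiv.refl _)

theorem SolU.perm {e : ℝ} {Y : Cf → M6} {a : Cf} (σ : Equiv.Perm (Fin 4))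
    (h : SolU e Y (a ∘ σ)) : SolU e (fun b => (Y (b ∘ σ)).submatrix (pe σ).symm id) a := by
  obtain ⟨L, h1, h2⟩ := h.2
  refine ⟨unit_sub h.1 _, sm (pe σ).symm id ∘L L ∘L cp σ,
    fun v => ?_, (sm _ _).hasFDerivAt.comp a
      (HasFDerivAt.comp a (g := Y) h2 (cp σ).hasFDerivAt)⟩
  change (L (v ∘ σ)).submatrix _ _ = _
  rw [h1, conn_perm, ← submatrix_mul_equiv _ _ _ (pe σ).symm]
  simp

/-- The conjugate transpose as a real linear map. -/
noncomputable def ct : M6 →L[ℝ] M6 :=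
  LinearMap.toContinuousLinearMap
    { toFun := fun X => Xᴴ, map_add' := conjTranspose_add,
      map_smul' := fun r X => by ext i j; simp }

theorem ct_apply (X : M6) : ct X = Xᴴ := rfl

theorem SolU.gram {e : ℝ} {Y : Cf → M6} {a : Cf} (h : SolU e Y a) (K : M6) :
    ∃ D : Cf →L[ℝ] M6, HasFDerivAt (fun b => Y b * K * (Y b)ᴴ) D a ∧ ∀ v, D v =
      conn e a v * (Y a * K * (Y a)ᴴ) + Y a * K * (Y a)ᴴ * (conn e a v)ᴴ := by
  obtain ⟨L, h1, h2⟩ := h.2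
  have h3 := h2.restrictScalars ℝ
  refine ⟨_, (h3.mul_const' K).mul' (ct.hasFDerivAt.comp a h3), fun v => ?_⟩
  change Y a * K * (L v)ᴴ + L v * K * (Y a)ᴴ = _
  simp only [h1, conjTranspose_mul, Matrix.mul_assoc, add_comm]

theorem an_row {e : ℝ} {U : Set Cf} (hU : IsOpen U) (hi : ∀ a ∈ U, Function.Injective a)
    {Y : Cf → M6} (hY : ∀ a ∈ U, SolU e Y a) (l : Fin 3 → ℂ) :
    AnalyticOnNhd ℂ (fun a => (Y a)⁻¹ *ᵥ Srow a l) U := by
  refine MP_caab05_ag.GB.osg _ _ _ U hU fun a ha => DifferentiableAt.differentiableWithinAt ?_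
  have h1 : DifferentiableAt ℂ (fun a => (Y a)⁻¹) a := by
    simp only [nonsing_inv_eq_ringInverse]
    exact (frame_inv (hY a ha).1 (hY a ha).der).differentiableAt
  have h2 : ∀ n, DifferentiableAt ℂ (fun a => Srow a l n) a := fun n => by
    have h : ∀ i j : Fin 4, i ≠ j → a i - a j ≠ 0 := fun i j hij =>
      sub_ne_zero.2 ((hi a ha).ne hij)
    simp only [Srow, ell, cw, Pc, div_eq_mul_inv]
    refine DifferentiableAt.fun_mul ?_ (DifferentiableAt.fun_inv ?_ ?_)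
    · fun_prop
    · fun_prop
    refine mul_ne_zero (mul_ne_zero (pow_ne_zero _ ?_) (mul_ne_zero ?_ ?_)) (mul_ne_zero ?_ ?_)
    all_goals exact h _ _ (by revert n; decide)
  refine differentiableAt_pi.2 fun r => ?_
  simp only [mulVec, dotProduct]
  refine DifferentiableAt.fun_sum fun n _ => DifferentiableAt.mul ?_ (h2 n)
  exact (LinearMap.toContinuousLinearMap (entryLinearMap ℂ ℂ r n)).differentiableAt.comp a h1

theorem vm (S : Fin 6 → ℂ) (Y : M6) : S ᵥ* (Yᵀ)⁻¹ = Y⁻¹ *ᵥ S := by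
  rw [← transpose_nonsing_inv, vecMul_transpose]

theorem sub_row (X : M6) (f : Fin 6 ≃ Fin 6) (v : Fin 6 → ℂ) :
    (X.submatrix f id)⁻¹ *ᵥ (v ∘ f) = X⁻¹ *ᵥ v := by
  rw [sub_inv, submatrix_mulVec_equiv, Function.comp_assoc, Equiv.self_comp_symm]
  rfl

theorem sub_gram (X K : M6) (f : Fin 6 → Fin 6) :
    X.submatrix f id * K * (X.submatrix f id)ᴴ = (X * K * Xᴴ).submatrix f f := rfl

/-- A transition matrix preserves the form. -/
theorem uni0 {e : ℝ} {U : Set Cf} (hU : IsOpen U) (hc : IsPreconnected U)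
    (hi : ∀ a ∈ U, Function.Injective a) {Y : Cf → M6} (hY : ∀ a ∈ U, SolU e Y a) {H : M6}
    (hJ : ∀ a ∈ U, Jc e 0 a = (Y a)ᵀ⁻¹ *ᵥ (H *ᵥ star ((Y a)⁻¹ *ᵥ Srow a ![1, 0, 0])))
    (hsp : Submodule.span ℂ ((fun a => (Y a)⁻¹ *ᵥ Srow a ![1, 0, 0]) '' U) = ⊤)
    (σ : Equiv.Perm (Fin 4)) {a : Cf} (ha : a ∈ U) {C : M6}
    (hC : ∀ᶠ b in 𝓝 a, b ∘ σ ∈ U ∧ Y (b ∘ σ) = (Y b * C).submatrix (pe σ) id) :
    Hᵀ = C⁻¹ᴴ * (Hᵀ * C⁻¹) := by
  have key : ∀ᶠ b in 𝓝 a,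
      (H.map star - (Cᵀ⁻¹ * H).map star * C⁻¹) *ᵥ ((Y b)⁻¹ *ᵥ Srow b ![1, 0, 0]) = 0 := by
    filter_upwards [hC, hU.mem_nhds ha] with b hb hb'
    have h1 := hJ b hb'
    have h2 := hJ _ hb.1
    rw [Jc_perm, Srow_perm, hb.2, sub_row, ← transpose_nonsing_inv, sub_inv, transpose_submatrix,
      transpose_nonsing_inv] at h2
    have h3 : Jc e 0 b = (Y b * C)ᵀ⁻¹ *ᵥ H *ᵥ star ((Y b * C)⁻¹ *ᵥ Srow b ![1, 0, 0]) :=
      (pe σ).surjective.injective_comp_right h2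
    rw [h1, Matrix.mul_inv_rev, transpose_mul, Matrix.mul_inv_rev, ← mulVec_mulVec,
      ← mulVec_mulVec] at h3
    have h4 := mulVec_injective_of_isUnit
      (isUnit_nonsing_inv_iff.2 ((isUnit_transpose _).2 (hY b hb').1)) h3
    have e2 : ∀ (X : M6) (v : Fin 6 → ℂ), X.map star *ᵥ v = star (X *ᵥ star v) := fun X v => by
      funext i
      simp [mulVec, dotProduct]
    rw [sub_mulVec, ← mulVec_mulVec, e2, e2, h4, ← mulVec_mulVec, sub_self]
  have k2 := AnalyticOnNhd.eqOn_zero_of_preconnected_of_eventuallyEq_zero (𝕜 := ℂ) (U := U)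
    (f := fun b => (H.map star - (Cᵀ⁻¹ * H).map star * C⁻¹) *ᵥ ((Y b)⁻¹ *ᵥ Srow b ![1, 0, 0]))
    (fun x hx => (Pool.Agent.BP.F.an_mulVec _ _).fun_comp (an_row hU hi hY _ x hx)) hc ha key
  have k3 : LinearMap.ker (mulVecLin (H.map star - (Cᵀ⁻¹ * H).map star * C⁻¹)) = ⊤ := by
    rw [eq_top_iff, ← hsp, Submodule.span_le]
    rintro _ ⟨x, hx, rfl⟩
    exact k2 hx
  have k4 := congrArg conjTranspose
    (sub_eq_zero.1 (toLin'.map_eq_zero_iff.1 (LinearMap.ker_eq_top.1 k3)))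
  have e3 : ∀ X : M6, (X.map star)ᴴ = Xᵀ := fun X => by ext i j; simp
  rwa [conjTranspose_mul, e3, e3, transpose_mul, ← transpose_nonsing_inv, transpose_transpose]
    at k4

/-- Equivariance where both configurations lie in the domain. -/
theorem equi {e : ℝ} {U : Set Cf} (hU : IsOpen U) (hc : IsPreconnected U)
    (hi : ∀ a ∈ U, Function.Injective a) {Y : Cf → M6} (hY : ∀ a ∈ U, SolU e Y a) {H : M6}
    (hJ : ∀ a ∈ U, Jc e 0 a = (Y a)ᵀ⁻¹ *ᵥ (H *ᵥ star ((Y a)⁻¹ *ᵥ Srow a ![1, 0, 0])))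
    (hsp : Submodule.span ℂ ((fun a => (Y a)⁻¹ *ᵥ Srow a ![1, 0, 0]) '' U) = ⊤)
    (σ : Equiv.Perm (Fin 4)) {a : Cf} (ha : a ∈ U) (ha' : a ∘ σ ∈ U) :
    Y (a ∘ σ) * H⁻¹ᵀ * (Y (a ∘ σ))ᴴ = (Y a * H⁻¹ᵀ * (Y a)ᴴ).submatrix (pe σ) (pe σ) := by
  obtain ⟨r, r0, hr⟩ := Metric.isOpen_iff.1 (hU.inter (hU.preimage (cp σ).continuous)) a ⟨ha, ha'⟩
  obtain ⟨C, hC⟩ := frame_const Metric.isOpen_ball (convex_ball a r).isPreconnected
    (Om := cL e) (Y := Y) (y := fun b => (Y (b ∘ σ)).submatrix (pe σ).symm id)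
    (fun b hb => ⟨(hY b (hr hb).1).1, (hY b (hr hb).1).der⟩)
    fun b hb => ((hY _ (hr hb).2).perm σ).der
  have hC' : ∀ b ∈ Metric.ball a r, Y (b ∘ σ) = (Y b * C).submatrix (pe σ) id :=
    fun b hb => by rw [← hC b hb]; simp
  have a0 := Metric.mem_ball_self (x := a) r0
  have Cd : IsUnit C.det := (isUnit_iff_isUnit_det _).1 (isUnit_of_mul_isUnit_right
    (by rw [← hC a a0]; exact ((hY _ (hr a0).2).perm σ).1))
  have k4 := uni0 hU hc hi hY hJ hsp σ ha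
    (mem_of_superset (Metric.ball_mem_nhds a r0) fun b hb => ⟨(hr hb).2, hC' b hb⟩)
  have k5 : H⁻¹ᵀ = C * H⁻¹ᵀ * Cᴴ := by
    conv_lhs => rw [transpose_nonsing_inv, k4, Matrix.mul_inv_rev, Matrix.mul_inv_rev,
      nonsing_inv_nonsing_inv _ Cd, ← conjTranspose_nonsing_inv, nonsing_inv_nonsing_inv _ Cd,
      ← transpose_nonsing_inv]
  conv_rhs => rw [k5]
  rw [hC' a a0, sub_gram, conjTranspose_mul]
  simp only [Matrix.mul_assoc]

end Glob

open Glob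

/-- The global Gram matrix. -/
theorem glob {e : ℝ} {U : Set Cf} (hU : IsOpen U) (hc : IsPreconnected U)
    (hi : ∀ a ∈ U, Function.Injective a)
    (hs : ∀ a : Cf, Function.Injective a → ∃ σ : Equiv.Perm (Fin 4), a ∘ σ ∈ U) {Y : Cf → M6}
    (hY : ∀ a ∈ U, IsUnit (Y a) ∧
      ∃ L : Cf →L[ℂ] M6, (∀ v, L v = conn e a v * Y a) ∧ HasFDerivAt Y L a)
    {H : M6} (hH : H.IsHermitian) (hH' : IsUnit H)
    (hJ : ∀ a ∈ U, Jc e 0 a = (Y a)ᵀ⁻¹ *ᵥ (H *ᵥ star (Srow a ![1, 0, 0] ᵥ* (Y a)ᵀ⁻¹)))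
    (hG : ∀ a ∈ U, ∀ l, (Srow a l ᵥ* (Y a)ᵀ⁻¹) ⬝ᵥ H *ᵥ star (Srow a l ᵥ* (Y a)ᵀ⁻¹) = G e a l)
    (hsp : Submodule.span ℂ ((fun a => Srow a ![1, 0, 0] ᵥ* (Y a)ᵀ⁻¹) '' U) = ⊤) :
    ∃ Hk Hi : Cf → M6, Gr e Hk Hi ∧ ∀ b ∈ U, Hk b = Y b * H⁻¹ᵀ * (Y b)ᴴ := by
  choose! s hs using hs
  simp only [vm] at hJ hG hsp
  obtain ⟨X, hX⟩ : ∃ X : Cf → M6, X = fun b => Y b * H⁻¹ᵀ * (Y b)ᴴ := ⟨_, rfl⟩
  have hE : ∀ (σ : Equiv.Perm (Fin 4)) (a : Cf), a ∈ U → a ∘ σ ∈ U →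
      X (a ∘ σ) = (X a).submatrix (pe σ) (pe σ) := fun σ a ha ha' => by
    rw [hX]
    exact equi hU hc hi hY hJ hsp σ ha ha'
  obtain ⟨Hk, hK⟩ : ∃ Hk : Cf → M6,
      Hk = fun a => (X (a ∘ s a)).submatrix (pe (s a)).symm (pe (s a)).symm := ⟨_, rfl⟩
  have h1 : ∀ (a : Cf) (τ : Equiv.Perm (Fin 4)), a ∘ τ ∈ U →
      Hk a = (X (a ∘ τ)).submatrix (pe τ).symm (pe τ).symm := fun a τ h => by
    have ha : Function.Injective a := by
      have := (hi _ h).comp τ.symm.injective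
      rwa [Function.comp_assoc, Equiv.self_comp_symm, Function.comp_id] at this
    have e1 : a ∘ τ = (a ∘ s a) ∘ ((s a)⁻¹ * τ : Equiv.Perm (Fin 4)) := by
      funext i
      simp
    rw [e1, hE _ _ (hs a ha) (e1 ▸ h), hK, submatrix_submatrix]
    have : pe ((s a)⁻¹ * τ) ∘ (pe τ).symm = (pe (s a)).symm := by
      funext n
      change pp ((s a)⁻¹ * τ) (pp τ⁻¹ n) = pp (s a)⁻¹ n
      rw [← pp_mul, mul_inv_cancel_right]
    rw [this]
  have h2 : ∀ a : Cf, Function.Injective a → IsUnit (Hk a) := fun a ha => by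
    rw [hK, hX]
    exact (isUnit_submatrix_equiv _ _).2 (((hY _ (hs a ha)).1.mul ((isUnit_transpose _).2
      (isUnit_nonsing_inv_iff.2 hH'))).mul ((isUnit_conjTranspose _).2 (hY _ (hs a ha)).1))
  refine ⟨Hk, fun a => (Hk a)⁻¹, ⟨fun a ha => ?_, fun a ha => ?_, fun a ha => ?_,
    fun σ a ha => ?_, fun a ha l => ?_⟩, fun b hb => ?_⟩
  · obtain ⟨D, hD, hD'⟩ := (SolU.perm (s a) (hY _ (hs a ha))).gram H⁻¹ᵀ
    have e1 : ∀ b : Cf, b ∘ s a ∈ U → Hk b = (Y (b ∘ s a)).submatrix (pe (s a)).symm id * H⁻¹ᵀ *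
        ((Y (b ∘ s a)).submatrix (pe (s a)).symm id)ᴴ := fun b hb => by
      rw [h1 b _ hb, hX, sub_gram]
    refine ⟨D, hD.congr_of_eventuallyEq ?_, fun v => by rw [hD', e1 a (hs a ha)]⟩
    exact mem_of_superset ((hU.preimage (cp (s a)).continuous).mem_nhds (hs a ha)) e1
  · have := (isUnit_iff_isUnit_det _).1 (h2 a ha)
    exact ⟨mul_nonsing_inv _ this, nonsing_inv_mul _ this⟩
  · rw [hK, hX]
    simp only [conjTranspose_submatrix, conjTranspose_mul, conjTranspose_conjTranspose,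
      hH.inv.transpose.eq, Matrix.mul_assoc]
  · have e1 : (a ∘ σ) ∘ (σ⁻¹ * s a : Equiv.Perm (Fin 4)) = a ∘ s a := by
      funext i
      simp
    rw [h1 (a ∘ σ) (σ⁻¹ * s a) (e1 ▸ hs a ha), e1, hK, submatrix_submatrix]
    have : (pe (s a)).symm ∘ pp σ = (pe (σ⁻¹ * s a)).symm := by
      funext n
      change pp (s a)⁻¹ (pp σ n) = pp (σ⁻¹ * s a)⁻¹ n
      rw [← pp_mul, _root_.mul_inv_rev, inv_inv]
    rw [this]
  · have e1 := hG _ (hs a ha) l
    rw [G_perm, Srow_perm] at e1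
    have Yd := (isUnit_iff_isUnit_det _).1 (hY _ (hs a ha)).1
    have Hd := (isUnit_iff_isUnit_det _).1 hH'
    rw [← e1, hK, hX]
    simp only [inv_submatrix_equiv, submatrix_mulVec_equiv, Equiv.symm_symm]
    rw [← comp_equiv_dotProduct_comp_equiv _ _ (pe (s a)), Function.comp_assoc,
      Equiv.symm_comp_self, Function.comp_id, Matrix.mul_inv_rev, Matrix.mul_inv_rev,
      transpose_nonsing_inv, nonsing_inv_nonsing_inv _ (by rwa [det_transpose]),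
      ← mulVec_mulVec, ← mulVec_mulVec, dotProduct_mulVec, ← conjTranspose_nonsing_inv,
      show star (Srow a l) ∘ pe (s a) = star (Srow a l ∘ pe (s a)) from rfl, ← star_mulVec,
      mulVec_transpose, dotProduct_comm, dotProduct_mulVec]
  · rw [h1 b 1 hb, hX]
    ext i j
    simp only [submatrix_apply, show ∀ n, (pe 1).symm n = n from pp_one]
    rfl

theorem Om_inj {a : Cf} (ha : a ∈ Pool.Agent.BP.F.Om) : Function.Injective a := fun i j h => by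
  by_contra hn
  rcases lt_or_gt_of_ne hn with e | e
  · exact slitPlane_ne_zero (ha _ _ e) (by rw [h, sub_self])
  · exact slitPlane_ne_zero (ha _ _ e) (by rw [h, sub_self])

theorem Om_sort {a : Cf} (ha : Function.Injective a) : a ∘ Pool.Agent.BP.F.srt a ∈ Pool.Agent.BP.F.Om :=
  fun _ _ h => (Pool.Agent.BP.F.srt_lexNN a h.le).slit
    (sub_ne_zero.2 (ha.ne ((Pool.Agent.BP.F.srt a).injective.ne h.ne')))

/-- The global Gram matrix from the slit domain. -/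
theorem glob_Om {e : ℝ} {Y : Cf → M6} (hY : ∀ a ∈ Pool.Agent.BP.F.Om, IsUnit (Y a) ∧
      ∃ L : Cf →L[ℂ] M6, (∀ v, L v = conn e a v * Y a) ∧ HasFDerivAt Y L a)
    {H : M6} (hH : H.IsHermitian) (hH' : IsUnit H)
    (hJ : ∀ a ∈ Pool.Agent.BP.F.Om,
      Jc e 0 a = (Y a)ᵀ⁻¹ *ᵥ (H *ᵥ star (Srow a ![1, 0, 0] ᵥ* (Y a)ᵀ⁻¹)))
    (hG : ∀ a ∈ Pool.Agent.BP.F.Om, ∀ l,
      (Srow a l ᵥ* (Y a)ᵀ⁻¹) ⬝ᵥ H *ᵥ star (Srow a l ᵥ* (Y a)ᵀ⁻¹) = G e a l)
    (hsp : Submodule.span ℂ ((fun a => Srow a ![1, 0, 0] ᵥ* (Y a)ᵀ⁻¹) '' Pool.Agent.BP.F.Om) = ⊤) :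
    ∃ Hk Hi : Cf → M6, Gr e Hk Hi ∧ ∀ b ∈ Pool.Agent.BP.F.Om, Hk b = Y b * H⁻¹ᵀ * (Y b)ᴴ :=
  glob Pool.Agent.BP.F.isOpen_Om Pool.Agent.BP.F.preconn_Om (fun _ => Om_inj) (fun _ ha => ⟨_, Om_sort ha⟩) hY hH hH'
    hJ hG hsp

namespace Glob

open Pool.Agent.BP.F (Om sw slit_of_im sw_lt sw_cast sw_succ sw_sw isOpen_Om preconn_Om b0 b0_Om)

variable {e : ℝ}

theorem wall_Om {p : Fin 3} {b : Cf} (h : b ∈ WallSet p) : b ∈ Om ∧ b ∘ sw p ∈ Om := by
  constructor <;> intro i j hij <;> by_cases hn : i = p.castSucc ∧ j = p.succ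
  · rw [hn.1, hn.2]
    exact slit_of_im h.1.ne
  · exact Or.inl (by simpa using h.2 i j hij hn)
  · simp only [hn.1, hn.2, Function.comp, sw_cast, sw_succ]
    exact slit_of_im h.1.ne'
  · exact Or.inl (by simpa using h.2 _ _ (sw_lt p i j hij hn).1 (sw_lt p i j hij hn).2)

theorem wall_ev (p : Fin 3) : ∃ a ∈ WallSet p, ∀ᶠ b in 𝓝 a, b ∈ WallSet p := by
  have h : (fun i => ((i : ℕ) : ℝ) * (1 + I) : Cf) ∈ WallSet p :=
    ⟨by simp, fun i j hij _ => by simpa using hij⟩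
  refine ⟨_, h, (ContinuousAt.eventually_lt (Continuous.continuousAt (by fun_prop))
      (Continuous.continuousAt (by fun_prop)) h.1).and ?_⟩
  simp only [eventually_all]
  exact fun i j hij hn => ContinuousAt.eventually_lt (Continuous.continuousAt (by fun_prop))
      (Continuous.continuousAt (by fun_prop)) (h.2 i j hij hn)

theorem solU (f : FR e) (a : Cf) (ha : a ∈ Om) : SolU e f.Y a := ⟨f.unit a ha, f.sol a ha⟩

theorem C_unit (f : FR e) (p : Fin 3) : IsUnit (f.C p) := by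
  obtain ⟨a, ha, -⟩ := wall_ev p
  exact isUnit_of_mul_isUnit_right (by rw [← f.wall p a ha]; exact f.unit a (wall_Om ha).1)

theorem wall' (f : FR e) {p : Fin 3} {b : Cf} (h : b ∈ WallSet p) :
    f.Y (b ∘ sw p) = (f.Y b * (f.C p)⁻¹).submatrix (pe (sw p)) id := by
  rw [f.wall p b h, mul_nonsing_inv_cancel_right _ _ ((isUnit_iff_isUnit_det _).1 (C_unit f p))]
  ext i j
  change _ = f.Y (b ∘ sw p) (pp (sw p) (pp (sw p) i)) j
  rw [← pp_mul, sw_sw, pp_one]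

theorem y_eq (f : FR e) (a : Cf) (l : Fin 3 → ℂ) : f.y a l = (f.Y a)⁻¹ *ᵥ Srow a l :=
  vecMul_transpose _ _

theorem Srow_ne {a : Cf} (ha : Function.Injective a) : Srow a ![1, 0, 0] ≠ 0 := fun h => by
  have h0 := congrFun h 0
  have h1 : ∀ i j : Fin 4, i ≠ j → a i - a j ≠ 0 := fun i j hij => sub_ne_zero.2 (ha.ne hij)
  simp [Srow, ell, cw, Pc, fst, snd, cpl, h1] at h0

/-- The dual periods span. -/
theorem span_y (f : FR e) (hI : f.Irr) :
    Submodule.span ℂ ((fun a => f.y a ![1, 0, 0]) '' Om) = ⊤ := by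
  simp only [y_eq]
  obtain ⟨S, hS⟩ : ∃ S, S = Submodule.span ℂ ((fun a => (f.Y a)⁻¹ *ᵥ Srow a ![1, 0, 0]) '' Om) :=
    ⟨_, rfl⟩
  have hm : ∀ a ∈ Om, (f.Y a)⁻¹ *ᵥ Srow a ![1, 0, 0] ∈ S := fun a ha =>
    hS ▸ Submodule.subset_span ⟨a, ha, rfl⟩
  rw [← hS]
  refine (hI.2 S fun p v hv => ?_).resolve_left fun h => ?_
  · obtain ⟨T, hT⟩ := S.exists_isCompl
    obtain ⟨a, ha, hev⟩ := wall_ev p
    have k := AnalyticOnNhd.eqOn_zero_of_preconnected_of_eventuallyEq_zero (𝕜 := ℂ) (U := Om)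
      (f := fun b => T.projectionOnto S hT.symm (f.C p *ᵥ ((f.Y b)⁻¹ *ᵥ Srow b ![1, 0, 0])))
      (fun x hx => ((LinearMap.toContinuousLinearMap (T.projectionOnto S hT.symm)).analyticAt
        _).fun_comp ((Pool.Agent.BP.F.an_mulVec _ _).fun_comp
          (an_row isOpen_Om (fun _ => Om_inj) (solU f) _ x hx))) preconn_Om (wall_Om ha).1
      (hev.mono fun b hb => by
        have := hm _ (wall_Om hb).2
        rw [wall' f hb, Srow_perm, sub_row, Matrix.mul_inv_rev, nonsing_inv_nonsing_inv _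
          ((isUnit_iff_isUnit_det _).1 (C_unit f p)), ← mulVec_mulVec] at this
        exact (Submodule.projectionOnto_apply_eq_zero_iff hT.symm).2 this)
    have : S ≤ S.comap (mulVecLin (f.C p)) := by
      conv_lhs => rw [hS]
      rw [Submodule.span_le]
      rintro _ ⟨x, hx, rfl⟩
      exact (Submodule.projectionOnto_apply_eq_zero_iff hT.symm).1 (k hx)
    exact this hv
  · have h0 := hm b0 b0_Om
    rw [h, Submodule.mem_bot] at h0
    exact Srow_ne (Om_inj b0_Om) (mulVec_injective_of_isUnit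
      (isUnit_nonsing_inv_iff.2 (f.unit b0 b0_Om)) (h0.trans (mulVec_zero _).symm))

/-- Transposition. -/
noncomputable def tr : M6 →L[ℝ] M6 :=
  LinearMap.toContinuousLinearMap
    { toFun := fun X => Xᵀ, map_add' := transpose_add, map_smul' := fun _ _ => rfl }

theorem dot_tr (X : M6) (v w : Fin 6 → ℂ) : v ⬝ᵥ Xᵀ *ᵥ w = w ⬝ᵥ X *ᵥ v := by
  rw [mulVec_transpose, dotProduct_comm, dotProduct_mulVec]

end Glob

open Pool.Agent.BP.F (Om sw isOpen_Om preconn_Om b0 b0_Om) in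
/-- Block Gram. -/
theorem gramSt : GramSt := by
  intro hH hP e he he' f hI
  have hsp := span_y f hI
  obtain ⟨H, h1, hJ, hG⟩ := hH e he he' f hsp
  simp only [y_eq, FR.Y1, transpose_nonsing_inv] at hsp hJ hG
  have hC : ∀ p, Hᵀ = (f.C p)ᴴ * (Hᵀ * f.C p) := fun p => by
    obtain ⟨a, ha, hev⟩ := wall_ev p
    have := uni0 isOpen_Om preconn_Om (fun _ => Om_inj) (solU f) hJ hsp (sw p) (wall_Om ha).1
      (hev.mono fun b hb => ⟨(wall_Om hb).2, wall' f hb⟩)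
    rwa [nonsing_inv_nonsing_inv _ ((isUnit_iff_isUnit_det _).1 (C_unit f p))] at this
  have hU : IsUnit H := by
    rw [← isUnit_transpose, ← mulVec_injective_iff_isUnit]
    refine LinearMap.ker_eq_bot.1 ((hI.2 (LinearMap.ker (mulVecLin Hᵀ))
      fun p v hv => ?_).resolve_right fun h => ?_)
    · refine mulVec_injective_of_isUnit ((isUnit_conjTranspose _).2 (C_unit f p)) ?_
      change _ *ᵥ Hᵀ *ᵥ _ = _
      rw [mulVec_mulVec, mulVec_mulVec, Matrix.mul_assoc, ← hC, mulVec_zero]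
      exact hv
    · have h0 : H = 0 := by
        simpa using toLin'.map_eq_zero_iff.1 (LinearMap.ker_eq_top.1 h)
      have h2 := hG b0 b0_Om ![1, 0, 0]
      have h3 := hP e he he' b0 (Om_inj b0_Om) ![1, 0, 0] (by simp)
      rw [h0, zero_mulVec, dotProduct_zero] at h2
      exact h3.ne (by exact_mod_cast h2)
  obtain ⟨Hk, Hi, hg, hl⟩ := glob_Om (solU f) h1 hU (by simpa only [vm] using hJ)
    (by simpa only [vm] using hG) (by simpa only [vm] using hsp)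
  have Hd := (isUnit_iff_isUnit_det _).1 hU
  refine ⟨⟨H⁻¹, fun a => (Hk a)ᵀ, h1.inv, isUnit_nonsing_inv_iff.2 hU, fun p => ?_,
    fun a ha => ?_, fun a ha σ => ?_, fun a ha => ?_, fun a ha c d hc => ?_, fun a ha => ?_,
    fun a ha l => ?_⟩⟩
  · have Cd := (isUnit_iff_isUnit_det _).1 ((isUnit_transpose _).2 (C_unit f p))
    have Cd' := (isUnit_iff_isUnit_det _).1 ((isUnit_conjTranspose _).2
      ((isUnit_transpose _).2 (C_unit f p)))
    have h2 : H = (f.C p)ᵀ * H * (f.C p)ᵀᴴ := by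
      have := congrArg transpose (hC p)
      rwa [transpose_mul, transpose_mul, transpose_transpose] at this
    conv_lhs => rw [h2]
    rw [FR.R, Matrix.mul_inv_rev, Matrix.mul_inv_rev, mul_nonsing_inv_cancel_left _ _ Cd',
      nonsing_inv_mul_cancel_right _ _ Cd]
  · rw [hl a ha, transpose_mul, transpose_mul, transpose_transpose, Matrix.mul_assoc]
    rfl
  · rw [hg.perm σ a ha, transpose_submatrix]
  · obtain ⟨D, hD, hD'⟩ := hg.der a ha
    refine ⟨tr ∘L D, fun v => ?_, tr.hasFDerivAt.comp a hD⟩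
    change (D v)ᵀ = _
    rw [hD', transpose_add, transpose_mul, transpose_mul, add_comm]
    rfl
  · rw [scaleSt e Hk Hi hg a c d ha hc, transpose_smul, dl]
    congr 3
    ring
  · have h2 := hg.perm (Pool.Agent.BP.F.srt a)⁻¹ _ (Om_inj (Om_sort ha))
    rw [hl _ (Om_sort ha), ← sub_gram, show (a ∘ Pool.Agent.BP.F.srt a) ∘
      ((Pool.Agent.BP.F.srt a)⁻¹ : Equiv.Perm (Fin 4)) = a by funext i; simp] at h2
    refine ⟨_, (isUnit_transpose _).2
      (unit_sub (f.unit _ (Om_sort ha)) (pe (Pool.Agent.BP.F.srt a)⁻¹)), ?_⟩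
    rw [h2, transpose_mul, transpose_mul, transpose_transpose, Matrix.mul_assoc]
    rfl
  · rw [← hg.dual a ha l, Pool.Agent.BP.F.hh, star_star, ← transpose_nonsing_inv, dot_tr,
      inv_eq_right_inv (hg.inv a ha).1]

end Pool.Agent.Lib.MP_0c623d_al.BP
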