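import Mathlib
import Pool.Agent.Lib.MP_0c623d_al.E.MatD

set_option autoImplicit false
set_option linter.unusedSectionVars false

/-!
Bounded families, and the algebra of the residue at a triple collision.
-/

namespace Pool.Agent.Lib.MP_0c623d_al.BP.Cu.Bn

open Complex Matrix

noncomputable section

section
variable {ι : Type}

/-- a bounded family of numbers -/
def BS (f : ι → ℂ) : Prop := ∃ C : ℝ, ∀ i, ‖f i‖ ≤ C

/-- a bounded family of rows -/
def BV (x : ι → Fin 6 → ℂ) : Prop := ∀ r, BS fun i => x i r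

/-- a bounded family of matrices -/
def BM (X : ι → M6) : Prop := ∀ r c, BS fun i => X i r c

theorem BS.const (c : ℂ) : BS fun _ : ι => c := ⟨‖c‖, fun _ => le_rfl⟩

theorem BS.add {f g : ι → ℂ} (hf : BS f) (hg : BS g) : BS fun i => f i + g i := by
  obtain ⟨a, ha⟩ := hf
  obtain ⟨b, hb⟩ := hg
  exact ⟨a + b, fun i => (norm_add_le _ _).trans (add_le_add (ha i) (hb i))⟩

theorem BS.mul {f g : ι → ℂ} (hf : BS f) (hg : BS g) : BS fun i => f i * g i := by
  obtain ⟨a, ha⟩ := hf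
  obtain ⟨b, hb⟩ := hg
  exact ⟨a * b, fun i => (norm_mul_le _ _).trans
    (mul_le_mul (ha i) (hb i) (norm_nonneg _) ((norm_nonneg _).trans (ha i)))⟩

theorem BS.neg {f : ι → ℂ} (hf : BS f) : BS fun i => -f i := by
  obtain ⟨a, ha⟩ := hf
  exact ⟨a, fun i => by rw [norm_neg]; exact ha i⟩

theorem BS.sub {f g : ι → ℂ} (hf : BS f) (hg : BS g) : BS fun i => f i - g i := by
  simpa only [sub_eq_add_neg] using hf.add hg.neg

theorem BS.star {f : ι → ℂ} (hf : BS f) : BS fun i => star (f i) := by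
  obtain ⟨a, ha⟩ := hf
  exact ⟨a, fun i => by rw [norm_star]; exact ha i⟩

theorem BS.sum {f : Fin 6 → ι → ℂ} (hf : ∀ r, BS (f r)) : BS fun i => ∑ r, f r i := by
  simp only [Fin.sum_univ_six]
  exact (((((hf 0).add (hf 1)).add (hf 2)).add (hf 3)).add (hf 4)).add (hf 5)

theorem BM.const (X : M6) : BM fun _ : ι => X := fun _ _ => BS.const _

theorem BM.mul {X Y : ι → M6} (hX : BM X) (hY : BM Y) : BM fun i => X i * Y i := fun r c => by
  simp only [Matrix.mul_apply]
  exact BS.sum fun k => (hX r k).mul (hY k c)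

theorem BM.add {X Y : ι → M6} (hX : BM X) (hY : BM Y) : BM fun i => X i + Y i := fun r c =>
  (hX r c).add (hY r c)

theorem BM.sub {X Y : ι → M6} (hX : BM X) (hY : BM Y) : BM fun i => X i - Y i := fun r c =>
  (hX r c).sub (hY r c)

theorem BM.smul {f : ι → ℂ} {X : ι → M6} (hf : BS f) (hX : BM X) : BM fun i => f i • X i :=
  fun r c => hf.mul (hX r c)

theorem BM.ct {X : ι → M6} (hX : BM X) : BM fun i => (X i)ᴴ := fun r c => (hX c r).star

theorem BM.of_bd {X : ι → M6} {K : ℝ} (h : ∀ i, Bd (X i) K) : BM X := fun r c =>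
  ⟨K, fun i => h i r c⟩

theorem BM.qf {X : ι → M6} {x y : ι → Fin 6 → ℂ} (hX : BM X) (hx : BV x) (hy : BV y) :
    BS fun i => qf (X i) (x i) (y i) := by
  simp only [BP.qf, dotProduct, mulVec, Pi.star_apply]
  exact BS.sum fun r => (hx r).mul (BS.sum fun c => (hX r c).mul (hy c).star)

theorem BM.A0 (a : ℂ) {u W : ι → ℂ} (hu : BS u) (hW : BS W) :
    BM fun i => A0 a (u i) (W i) := fun r c => by
  fin_cases r <;> fin_cases c <;> simp only [Cu.A0, Fin.zero_eta, Fin.mk_one, Fin.reduceFinMk,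
    Matrix.of_apply, Matrix.cons_val', Matrix.cons_val_zero, Matrix.cons_val_one,
    Matrix.cons_val_fin_one, Matrix.cons_val] <;>
    apply_rules [BS.add, BS.mul, BS.neg, BS.const, BS.sub]

theorem BV.c0 {u W : ι → ℂ} (hu : BS u) (hW : BS W) : BV fun i => c0 (u i) (W i) := fun r => by
  fin_cases r <;> simp only [Cu.c0, Fin.zero_eta, Fin.mk_one, Fin.reduceFinMk,
    Matrix.cons_val_zero, Matrix.cons_val_one, Matrix.cons_val] <;>
    apply_rules [BS.add, BS.mul, BS.neg, BS.const, BS.sub]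

theorem BV.cu {W : ι → ℂ} (hW : BS W) : BV fun i => cu (W i) := fun r => by
  fin_cases r <;> simp only [Cu.cu, Fin.zero_eta, Fin.mk_one, Fin.reduceFinMk,
    Matrix.cons_val_zero, Matrix.cons_val_one, Matrix.cons_val] <;>
    apply_rules [BS.add, BS.mul, BS.neg, BS.const, BS.sub]

end

theorem qf_vecMul_left (X Y : M6) (x y : Fin 6 → ℂ) : qf X (x ᵥ* Y) y = qf (Y * X) x y := by
  rw [qf, qf, ← dotProduct_mulVec, mulVec_mulVec]

theorem qf_vecMul_right (X Y : M6) (x y : Fin 6 → ℂ) : qf X x (y ᵥ* Y) = qf (X * Yᴴ) x y := by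
  rw [qf, qf, star_vecMul, mulVec_mulVec]

theorem qf_addM (X Y : M6) (x y : Fin 6 → ℂ) : qf (X + Y) x y = qf X x y + qf Y x y := by
  rw [qf, qf, qf, add_mulVec, dotProduct_add]

theorem qf_smulM (r : ℂ) (X : M6) (x y : Fin 6 → ℂ) : qf (r • X) x y = r * qf X x y := by
  rw [qf, qf, smul_mulVec, dotProduct_smul, smul_eq_mul]

theorem A0_cube (a u W : ℂ) :
    A0 a u W * A0 a u W * A0 a u W = (-(3 * a + 1)) • (A0 a u W * A0 a u W) := by
  ext i j
  simp only [Matrix.mul_apply, Fin.sum_univ_six, Matrix.smul_apply, smul_eq_mul]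
  fin_cases i <;> fin_cases j <;> simp [A0] <;> ring

section
variable {a : ℂ} (hn : 3 * a + 1 ≠ 0) (u W : ℂ)
include hn

theorem A_P : A0 a u W * Pm a u W = (-(3 * a + 1)) • Pm a u W := by
  rw [Pm, Matrix.mul_smul, ← Matrix.mul_assoc, A0_cube, smul_comm]

theorem P_A : Pm a u W * A0 a u W = (-(3 * a + 1)) • Pm a u W := by
  rw [Pm, Matrix.smul_mul, A0_cube, smul_comm]

theorem N_eq : Nm a u W = A0 a u W + (3 * a + 1) • Pm a u W := by
  rw [Nm, Pm, smul_smul]
  congr 2
  field_simp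

theorem P_P : Pm a u W * Pm a u W = Pm a u W := by
  nth_rewrite 2 [Pm]
  rw [Matrix.mul_smul, ← Matrix.mul_assoc, P_A hn, Matrix.smul_mul, P_A hn, smul_smul, smul_smul]
  convert one_smul ℂ _
  field_simp

theorem N_P : Nm a u W * Pm a u W = 0 := by
  rw [N_eq hn, Matrix.add_mul, A_P hn, Matrix.smul_mul, P_P hn, ← add_smul]; simp

theorem P_N : Pm a u W * Nm a u W = 0 := by
  rw [N_eq hn, Matrix.mul_add, P_A hn, Matrix.mul_smul, P_P hn, ← add_smul]; simp

theorem A_N : A0 a u W * Nm a u W = 0 := by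
  have h : A0 a u W * A0 a u W = (3 * a + 1) ^ 2 • Pm a u W := by
    rw [Pm, smul_smul, mul_inv_cancel₀ (pow_ne_zero 2 hn), one_smul]
  rw [N_eq hn, Matrix.mul_add, Matrix.mul_smul, A_P hn, h, smul_smul, ← add_smul]
  convert zero_smul ℂ _
  ring

theorem N_N : Nm a u W * Nm a u W = 0 := by
  nth_rewrite 1 [N_eq hn]
  rw [Matrix.add_mul, A_N hn, Matrix.smul_mul, P_N hn]; simp

theorem cs_N : cs u W ᵥ* Nm a u W = a • r1 u W := by
  ext j
  simp only [Nm, vecMul, dotProduct, Matrix.add_apply, Matrix.smul_apply, Matrix.mul_apply,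
    Fin.sum_univ_six, smul_eq_mul, Pi.smul_apply]
  fin_cases j <;> simp [A0, cs, r1] <;> ring

theorem cu_N : cu W ᵥ* Nm a u W = a • r2 W := by
  ext j
  simp only [Nm, vecMul, dotProduct, Matrix.add_apply, Matrix.smul_apply, Matrix.mul_apply,
    Fin.sum_univ_six, smul_eq_mul, Pi.smul_apply]
  fin_cases j <;> simp [A0, cu, r2] <;> ring

theorem N_ff : Nm a u W *ᵥ ff u = a • fn u := by
  ext j
  simp only [Nm, mulVec, dotProduct, Matrix.add_apply, Matrix.smul_apply, Matrix.mul_apply,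
    Fin.sum_univ_six, smul_eq_mul, Pi.smul_apply]
  fin_cases j <;> simp [A0, ff, fn] <;> field_simp <;> ring

end

theorem c0_A (a u W : ℂ) :
    c0 u W ᵥ* A0 a u W = (5 * a + 1) • cs u W - (3 * a + 1) • c0 u W := by
  ext j
  simp only [vecMul, dotProduct, Fin.sum_univ_six, smul_eq_mul, Pi.smul_apply, Pi.sub_apply]
  fin_cases j <;> simp [A0, cs, c0] <;> ring

end

end Pool.Agent.Lib.MP_0c623d_al.BP.Cu.Bn
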