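import Pool.Agent.Lib.MP_0c623d_al.E.Defs

set_option autoImplicit false

/-!
The scalar end of the completeness inequality.
-/

namespace Pool.Agent.Lib.MP_0c623d_al.BP

open Complex Matrix

/-- a lower bound for a binary Hermitian form -/
lemma fin_form {A D b a : ℝ} {B x y : ℂ} (ha : 0 < a) (hA : 2 * a ≤ A) (hB : ‖B‖ ≤ b)
    (hD : a + b ^ 2 / a ≤ D) :
    a * (‖x‖ ^ 2 + ‖y‖ ^ 2) ≤
      A * ‖x‖ ^ 2 + 2 * (x * starRingEnd ℂ y * B).re + D * ‖y‖ ^ 2 := by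
  have h1 : -(‖x‖ * ‖y‖ * b) ≤ (x * starRingEnd ℂ y * B).re := by
    have h2 : |(x * starRingEnd ℂ y * B).re| ≤ ‖x‖ * ‖y‖ * b := by
      refine (Complex.abs_re_le_norm _).trans ?_
      rw [norm_mul, norm_mul, Complex.norm_conj]
      gcongr
    exact (abs_le.mp h2).1
  have h3 : 0 ≤ a * (‖x‖ - b / a * ‖y‖) ^ 2 := by positivity
  have h4 : a * (‖x‖ - b / a * ‖y‖) ^ 2 =
      a * ‖x‖ ^ 2 - 2 * (‖x‖ * ‖y‖ * b) + b ^ 2 / a * ‖y‖ ^ 2 := by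
    field_simp
    ring
  have h5 : 2 * a * ‖x‖ ^ 2 ≤ A * ‖x‖ ^ 2 := by gcongr
  have h6 : (a + b ^ 2 / a) * ‖y‖ ^ 2 ≤ D * ‖y‖ ^ 2 := by gcongr
  linarith

lemma fin_A {K c L d h00 h11 n00 : ℝ} {h10 : ℂ} (hc : 0 < c) (L1 : 1 ≤ L) (d0 : 0 ≤ d)
    (d1 : d * L ^ 2 = K) (l1 : 10 * K ^ 2 ≤ L * c ^ 2) (k00 : |n00| ≤ K) (c00 : c ≤ |n00|)
    (b00 : |h00| ≤ 3 * L * K) (e10 : ‖h10 - n00‖ ≤ d) (e11 : |h11| ≤ d) :
    2 * (c ^ 2 / 4) ≤ ‖h10‖ ^ 2 - h00 * h11 := by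
  have K0 : 0 ≤ K := (abs_nonneg _).trans k00
  have L0 : 0 < L := by linarith
  have h1 : c - d ≤ ‖h10‖ := by
    have h2 := norm_sub_norm_le (n00 : ℂ) h10
    rw [norm_sub_rev, Complex.norm_real, Real.norm_eq_abs] at h2
    linarith
  have h3 : h00 * h11 ≤ 3 * L * K * d := by
    refine (le_abs_self _).trans ?_
    rw [abs_mul]
    gcongr
  have h4 : 5 * (L * K * d) ≤ c ^ 2 / 2 := by
    have h5 : L * (5 * (L * K * d)) ≤ L * (c ^ 2 / 2) := by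
      have : L * (5 * (L * K * d)) = 5 * K * (d * L ^ 2) := by ring
      rw [this, d1]
      linarith
    exact le_of_mul_le_mul_left h5 L0
  have h6 : c * d ≤ L * K * d := by
    have : c ≤ L * K := (c00.trans k00).trans (le_mul_of_one_le_left K0 L1)
    gcongr
  have h7 : c ^ 2 - 2 * (c * d) ≤ ‖h10‖ ^ 2 := by
    rcases le_total d c with h | h
    · have h8 : (c - d) ^ 2 ≤ ‖h10‖ ^ 2 := by
        have : 0 ≤ c - d := by linarith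
        gcongr
      linarith [sq_nonneg d]
    · linarith [sq_nonneg ‖h10‖, mul_le_mul_of_nonneg_left h hc.le, mul_nonneg hc.le d0]
  linarith

lemma fin_B {K L d h00 n00 : ℝ} {h10 h20 h21 n20 : ℂ} (d0 : 0 ≤ d) (d2 : d * L ≤ K)
    (k00 : |n00| ≤ K) (k20 : ‖n20‖ ≤ K) (b00 : |h00| ≤ 3 * L * K) (b20 : ‖h20‖ ≤ 3 * L * K)
    (e00 : |h00 + 2 * L * n00| ≤ K) (e20 : ‖h20 + 2 * L * n20‖ ≤ K) (e10 : ‖h10 - n00‖ ≤ d)
    (e21 : ‖h21 - n20‖ ≤ d) :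
    ‖h10 * starRingEnd ℂ h20 - h00 * starRingEnd ℂ h21‖ ≤ 8 * K ^ 2 := by
  have K0 : 0 ≤ K := (abs_nonneg _).trans k00
  have b0 : 0 ≤ 3 * L * K := (abs_nonneg _).trans b00
  have h1 : h10 * starRingEnd ℂ h20 - h00 * starRingEnd ℂ h21 =
      n00 * starRingEnd ℂ (h20 + 2 * L * n20) -
        ((h00 + 2 * L * n00 : ℝ) : ℂ) * starRingEnd ℂ n20 +
        ((h10 - n00) * starRingEnd ℂ h20 - h00 * starRingEnd ℂ (h21 - n20)) := by
    simp only [map_add, map_sub, map_mul, Complex.conj_ofReal, map_ofNat]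
    push_cast
    ring
  rw [h1]
  refine (norm_add_le _ _).trans ((add_le_add (norm_sub_le _ _) (norm_sub_le _ _)).trans ?_)
  simp only [norm_mul, Complex.norm_conj, Complex.norm_real, Real.norm_eq_abs]
  have t1 : |n00| * ‖h20 + 2 * L * n20‖ ≤ K * K := by gcongr
  have t2 : |h00 + 2 * L * n00| * ‖n20‖ ≤ K * K := by gcongr
  have t3 : ‖h10 - n00‖ * ‖h20‖ ≤ d * (3 * L * K) := by gcongr
  have t4 : |h00| * ‖h21 - n20‖ ≤ 3 * L * K * d := by gcongr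
  have t5 : d * L * K ≤ K * K := by gcongr
  linarith

lemma fin_D {K c L h00 h22 n00 n22 : ℝ} {h20 n20 : ℂ} (hc : 0 < c) (L1 : 1 ≤ L)
    (l2 : 5 * K ^ 2 ≤ L * c) (k00 : |n00| ≤ K) (k20 : ‖n20‖ ≤ K) (k22 : |n22| ≤ K)
    (cd : c ≤ |n00 * n22 - ‖n20‖ ^ 2|) (e00 : |h00 + 2 * L * n00| ≤ K)
    (e20 : ‖h20 + 2 * L * n20‖ ≤ K) (e22 : |h22 + 2 * L * n22| ≤ K) :
    (n00 * n22 - ‖n20‖ ^ 2 < 0 → 2 * L ^ 2 * c ≤ ‖h20‖ ^ 2 - h00 * h22) ∧
      (h00 * h22 ≤ ‖h20‖ ^ 2 → n00 * n22 - ‖n20‖ ^ 2 < 0) := by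
  have K0 : 0 ≤ K := (abs_nonneg _).trans k00
  have L0 : 0 < L := by linarith
  have h1 : ‖h20‖ ^ 2 = ‖h20 + 2 * L * n20‖ ^ 2 -
      4 * L * ((h20 + 2 * L * n20) * starRingEnd ℂ n20).re + 4 * L ^ 2 * ‖n20‖ ^ 2 := by
    simp only [← Complex.normSq_eq_norm_sq, Complex.normSq_apply, Complex.add_re, Complex.add_im,
      Complex.mul_re, Complex.mul_im, Complex.ofReal_re, Complex.ofReal_im, Complex.re_ofNat,
      Complex.im_ofNat, Complex.conj_re, Complex.conj_im]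
    ring
  have h2 : |((h20 + 2 * L * n20) * starRingEnd ℂ n20).re| ≤ K * K := by
    refine (Complex.abs_re_le_norm _).trans ?_
    rw [norm_mul, Complex.norm_conj]
    gcongr
  have h3 : ‖h20 + 2 * L * n20‖ ^ 2 ≤ K ^ 2 := by gcongr
  have h4 : |(h00 + 2 * L * n00) * n22| ≤ K * K := by rw [abs_mul]; gcongr
  have h5 : |n00 * (h22 + 2 * L * n22)| ≤ K * K := by rw [abs_mul]; gcongr
  have h6 : |(h00 + 2 * L * n00) * (h22 + 2 * L * n22)| ≤ K * K := by rw [abs_mul]; gcongr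
  have h7 : h00 * h22 = (h00 + 2 * L * n00) * (h22 + 2 * L * n22) -
      2 * L * ((h00 + 2 * L * n00) * n22) - 2 * L * (n00 * (h22 + 2 * L * n22)) +
      4 * L ^ 2 * (n00 * n22) := by ring
  have h8 : 0 ≤ ‖h20 + 2 * L * n20‖ ^ 2 := by positivity
  have u2 := abs_le.mp h2
  have u4 := abs_le.mp h4
  have u5 := abs_le.mp h5
  have u6 := abs_le.mp h6
  have v0 : K * K ≤ L * (K * K) := le_mul_of_one_le_left (mul_nonneg K0 K0) L1
  have w2 := mul_le_mul_of_nonneg_left u2.1 L0.le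
  have w2' := mul_le_mul_of_nonneg_left u2.2 L0.le
  have w4 := mul_le_mul_of_nonneg_left u4.1 L0.le
  have w4' := mul_le_mul_of_nonneg_left u4.2 L0.le
  have w5 := mul_le_mul_of_nonneg_left u5.1 L0.le
  have w5' := mul_le_mul_of_nonneg_left u5.2 L0.le
  have v1 := mul_le_mul_of_nonneg_left l2 L0.le
  have v3 : 0 < L ^ 2 * c := by positivity
  have v4 : 0 < 4 * L ^ 2 := by positivity
  generalize ((h20 + 2 * L * n20) * starRingEnd ℂ n20).re = t2 at *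
  generalize (h00 + 2 * L * n00) * n22 = t4 at *
  generalize n00 * (h22 + 2 * L * n22) = t5 at *
  generalize (h00 + 2 * L * n00) * (h22 + 2 * L * n22) = t6 at *
  generalize ‖h20 + 2 * L * n20‖ ^ 2 = t1 at *
  generalize h00 * h22 = t7 at *
  generalize ‖h20‖ ^ 2 = t8 at *
  constructor
  · intro h
    rw [abs_of_neg h] at cd
    have := mul_le_mul_of_nonneg_left cd v4.le
    linarith
  · intro h
    by_contra h'
    rw [abs_of_nonneg (not_lt.mp h')] at cd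
    have := mul_le_mul_of_nonneg_left cd v4.le
    linarith

/-- the scalar inequality -/
theorem fin_scalar (K c : ℝ) (hc : 0 < c) : ∃ C L1 : ℝ, 1 ≤ L1 ∧
    ∀ (L h00 h11 h22 n00 n22 : ℝ) (h10 h20 h21 n20 : ℂ), L1 ≤ L →
      |n00| ≤ K → ‖n20‖ ≤ K → |n22| ≤ K → c ≤ |n00| → c ≤ |n00 * n22 - ‖n20‖ ^ 2| →
      |h00 + 2 * L * n00| ≤ K → ‖h20 + 2 * L * n20‖ ≤ K → |h22 + 2 * L * n22| ≤ K →
      ‖h10 - n00‖ ≤ K / L ^ 2 → ‖h21 - n20‖ ≤ K / L ^ 2 → |h11| ≤ K / L ^ 2 →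
      h00 * h22 ≤ ‖h20‖ ^ 2 → ∀ x y : ℂ,
      (‖x‖ ^ 2 + ‖y‖ ^ 2) * h00 ^ 2 ≤ C * L ^ 2 * (‖x * h10 + y * h20‖ ^ 2 -
        h00 * (‖x‖ ^ 2 * h11 + 2 * (x * starRingEnd ℂ y * starRingEnd ℂ h21).re +
          ‖y‖ ^ 2 * h22)) := by
  obtain ⟨a, ha⟩ : ∃ a : ℝ, a = c ^ 2 / 4 := ⟨_, rfl⟩
  have a0 : 0 < a := by rw [ha]; positivity
  obtain ⟨M, hM⟩ : ∃ M : ℝ, M = a + (8 * K ^ 2) ^ 2 / a := ⟨_, rfl⟩
  have M0 : 0 ≤ M := by rw [hM]; positivity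
  have p1 : 0 ≤ 10 * K ^ 2 / c ^ 2 := by positivity
  have p2 : 0 ≤ 5 * K ^ 2 / c := by positivity
  have p3 : 0 ≤ M / c := by positivity
  refine ⟨9 * K ^ 2 / a, 1 + 10 * K ^ 2 / c ^ 2 + 5 * K ^ 2 / c + M / c, by linarith, ?_⟩
  intro L h00 h11 h22 n00 n22 h10 h20 h21 n20 hL k00 k20 k22 c00 cd e00 e20 e22 e10 e21 e11 hs x y
  have K0 : 0 ≤ K := (abs_nonneg _).trans k00
  have L1 : 1 ≤ L := by linarith
  have L0 : 0 < L := by linarith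
  have l1 : 10 * K ^ 2 ≤ L * c ^ 2 := (div_le_iff₀ (by positivity)).mp (by linarith)
  have l2 : 5 * K ^ 2 ≤ L * c := (div_le_iff₀ hc).mp (by linarith)
  have l3 : M ≤ L * c := (div_le_iff₀ hc).mp (by linarith)
  obtain ⟨d, hd⟩ : ∃ d : ℝ, d = K / L ^ 2 := ⟨_, rfl⟩
  rw [← hd] at e10 e21 e11
  have d0 : 0 ≤ d := by rw [hd]; positivity
  have d1 : d * L ^ 2 = K := by rw [hd]; field_simp
  have d2 : d * L ≤ K := by
    rw [← d1, sq, ← mul_assoc]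
    exact le_mul_of_one_le_right (mul_nonneg d0 L0.le) L1
  have LK : K ≤ L * K := le_mul_of_one_le_left K0 L1
  have b00 : |h00| ≤ 3 * L * K := by
    have h1 : |h00| ≤ |h00 + 2 * L * n00| + |2 * L * n00| := by
      simpa using abs_sub (h00 + 2 * L * n00) (2 * L * n00)
    have h2 : |2 * L * n00| ≤ 2 * L * K := by
      rw [abs_mul, abs_of_pos (by positivity : 0 < 2 * L)]; gcongr
    linarith
  have b20 : ‖h20‖ ≤ 3 * L * K := by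
    have h1 : ‖h20‖ ≤ ‖h20 + 2 * L * n20‖ + ‖2 * L * n20‖ := by
      simpa using norm_sub_le (h20 + 2 * L * n20) (2 * L * n20)
    have h2 : ‖2 * (L : ℂ) * n20‖ ≤ 2 * L * K := by
      rw [norm_mul, norm_mul, Complex.norm_real, Real.norm_of_nonneg L0.le, Complex.norm_two]
      gcongr
    linarith
  have hA := fin_A hc L1 d0 d1 l1 k00 c00 b00 e10 e11
  have hB := fin_B d0 d2 k00 k20 b00 b20 e00 e20 e10 e21
  have hD := fin_D hc L1 l2 k00 k20 k22 cd e00 e20 e22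
  have hD' : M ≤ ‖h20‖ ^ 2 - h00 * h22 := by
    have h1 := hD.1 (hD.2 hs)
    have h2 : L * c ≤ L * (L * c) := le_mul_of_one_le_left (by positivity) L1
    have h3 : 0 < L * c := by positivity
    linarith
  rw [← ha] at hA
  have hF := fin_form (x := x) (y := y) a0 hA hB (hM ▸ hD')
  have hE : ‖x * h10 + y * h20‖ ^ 2 - h00 * (‖x‖ ^ 2 * h11 +
      2 * (x * starRingEnd ℂ y * starRingEnd ℂ h21).re + ‖y‖ ^ 2 * h22) =
      (‖h10‖ ^ 2 - h00 * h11) * ‖x‖ ^ 2 + 2 * (x * starRingEnd ℂ y *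
        (h10 * starRingEnd ℂ h20 - h00 * starRingEnd ℂ h21)).re +
        (‖h20‖ ^ 2 - h00 * h22) * ‖y‖ ^ 2 := by
    simp only [← Complex.normSq_eq_norm_sq, Complex.normSq_apply, Complex.add_re, Complex.add_im,
      Complex.sub_re, Complex.sub_im, Complex.mul_re, Complex.mul_im, Complex.ofReal_re,
      Complex.ofReal_im, Complex.conj_re, Complex.conj_im]
    ring
  rw [hE]
  have h1 : h00 ^ 2 ≤ (3 * L * K) ^ 2 := by
    rw [← sq_abs h00]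
    gcongr
  calc (‖x‖ ^ 2 + ‖y‖ ^ 2) * h00 ^ 2 ≤ (‖x‖ ^ 2 + ‖y‖ ^ 2) * (3 * L * K) ^ 2 := by gcongr
    _ = 9 * K ^ 2 / a * L ^ 2 * (a * (‖x‖ ^ 2 + ‖y‖ ^ 2)) := by field_simp; ring
    _ ≤ _ := by gcongr

lemma fin_conj {H : M6} (hH : Hᴴ = H) (x y : Fin 6 → ℂ) :
    qf H x y = starRingEnd ℂ (qf H y x) := by
  have h : ∀ i j, starRingEnd ℂ (H j i) = H i j := fun i j => by
    simpa using congrFun (congrFun hH i) j
  simp only [qf, dotProduct, mulVec, map_sum, map_mul, Finset.mul_sum, Pi.star_apply,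
    RCLike.star_def, Complex.conj_conj, h]
  rw [Finset.sum_comm]
  exact Finset.sum_congr rfl fun i _ => Finset.sum_congr rfl fun j _ => by ring

lemma fin_left (H : M6) (x y : ℂ) (u v w : Fin 6 → ℂ) :
    qf H (x • u + y • v) w = x * qf H u w + y * qf H v w := by
  simp [qf]

lemma fin_right (H : M6) (x y : ℂ) (u v w : Fin 6 → ℂ) :
    qf H w (x • u + y • v) = starRingEnd ℂ x * qf H w u + starRingEnd ℂ y * qf H w v := by
  simp [qf, mulVec_add, mulVec_smul]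

/-- the inequality for a Hermitian matrix and three rows -/
theorem fin_qf (K c : ℝ) (hc : 0 < c) : ∃ C L1 : ℝ, 1 ≤ L1 ∧
    ∀ (L n00 n22 : ℝ) (n20 : ℂ) (H : M6) (c0 c1 c2 : Fin 6 → ℂ), Hᴴ = H → L1 ≤ L →
      |n00| ≤ K → ‖n20‖ ≤ K → |n22| ≤ K → c ≤ |n00| → c ≤ |n00 * n22 - ‖n20‖ ^ 2| →
      ‖qf H c0 c0 + 2 * L * n00‖ ≤ K → ‖qf H c2 c0 + 2 * L * n20‖ ≤ K →
      ‖qf H c2 c2 + 2 * L * n22‖ ≤ K → ‖qf H c1 c0 - n00‖ ≤ K / L ^ 2 →
      ‖qf H c2 c1 - n20‖ ≤ K / L ^ 2 → ‖qf H c1 c1‖ ≤ K / L ^ 2 →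
      (qf H c0 c0).re * (qf H c2 c2).re ≤ ‖qf H c0 c2‖ ^ 2 → ∀ x y : ℂ,
      (‖x‖ ^ 2 + ‖y‖ ^ 2) * (qf H c0 c0).re ^ 2 ≤ C * L ^ 2 *
        (‖qf H c0 (x • c1 + y • c2)‖ ^ 2 -
          (qf H c0 c0).re * (qf H (x • c1 + y • c2) (x • c1 + y • c2)).re) := by
  obtain ⟨C, L1, h1, h⟩ := fin_scalar K c hc
  refine ⟨C, L1, h1, fun L n00 n22 n20 H c0 c1 c2 hH hL k00 k20 k22 c00 cd e00 e20 e22 e10 e21
    e11 hs x y => ?_⟩
  have r : ∀ (z : ℂ) (n : ℝ), |z.re + 2 * L * n| ≤ ‖z + 2 * L * n‖ := fun z n => by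
    simpa using Complex.abs_re_le_norm (z + 2 * L * n)
  rw [fin_conj hH c0 c2, Complex.norm_conj] at hs
  have k := h L (qf H c0 c0).re (qf H c1 c1).re (qf H c2 c2).re n00 n22 (qf H c1 c0) (qf H c2 c0)
    (qf H c2 c1) n20 hL k00 k20 k22 c00 cd ((r _ _).trans e00) e20 ((r _ _).trans e22) e10 e21
    ((Complex.abs_re_le_norm _).trans e11) hs x y
  have e : (qf H (x • c1 + y • c2) (x • c1 + y • c2)).re = ‖x‖ ^ 2 * (qf H c1 c1).re +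
      2 * (x * starRingEnd ℂ y * starRingEnd ℂ (qf H c2 c1)).re + ‖y‖ ^ 2 * (qf H c2 c2).re := by
    rw [fin_left, fin_right, fin_right, fin_conj hH c1 c2]
    simp only [← Complex.normSq_eq_norm_sq, Complex.normSq_apply, Complex.add_re, Complex.add_im,
      Complex.mul_re, Complex.mul_im, Complex.conj_re, Complex.conj_im]
    ring
  rw [fin_conj hH c0 (x • c1 + y • c2), Complex.norm_conj, fin_left, e]
  exact k

end Pool.Agent.Lib.MP_0c623d_al.BP
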