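import Mathlib
import Pool.Agent.Lib.MP_0c623d_al.E.Bnd
import Pool.Agent.Lib.MP_0c623d_al.E.Fin
import Pool.Agent.Lib.MP_0c623d_al.E.Red

set_option autoImplicit false

/-!
Exact formulas for the limit form at a triple collision.
-/

namespace Pool.Agent.Lib.MP_0c623d_al.BP.Cu.Bn

open Complex Matrix

noncomputable section

variable {a u W : ℂ} {K : ℝ} {G J : M6}

theorem pg' (h : Lim a u W K G J) : Pm a u W * G * (1 - Pm a u W)ᴴ = 0 := by
  have := congrArg conjTranspose h.pg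
  rwa [conjTranspose_mul, conjTranspose_mul, conjTranspose_conjTranspose, h.herm,
    conjTranspose_zero, ← Matrix.mul_assoc] at this

theorem ngp (hn : 3 * a + 1 ≠ 0) (h : Lim a u W K G J) : Nm a u W * G * (Pm a u W)ᴴ = 0 := by
  rw [h.ng, Matrix.mul_assoc, ← conjTranspose_mul, P_N hn, conjTranspose_zero, Matrix.mul_zero]

theorem ngn (hn : 3 * a + 1 ≠ 0) (h : Lim a u W K G J) : Nm a u W * G * (Nm a u W)ᴴ = 0 := by
  rw [h.ng, Matrix.mul_assoc, ← conjTranspose_mul, N_N hn, conjTranspose_zero, Matrix.mul_zero]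

theorem png (hn : 3 * a + 1 ≠ 0) : Pm a u W * (Nm a u W * G) = 0 := by
  rw [← Matrix.mul_assoc, P_N hn, Matrix.zero_mul]

/-- the main term -/
theorem main_eq (hn : 3 * a + 1 ≠ 0) (h : Lim a u W K G J) (L : ℝ) :
    Em a u W (-L) * G * (Em a u W (-L))ᴴ =
      (1 - Pm a u W) * G * (1 - Pm a u W)ᴴ + (-2 * L : ℂ) • (Nm a u W * G) +
        (exp ((3 * a + 1) * L) * star (exp ((3 * a + 1) * L))) •
          (Pm a u W * G * (Pm a u W)ᴴ) := by
  have e : -(3 * a + 1) * -(L : ℂ) = (3 * a + 1) * L := by ring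
  have h1 : (1 - Pm a u W) * G * (Nm a u W)ᴴ = Nm a u W * G := by
    rw [Matrix.mul_assoc, ← h.ng, Matrix.sub_mul, Matrix.one_mul, png hn, sub_zero]
  have h2 : Nm a u W * G * (1 - Pm a u W)ᴴ = Nm a u W * G := by
    rw [conjTranspose_sub, conjTranspose_one, Matrix.mul_sub, Matrix.mul_one, ngp hn h, sub_zero]
  have h3 : Pm a u W * G * (Nm a u W)ᴴ = 0 := by
    rw [Matrix.mul_assoc, ← h.ng, png hn]
  have hL : star (-(L : ℂ)) = -(L : ℂ) := by simp
  rw [Em, e]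
  generalize exp ((3 * a + 1) * L) = ε
  generalize hQ : 1 - Pm a u W = Q at *
  have h4 := h.pg
  have h5 := pg' h
  rw [hQ] at h4 h5
  simp only [conjTranspose_add, conjTranspose_smul, Matrix.add_mul, Matrix.mul_add,
    Matrix.smul_mul, Matrix.mul_smul, h1, h2, h3, h4, h5, ngp hn h, ngn hn h, smul_zero, add_zero,
    zero_add, hL, smul_smul]
  module

theorem A_main (hn : 3 * a + 1 ≠ 0) (h : Lim a u W K G J) (p q : ℂ) :
    A0 a u W * ((1 - Pm a u W) * G * (1 - Pm a u W)ᴴ + p • (Nm a u W * G) +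
      q • (Pm a u W * G * (Pm a u W)ᴴ)) =
      Nm a u W * G + (-(3 * a + 1) * q) • (Pm a u W * G * (Pm a u W)ᴴ) := by
  have h2 : Nm a u W * G * (1 - Pm a u W)ᴴ = Nm a u W * G := by
    rw [conjTranspose_sub, conjTranspose_one, Matrix.mul_sub, Matrix.mul_one, ngp hn h, sub_zero]
  have h1 : A0 a u W * (1 - Pm a u W) = Nm a u W := by
    rw [Matrix.mul_sub, Matrix.mul_one, A_P hn, N_eq hn]; module
  simp only [Matrix.mul_add, Matrix.mul_smul, ← Matrix.mul_assoc, h1, h2, A_N hn, A_P hn,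
    Matrix.zero_mul, smul_zero, add_zero, Matrix.smul_mul, smul_smul, mul_comm q]

theorem ng_herm (h : Lim a u W K G J) : (Nm a u W * G)ᴴ = Nm a u W * G := by
  rw [conjTranspose_mul, h.herm, h.ng]

theorem ng_A (hn : 3 * a + 1 ≠ 0) (h : Lim a u W K G J) : Nm a u W * G * (A0 a u W)ᴴ = 0 := by
  have : Nm a u W * A0 a u W = 0 := by
    have h1 : A0 a u W = Nm a u W - (3 * a + 1) • Pm a u W := by rw [N_eq hn]; module
    nth_rewrite 1 [h1]
    rw [Matrix.mul_sub, N_N hn, Matrix.mul_smul, N_P hn]; simp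
  rw [h.ng, Matrix.mul_assoc, ← conjTranspose_mul, A_N hn, conjTranspose_zero, Matrix.mul_zero]

theorem qf_sub_left (X : M6) (p q : ℂ) (x x' y : Fin 6 → ℂ) :
    qf X (p • x - q • x') y = p * qf X x y - q * qf X x' y := by
  simp only [qf, sub_dotProduct, smul_dotProduct, smul_eq_mul]

theorem qf_smul_left (X : M6) (p : ℂ) (x y : Fin 6 → ℂ) : qf X (p • x) y = p * qf X x y := by
  simp only [qf, smul_dotProduct, smul_eq_mul]

/-- the period vector and the radial derivative have proportional pairings -/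
theorem c0_ng (hn : 3 * a + 1 ≠ 0) (y : Fin 6 → ℂ) :
    qf (Nm a u W * G) (c0 u W) y = (5 * a + 1) / (3 * a + 1) * qf (Nm a u W * G) (cs u W) y := by
  have h1 : qf (Nm a u W * G) (c0 u W ᵥ* A0 a u W) y = 0 := by
    rw [qf_vecMul_left, ← Matrix.mul_assoc, A_N hn, Matrix.zero_mul]; simp [qf]
  rw [c0_A, qf_sub_left] at h1
  rw [div_mul_eq_mul_div, eq_div_iff hn]
  linear_combination -h1

theorem cs_ng (hn : 3 * a + 1 ≠ 0) (h : Lim a u W K G J) (y : Fin 6 → ℂ) :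
    qf (Nm a u W * G) (cs u W) y = a * star (qf G y (r1 u W)) := by
  rw [← qf_vecMul_left, cs_N hn, qf_smul_left, Red.qf_conj h.herm]

theorem cu_ng (hn : 3 * a + 1 ≠ 0) (h : Lim a u W K G J) (y : Fin 6 → ℂ) :
    qf (Nm a u W * G) (cu W) y = a * star (qf G y (r2 W)) := by
  rw [← qf_vecMul_left, cu_N hn u, qf_smul_left, Red.qf_conj h.herm]

theorem n00_norm (hn : 3 * a + 1 ≠ 0) (h : Lim a u W K G J) :
    ‖qf (Nm a u W * G) (c0 u W) (c0 u W)‖ =
      ‖(5 * a + 1) / (3 * a + 1)‖ ^ 2 * ‖a‖ * ‖qf G (cs u W) (r1 u W)‖ := by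
  rw [c0_ng hn, Red.qf_conj (ng_herm h) (c0 u W) (cs u W), c0_ng hn, cs_ng hn h]
  simp only [norm_mul, norm_star]; ring

theorem det_norm (hn : 3 * a + 1 ≠ 0) (h : Lim a u W K G J) :
    ‖qf (Nm a u W * G) (c0 u W) (c0 u W) * qf (Nm a u W * G) (cu W) (cu W) -
      qf (Nm a u W * G) (cu W) (c0 u W) * star (qf (Nm a u W * G) (cu W) (c0 u W))‖ =
      ‖(5 * a + 1) / (3 * a + 1)‖ ^ 2 * ‖a‖ ^ 2 *
        ‖qf G (cs u W) (r1 u W) * qf G (cu W) (r2 W) -
          qf G (cs u W) (r2 W) * qf G (cu W) (r1 u W)‖ := by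
  have e1 : qf (Nm a u W * G) (c0 u W) (c0 u W) = (5 * a + 1) / (3 * a + 1) *
      star ((5 * a + 1) / (3 * a + 1)) * (a * star (qf G (cs u W) (r1 u W))) := by
    rw [c0_ng hn, Red.qf_conj (ng_herm h) (c0 u W) (cs u W), c0_ng hn, star_mul',
      ← Red.qf_conj (ng_herm h), cs_ng hn h]; ring
  have e2 : qf (Nm a u W * G) (cu W) (c0 u W) =
      star ((5 * a + 1) / (3 * a + 1)) * (a * star (qf G (cs u W) (r2 W))) := by
    rw [Red.qf_conj (ng_herm h) (c0 u W) (cu W), c0_ng hn, star_mul',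
      ← Red.qf_conj (ng_herm h), cu_ng hn h]
  have e3 : star (qf (Nm a u W * G) (cu W) (c0 u W)) =
      (5 * a + 1) / (3 * a + 1) * (a * star (qf G (cu W) (r1 u W))) := by
    rw [← Red.qf_conj (ng_herm h), c0_ng hn, cs_ng hn h]
  rw [e3, e1, e2, cu_ng hn h, ← norm_star (qf G (cs u W) (r1 u W) * qf G (cu W) (r2 W) - _),
    star_sub, star_mul', star_mul']
  generalize (5 * a + 1) / (3 * a + 1) = d
  have : d * star d * (a * star (qf G (cs u W) (r1 u W))) * (a * star (qf G (cu W) (r2 W))) -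
      star d * (a * star (qf G (cs u W) (r2 W))) * (d * (a * star (qf G (cu W) (r1 u W)))) =
      d * star d * a ^ 2 * (star (qf G (cs u W) (r1 u W)) * star (qf G (cu W) (r2 W)) -
        star (qf G (cs u W) (r2 W)) * star (qf G (cu W) (r1 u W))) := by ring
  rw [this]
  simp only [norm_mul, norm_star, norm_pow]; ring

theorem j_herm (h : Lim a u W K G J) : Jᴴ = J := by
  have h1 := congrArg conjTranspose h.gj
  rw [conjTranspose_mul, h.herm, conjTranspose_one] at h1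
  calc Jᴴ = Jᴴ * (G * J) := by rw [h.gj, Matrix.mul_one]
    _ = J := by rw [← Matrix.mul_assoc, h1, Matrix.one_mul]

theorem nj (h : Lim a u W K G J) : (Nm a u W)ᴴ * J = J * Nm a u W := by
  calc (Nm a u W)ᴴ * J = J * G * (Nm a u W)ᴴ * J := by rw [h.jg, Matrix.one_mul]
    _ = J * (Nm a u W * G) * J := by rw [h.ng, Matrix.mul_assoc J]
    _ = J * Nm a u W := by
      rw [Matrix.mul_assoc, Matrix.mul_assoc, h.gj, Matrix.mul_one]

theorem fn_null (hn : 3 * a + 1 ≠ 0) (ha : a ≠ 0) (h : Lim a u W K G J) :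
    star (fn u) ⬝ᵥ J *ᵥ fn u = 0 := by
  have h1 : star (Nm a u W *ᵥ ff u) ⬝ᵥ J *ᵥ (Nm a u W *ᵥ ff u) = 0 := by
    rw [star_mulVec, ← dotProduct_mulVec, mulVec_mulVec, mulVec_mulVec, nj h, Matrix.mul_assoc,
      N_N hn, Matrix.mul_zero, zero_mulVec, dotProduct_zero]
  rw [N_ff hn, star_smul, mulVec_smul, smul_dotProduct, dotProduct_smul, smul_eq_mul,
    smul_eq_mul] at h1
  simpa [ha] using h1

/-- the logarithmic lower bound passes to the limit form -/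
theorem low_lim (hn : 3 * a + 1 ≠ 0) (ha : a ≠ 0) (ha' : ‖a‖ ≤ 1 / 2) (h : Lim a u W K G J)
    {c L0 K' : ℝ} (hc : 0 < c) (v : ℝ → ℂ) (h1 : ∀ L : ℝ, L0 ≤ L → c * L ≤ (v L).re)
    (h2 : ∀ L : ℝ, 1 ≤ L → ‖v L - star (ff u + ((L : ℂ) * a) • fn u) ⬝ᵥ J *ᵥ
      (ff u + ((L : ℂ) * a) • fn u)‖ ≤ K' * Real.exp (-L / 8)) :
    c / 2 ≤ ‖star (ff u) ⬝ᵥ J *ᵥ fn u‖ := by
  obtain ⟨m, hm⟩ : ∃ m, m = ‖star (ff u) ⬝ᵥ J *ᵥ ff u‖ := ⟨_, rfl⟩
  obtain ⟨L, hL0, hL1, hL2⟩ : ∃ L : ℝ, L0 ≤ L ∧ 1 ≤ L ∧ 2 * (m + |K'|) / c ≤ L :=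
    ⟨max L0 (max 1 (2 * (m + |K'|) / c)), le_max_left _ _,
      (le_max_left _ _).trans (le_max_right _ _), (le_max_right _ _).trans (le_max_right _ _)⟩
  have e0 : star (fn u) ⬝ᵥ J *ᵥ ff u = star (star (ff u) ⬝ᵥ J *ᵥ fn u) := by
    rw [star_dotProduct, star_mulVec, j_herm h, dotProduct_mulVec]
  have e1 : star (ff u + ((L : ℂ) * a) • fn u) ⬝ᵥ J *ᵥ (ff u + ((L : ℂ) * a) • fn u) =
      star (ff u) ⬝ᵥ J *ᵥ ff u + (L * a) * (star (ff u) ⬝ᵥ J *ᵥ fn u) +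
        star ((L : ℂ) * a) * star (star (ff u) ⬝ᵥ J *ᵥ fn u) := by
    rw [← e0]
    simp only [star_add, star_smul, mulVec_add, mulVec_smul, add_dotProduct, dotProduct_add,
      smul_dotProduct, dotProduct_smul, smul_eq_mul, fn_null hn ha h]
    ring
  have h3 := h2 L hL1
  rw [e1] at h3
  generalize star (ff u) ⬝ᵥ J *ᵥ fn u = q at *
  generalize star (ff u) ⬝ᵥ J *ᵥ ff u = p at *
  have hL : 0 ≤ L := by linarith
  have n1 : ‖(L : ℂ) * a * q‖ ≤ L / 2 * ‖q‖ := by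
    rw [norm_mul, norm_mul, Complex.norm_real, Real.norm_of_nonneg hL]
    gcongr
    nlinarith
  have n2 : ‖star ((L : ℂ) * a) * star q‖ ≤ L / 2 * ‖q‖ := by rwa [← star_mul', norm_star]
  have n3 : K' * Real.exp (-L / 8) ≤ |K'| := by
    have : Real.exp (-L / 8) ≤ 1 := Real.exp_le_one_iff.2 (by linarith)
    nlinarith [le_abs_self K', abs_nonneg K', Real.exp_pos (-L / 8)]
  have n4 : ‖v L‖ ≤ |K'| + (m + L / 2 * ‖q‖ + L / 2 * ‖q‖) := by
    calc ‖v L‖ ≤ ‖v L - (p + L * a * q + star ((L : ℂ) * a) * star q)‖ +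
        ‖p + L * a * q + star ((L : ℂ) * a) * star q‖ := norm_le_norm_sub_add _ _
      _ ≤ _ := add_le_add (h3.trans n3) ((norm_add₃_le).trans (by rw [hm]; gcongr))
  have n5 := (h1 L hL0).trans ((Complex.re_le_norm _).trans n4)
  rw [div_le_iff₀ hc] at hL2
  have : L * (c / 2) ≤ L * ‖q‖ := by nlinarith
  exact le_of_mul_le_mul_left this (by linarith)

end

end Pool.Agent.Lib.MP_0c623d_al.BP.Cu.Bn
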