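import Mathlib
import Pool.Agent.Lib.MP_0c623d_al.E.Cusp1
import Pool.Agent.Lib.MP_0c623d_al.E.Root
import Pool.Agent.Lib.MP_0c623d_al.E.Mat2
import Pool.Agent.Lib.MP_0c623d_al.E.Log

set_option autoImplicit false

/-!
The lower bound of the metric at a triple collision.
-/

namespace Pool.Agent.Lib.MP_0c623d_al.BP.Cu.Bn

open Complex Matrix

noncomputable section

theorem sq_exp (c : ℝ) (hc : 0 < c) : ∃ C : ℝ, ∀ L : ℝ, 0 ≤ L → L ^ 2 * Real.exp (-(c * L)) ≤ C := by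
  refine ⟨2 / c ^ 2, fun L hL => ?_⟩
  have h := Real.pow_div_factorial_le_exp (c * L) (by positivity) 2
  rw [Real.exp_neg, ← div_eq_mul_inv, div_le_div_iff₀ (Real.exp_pos _) (by positivity)]
  norm_num [Nat.factorial] at h
  nlinarith

theorem qf_Ht (e : ℝ) (Hk : Cf → M6) (s u W : ℂ) (x y : Fin 6 → ℂ) :
    qf (Ht e Hk s u W) x y = ((‖s‖ ^ (1 - 6 * e) : ℝ) : ℂ) *
      qf (Hk (ch s (u * W ^ 2))) (x ᵥ* Tm s u W) (y ᵥ* Tm s u W) := by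
  rw [Ht, qf_smulM, qf_vecMul_left, qf_vecMul_right]

/-- the six estimates -/
theorem six {a : ℂ} (hn : 3 * a + 1 ≠ 0) (hre : (3 * a + 1).re ≤ -(1 / 8)) (K : ℝ) :
    ∃ K' : ℝ, ∀ (u W : ℂ) (G J H : M6) (L : ℝ), ‖u‖ ≤ 2 → ‖W‖ ≤ 2 → 1 ≤ L → Lim a u W K G J →
      Bd (H - Em a u W (-L) * G * (Em a u W (-L))ᴴ) (K * Real.exp (-L / 8)) →
      ‖qf (Nm a u W * G) (c0 u W) (c0 u W)‖ ≤ K' ∧ ‖qf (Nm a u W * G) (cu W) (c0 u W)‖ ≤ K' ∧
      ‖qf (Nm a u W * G) (cu W) (cu W)‖ ≤ K' ∧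
      ‖qf H (c0 u W) (c0 u W) + 2 * L * qf (Nm a u W * G) (c0 u W) (c0 u W)‖ ≤ K' ∧
      ‖qf H (cu W) (c0 u W) + 2 * L * qf (Nm a u W * G) (cu W) (c0 u W)‖ ≤ K' ∧
      ‖qf H (cu W) (cu W) + 2 * L * qf (Nm a u W * G) (cu W) (cu W)‖ ≤ K' ∧
      ‖qf H (c0 u W ᵥ* A0 a u W) (c0 u W) - qf (Nm a u W * G) (c0 u W) (c0 u W)‖ ≤ K' / L ^ 2 ∧
      ‖qf H (cu W) (c0 u W ᵥ* A0 a u W) - qf (Nm a u W * G) (cu W) (c0 u W)‖ ≤ K' / L ^ 2 ∧
      ‖qf H (c0 u W ᵥ* A0 a u W) (c0 u W ᵥ* A0 a u W)‖ ≤ K' / L ^ 2 := by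
  let ι := {p : ℂ × ℂ × M6 × M6 × M6 × ℝ // ‖p.1‖ ≤ 2 ∧ ‖p.2.1‖ ≤ 2 ∧ 1 ≤ p.2.2.2.2.2 ∧
    Lim a p.1 p.2.1 K p.2.2.1 p.2.2.2.1 ∧ Bd (p.2.2.2.2.1 - Em a p.1 p.2.1 (-p.2.2.2.2.2) *
      p.2.2.1 * (Em a p.1 p.2.1 (-p.2.2.2.2.2))ᴴ) (K * Real.exp (-p.2.2.2.2.2 / 8))}
  obtain ⟨u, hu⟩ : ∃ u : ι → ℂ, ∀ i, u i = i.1.1 := ⟨_, fun _ => rfl⟩
  obtain ⟨W, hW⟩ : ∃ W : ι → ℂ, ∀ i, W i = i.1.2.1 := ⟨_, fun _ => rfl⟩
  obtain ⟨G, hG⟩ : ∃ G : ι → M6, ∀ i, G i = i.1.2.2.1 := ⟨_, fun _ => rfl⟩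
  obtain ⟨J, hJ⟩ : ∃ J : ι → M6, ∀ i, J i = i.1.2.2.2.1 := ⟨_, fun _ => rfl⟩
  obtain ⟨H, hH⟩ : ∃ H : ι → M6, ∀ i, H i = i.1.2.2.2.2.1 := ⟨_, fun _ => rfl⟩
  obtain ⟨L, hL⟩ : ∃ L : ι → ℝ, ∀ i, L i = i.1.2.2.2.2.2 := ⟨_, fun _ => rfl⟩
  have h1 : ∀ i, ‖u i‖ ≤ 2 ∧ ‖W i‖ ≤ 2 ∧ 1 ≤ L i ∧ Lim a (u i) (W i) K (G i) (J i) ∧
      Bd (H i - Em a (u i) (W i) (-L i) * G i * (Em a (u i) (W i) (-L i))ᴴ)
        (K * Real.exp (-L i / 8)) := fun i => by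
    rw [hu, hW, hG, hJ, hH, hL]; exact i.2
  have bu : BS u := ⟨2, fun i => (h1 i).1⟩
  have bW : BS W := ⟨2, fun i => (h1 i).2.1⟩
  have bG : BM G := BM.of_bd fun i => (h1 i).2.2.2.1.bg
  have bA := BM.A0 a bu bW
  have bP : BM fun i => Pm a (u i) (W i) := BM.smul (BS.const _) (bA.mul bA)
  have bN : BM fun i => Nm a (u i) (W i) := bA.add (BM.smul (BS.const _) (bA.mul bA))
  have bQ : BM fun i => 1 - Pm a (u i) (W i) := (BM.const 1).sub bP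
  have b0 := BV.c0 bu bW
  have b2 := BV.cu bW
  obtain ⟨C, hC⟩ := sq_exp (1 / 8) (by norm_num)
  obtain ⟨D, hD⟩ : ∃ D : ι → M6, ∀ i, D i =
      H i - Em a (u i) (W i) (-L i) * G i * (Em a (u i) (W i) (-L i))ᴴ := ⟨_, fun _ => rfl⟩
  obtain ⟨q, hq⟩ : ∃ q : ι → ℂ, ∀ i, q i =
      exp ((3 * a + 1) * L i) * star (exp ((3 * a + 1) * L i)) := ⟨_, fun _ => rfl⟩
  have L0 : ∀ i, 0 ≤ L i := fun i => zero_le_one.trans (h1 i).2.2.1
  have nL : ∀ i, ‖((L i : ℂ)) ^ 2‖ = L i ^ 2 := fun i => by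
    rw [norm_pow, Complex.norm_real, Real.norm_of_nonneg (L0 i)]
  have bD2 : BM fun i => ((L i : ℂ) ^ 2) • D i := BM.of_bd (K := |K| * C) fun i r c => by
    have h2 := (h1 i).2.2.2.2 r c
    have h3 := hC (L i) (L0 i)
    rw [← hD, show -L i / 8 = -(1 / 8 * L i) by ring] at h2
    rw [Matrix.smul_apply, smul_eq_mul, norm_mul, nL]
    have h4 := Real.exp_pos (-(1 / 8 * L i))
    calc L i ^ 2 * ‖D i r c‖ ≤ L i ^ 2 * (|K| * Real.exp (-(1 / 8 * L i))) := by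
          gcongr; exact h2.trans (by gcongr; exact le_abs_self K)
      _ = |K| * (L i ^ 2 * Real.exp (-(1 / 8 * L i))) := by ring
      _ ≤ _ := by gcongr
  have bq2 : BS fun i => (L i : ℂ) ^ 2 * q i := ⟨C, fun i => by
    rw [norm_mul, nL, hq, norm_mul, norm_star, Complex.norm_exp, ← Real.exp_add]
    refine le_trans ?_ (hC (L i) (L0 i))
    gcongr
    rw [Complex.re_mul_ofReal]
    nlinarith [L0 i]⟩
  have bi : BS fun i => ((L i : ℂ) ^ 2)⁻¹ := ⟨1, fun i => by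
    rw [norm_inv, nL]; exact inv_le_one_of_one_le₀ (one_le_pow₀ (h1 i).2.2.1)⟩
  have Ln : ∀ i, (L i : ℂ) ^ 2 ≠ 0 := fun i =>
    pow_ne_zero 2 (ofReal_ne_zero.2 (by linarith [(h1 i).2.2.1]))
  have bD : BM D := by
    have := BM.smul bi bD2
    simpa only [smul_smul, inv_mul_cancel₀ (Ln _), one_smul] using this
  have bq : BS q := by
    have := bi.mul bq2
    simpa only [← mul_assoc, inv_mul_cancel₀ (Ln _), one_mul] using this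
  have bS : BM fun i => Pm a (u i) (W i) * G i * (Pm a (u i) (W i))ᴴ := (bP.mul bG).mul bP.ct
  have bR : BM fun i => (1 - Pm a (u i) (W i)) * G i * (1 - Pm a (u i) (W i))ᴴ :=
    (bQ.mul bG).mul bQ.ct
  have eH : ∀ i, H i = ((1 - Pm a (u i) (W i)) * G i * (1 - Pm a (u i) (W i))ᴴ +
      (-2 * L i : ℂ) • (Nm a (u i) (W i) * G i) +
        q i • (Pm a (u i) (W i) * G i * (Pm a (u i) (W i))ᴴ)) + D i := fun i => by
    rw [hD, hq, ← main_eq hn (h1 i).2.2.2.1]; abel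
  have e1 : ∀ x y : ι → Fin 6 → ℂ, BV x → BV y → BS fun i => qf (H i) (x i) (y i) +
      2 * L i * qf (Nm a (u i) (W i) * G i) (x i) (y i) := fun x y hx hy => by
    have := ((bR.add (BM.smul bq bS)).add bD).qf hx hy
    convert this using 2 with i
    rw [eH]; simp only [qf_addM, qf_smulM]; ring
  have eA : ∀ i, A0 a (u i) (W i) * H i = Nm a (u i) (W i) * G i +
      ((-(3 * a + 1) * q i) • (Pm a (u i) (W i) * G i * (Pm a (u i) (W i))ᴴ) +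
        A0 a (u i) (W i) * D i) := fun i => by
    rw [eH, Matrix.mul_add, A_main hn (h1 i).2.2.2.1, add_assoc]
  have eB : ∀ i, H i * (A0 a (u i) (W i))ᴴ = Nm a (u i) (W i) * G i +
      ((star (-(3 * a + 1)) * q i) • (Pm a (u i) (W i) * G i * (Pm a (u i) (W i))ᴴ) +
        D i * (A0 a (u i) (W i))ᴴ) := fun i => by
    have hl := (h1 i).2.2.2.1
    have t := congrArg conjTranspose (A_main hn hl (-2 * L i) (q i))
    have sq : star (q i) = q i := by rw [hq, star_mul', star_star, mul_comm]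
    have sL : star (-2 * L i : ℂ) = -2 * L i := by simp
    simp only [conjTranspose_mul, conjTranspose_add, conjTranspose_smul, hl.herm,
      conjTranspose_conjTranspose, ← Matrix.mul_assoc, ← hl.ng, star_mul', sq] at t
    rw [← star_mul', sL] at t
    rw [eH, Matrix.add_mul, t, add_assoc]
  have e2 : BS fun i => (L i : ℂ) ^ 2 * (qf (H i) (c0 (u i) (W i) ᵥ* A0 a (u i) (W i))
      (c0 (u i) (W i)) - qf (Nm a (u i) (W i) * G i) (c0 (u i) (W i)) (c0 (u i) (W i))) := by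
    have := ((BM.smul ((BS.const (-(3 * a + 1))).mul bq2) bS).add (bA.mul bD2)).qf b0 b0
    convert this using 2 with i
    rw [qf_vecMul_left, eA]; simp only [qf_addM, qf_smulM, Matrix.mul_smul]; ring
  have e3 : BS fun i => (L i : ℂ) ^ 2 * (qf (H i) (cu (W i)) (c0 (u i) (W i) ᵥ* A0 a (u i) (W i)) -
      qf (Nm a (u i) (W i) * G i) (cu (W i)) (c0 (u i) (W i))) := by
    have := ((BM.smul ((BS.const (star (-(3 * a + 1)))).mul bq2) bS).add (bD2.mul bA.ct)).qf b2 b0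
    convert this using 2 with i
    rw [qf_vecMul_right, eB]; simp only [qf_addM, qf_smulM, Matrix.smul_mul]; ring
  have e4 : BS fun i => (L i : ℂ) ^ 2 * qf (H i) (c0 (u i) (W i) ᵥ* A0 a (u i) (W i))
      (c0 (u i) (W i) ᵥ* A0 a (u i) (W i)) := by
    have := (((BM.smul ((BS.const (-(3 * a + 1))).mul bq2) bS).add (bA.mul bD2)).mul bA.ct).qf b0 b0
    convert this using 2 with i
    rw [qf_vecMul_left, qf_vecMul_right, eA, Matrix.add_mul, ng_A hn (h1 i).2.2.2.1, zero_add]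
    simp only [qf_addM, qf_smulM, Matrix.smul_mul, Matrix.mul_smul, Matrix.add_mul]; ring
  obtain ⟨k1, g1⟩ := (bN.mul bG).qf b0 b0
  obtain ⟨k2, g2⟩ := (bN.mul bG).qf b2 b0
  obtain ⟨k3, g3⟩ := (bN.mul bG).qf b2 b2
  obtain ⟨k4, g4⟩ := e1 _ _ b0 b0
  obtain ⟨k5, g5⟩ := e1 _ _ b2 b0
  obtain ⟨k6, g6⟩ := e1 _ _ b2 b2
  obtain ⟨k7, g7⟩ := e2
  obtain ⟨k8, g8⟩ := e3
  obtain ⟨k9, g9⟩ := e4
  refine ⟨|k1| + |k2| + |k3| + |k4| + |k5| + |k6| + |k7| + |k8| + |k9|,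
    fun u' W' G' J' H' L' p1 p2 p3 p4 p5 => ?_⟩
  let i : ι := ⟨(u', W', G', J', H', L'), p1, p2, p3, p4, p5⟩
  have t1 := g1 i; have t2 := g2 i; have t3 := g3 i; have t4 := g4 i; have t5 := g5 i
  have t6 := g6 i; have t7 := g7 i; have t8 := g8 i; have t9 := g9 i
  simp only [norm_mul, nL] at t7 t8 t9
  simp only [hu, hW, hG, hH, hL, i] at t1 t2 t3 t4 t5 t6 t7 t8 t9
  have := le_abs_self k1; have := le_abs_self k2; have := le_abs_self k3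
  have := le_abs_self k4; have := le_abs_self k5; have := le_abs_self k6
  have := le_abs_self k7; have := le_abs_self k8; have := le_abs_self k9
  have := abs_nonneg k1; have := abs_nonneg k2; have := abs_nonneg k3
  have := abs_nonneg k4; have := abs_nonneg k5; have := abs_nonneg k6
  have := abs_nonneg k7; have := abs_nonneg k8; have := abs_nonneg k9
  have hp : 0 < L' ^ 2 := by positivity
  refine ⟨by linarith, by linarith, by linarith, by linarith, by linarith, by linarith, ?_, ?_, ?_⟩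
  all_goals rw [le_div_iff₀' hp]; linarith

theorem cuspCh {j : ℕ} {e : ℝ} (hj : 3 ≤ j) (he : e = 1 / (4 * j + 2)) {Hk Hi : Cf → M6}
    (g : Gr e Hk Hi) (hs : Sg Hk) (hC : Core j e Hk Hi) (hL : LogCh) (hN : NonDeg) : CuspCh Hk := by
  have j3 : (3 : ℝ) ≤ j := by exact_mod_cast hj
  have e0 : 0 < e := by rw [he]; positivity
  have e1 : e < 1 / 12 := by
    rw [he]; exact one_div_lt_one_div_of_lt (by norm_num) (by linarith)
  obtain ⟨a, ha⟩ : ∃ a : ℝ, a = -1 / 2 + e := ⟨_, rfl⟩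
  have hal : al e = (a : ℂ) := by rw [ha, al]; push_cast; ring
  have hn' : (3 * (a : ℂ) + 1) = ((3 * a + 1 : ℝ) : ℂ) := by push_cast; ring
  have hd' : (5 * (a : ℂ) + 1) = ((5 * a + 1 : ℝ) : ℂ) := by push_cast; ring
  have hn : 3 * (a : ℂ) + 1 ≠ 0 := by rw [hn']; exact ofReal_ne_zero.2 (by linarith)
  have hd : 5 * (a : ℂ) + 1 ≠ 0 := by rw [hd']; exact ofReal_ne_zero.2 (by linarith)
  have a0 : (a : ℂ) ≠ 0 := ofReal_ne_zero.2 (by linarith)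
  have a1 : ‖(a : ℂ)‖ ≤ 1 / 2 := by
    rw [Complex.norm_real, Real.norm_eq_abs, abs_le]; constructor <;> linarith
  have d1 : ‖5 * (a : ℂ) + 1‖ ≤ 2 := by
    rw [hd', Complex.norm_real, Real.norm_eq_abs, abs_le]; constructor <;> linarith
  obtain ⟨K, hK⟩ := hC
  obtain ⟨c, L0, hc, hlog⟩ := hL j e hj he Hk Hi g
  obtain ⟨c', hc', hnd⟩ := hN a K (c / 2) (by linarith) (by linarith) (by linarith)
  obtain ⟨K', hK'⟩ := six hn (by rw [hn', ofReal_re]; linarith) K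
  obtain ⟨m, hm⟩ : ∃ m, m = ‖(5 * (a : ℂ) + 1) / (3 * a + 1)‖ ^ 2 := ⟨_, rfl⟩
  have m0 : 0 < m := by rw [hm]; exact pow_pos (norm_pos_iff.2 (div_ne_zero hd hn)) 2
  have an : 0 < ‖(a : ℂ)‖ := norm_pos_iff.2 a0
  obtain ⟨C, L1, hL1, hf⟩ := fin_qf K' (m * ‖(a : ℂ)‖ ^ 2 * c') (by positivity)
  refine ⟨16 * C, Real.exp (-L1), Real.exp_pos _, fun s z s0 sd z0 zd x y => ?_⟩
  obtain ⟨u, u0, rfl, u2, W2⟩ := root_ex j z0 zd
  obtain ⟨r, r1', hr⟩ := polar_ex s0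
  have hL := le_log_of_le s0 sd
  obtain ⟨G, J, hl, hap⟩ := hK r u r1' u0 zd
  rw [hal] at hl hap
  have low := low_lim hn a0 a1 hl hc _ (hlog r u r1' u0 zd) fun L h => (hap L h).2
  obtain ⟨n1, n2⟩ := hnd u (u ^ j) G J u2 W2 hl low
  generalize Real.log (1 / ‖s‖) = L at *
  have hb := (hap L (hL1.trans hL)).1
  rw [← hr] at hb
  have W0 : u ^ j ≠ 0 := pow_ne_zero _ u0
  generalize u ^ j = W at *
  obtain ⟨t1, t2, t3, t4, t5, t6, t7, t8, t9⟩ := hK' u W G J _ L u2 W2 (hL1.trans hL) hl hb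
  have sh : ‖s‖ ≤ 1 / 2 := by
    refine sd.trans ((Real.exp_le_exp.2 (neg_le_neg hL1)).trans ?_)
    rw [Real.exp_neg, inv_eq_one_div]
    exact one_div_le_one_div_of_le two_pos (by linarith [Real.add_one_le_exp (1 : ℝ)])
  have inj := lg_ch_inj s0 sh z0 zd
  have hH : (Ht e Hk s u W)ᴴ = Ht e Hk s u W := by
    rw [Ht, conjTranspose_smul, conjTranspose_mul, conjTranspose_mul, conjTranspose_conjTranspose,
      g.herm _ inj, Matrix.mul_assoc]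
    simp
  have re : ∀ v, ((qf (Nm a u W * G) v v).re : ℂ) = qf (Nm a u W * G) v v := fun v =>
    Complex.conj_eq_iff_re.1 (Red.qf_conj (ng_herm hl) v v).symm
  have ab : ∀ v, |(qf (Nm a u W * G) v v).re| = ‖qf (Nm a u W * G) v v‖ := fun v => by
    rw [← re v, ofReal_re, Complex.norm_real, Real.norm_eq_abs]
  obtain ⟨ρ, hρ⟩ : ∃ ρ : ℝ, ρ = ‖s‖ ^ (1 - 6 * e) := ⟨_, rfl⟩
  have ρ0 : 0 < ρ := by rw [hρ]; exact Real.rpow_pos_of_pos (norm_pos_iff.2 s0) _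
  have hq : ∀ v w, qf (Ht e Hk s u W) v w =
      ρ * qf (Hk (ch s (u * W ^ 2))) (v ᵥ* Tm s u W) (w ᵥ* Tm s u W) := fun v w => by
    rw [qf_Ht, hρ]
  have nρ : ‖(ρ : ℂ)‖ = ρ := by rw [Complex.norm_real, Real.norm_of_nonneg ρ0.le]
  have key := hf L _ _ _ (Ht e Hk s u W) (c0 u W) (c0 u W ᵥ* A0 a u W) (cu W) hH hL
    (by rw [ab]; exact t1) t2 (by rw [ab]; exact t3)
    (by
      rw [ab, n00_norm hn hl, ← hm]
      have : ‖(a : ℂ)‖ ^ 2 ≤ ‖(a : ℂ)‖ := by nlinarith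
      gcongr)
    (by
      have := det_norm hn hl
      rw [← hm, ← re (c0 u W), ← re (cu W), star_def, Complex.mul_conj, Complex.normSq_eq_norm_sq,
        ← ofReal_mul, ← ofReal_sub, Complex.norm_real, Real.norm_eq_abs] at this
      rw [this]; gcongr)
    (by rw [re]; exact t4) t5 (by rw [re]; exact t6) (by rw [re]; exact t7) t8 t9
    (by
      have := hs.neg _ inj (tv s (u * W ^ 2) 0 (1 * W ^ 2))
      rw [Bm_eq, cw_eq, zero_smul, zero_add, one_smul] at this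
      rw [hq, hq, hq, norm_mul, nρ, Complex.re_ofReal_mul, Complex.re_ofReal_mul]
      nlinarith [mul_pos ρ0 ρ0])
    (x / (5 * a + 1)) (y / W ^ 2)
  have eB : x • cs u W + (y / W ^ 2) • cu W = (x / (5 * a + 1) * (3 * a + 1)) • c0 u W +
      ((x / (5 * a + 1)) • (c0 u W ᵥ* A0 a u W) + (y / W ^ 2) • cu W) := by
    rw [c0_A, smul_sub, smul_smul, smul_smul, div_mul_cancel₀ _ hd]; abel
  rw [← Red.qf_shift hH (x / (5 * a + 1) * (3 * a + 1)), ← eB, hq, hq, hq, ← cw_eq, ← Bm_eq,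
    div_mul_cancel₀ _ (pow_ne_zero 2 W0), norm_mul, nρ, Complex.re_ofReal_mul,
    Complex.re_ofReal_mul] at key
  have x1 : ‖x‖ ^ 2 ≤ 16 * ‖x / (5 * a + 1)‖ ^ 2 := by
    have h : ‖x‖ ≤ ‖x / (5 * a + 1)‖ * 2 := by
      nth_rewrite 1 [← div_mul_cancel₀ x hd]; rw [norm_mul]; gcongr
    nlinarith [norm_nonneg x, norm_nonneg (x / (5 * a + 1))]
  have y1 : ‖y‖ ^ 2 ≤ 16 * ‖y / W ^ 2‖ ^ 2 := by
    have h : ‖y‖ ≤ ‖y / W ^ 2‖ * 2 ^ 2 := by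
      nth_rewrite 1 [← div_mul_cancel₀ y (pow_ne_zero 2 W0)]; rw [norm_mul, norm_pow]; gcongr
    nlinarith [norm_nonneg y, norm_nonneg (y / W ^ 2)]
  generalize (qf (Hk (ch s (u * W ^ 2))) (cw (ch s (u * W ^ 2))) (cw (ch s (u * W ^ 2)))).re = φ
    at *
  generalize ‖qf (Hk (ch s (u * W ^ 2))) (cw (ch s (u * W ^ 2)))
    (Bm (ch s (u * W ^ 2)) (tv s (u * W ^ 2) x y))‖ = β at *
  generalize (qf (Hk (ch s (u * W ^ 2))) (Bm (ch s (u * W ^ 2)) (tv s (u * W ^ 2) x y))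
    (Bm (ch s (u * W ^ 2)) (tv s (u * W ^ 2) x y))).re = γ at *
  refine le_of_mul_le_mul_left ?_ (mul_pos ρ0 ρ0)
  calc ρ * ρ * ((‖x‖ ^ 2 + ‖y‖ ^ 2) * φ ^ 2) = (‖x‖ ^ 2 + ‖y‖ ^ 2) * (ρ * φ) ^ 2 := by ring
    _ ≤ 16 * (‖x / (5 * a + 1)‖ ^ 2 + ‖y / W ^ 2‖ ^ 2) * (ρ * φ) ^ 2 := by gcongr; linarith
    _ ≤ 16 * (C * L ^ 2 * ((ρ * β) ^ 2 - ρ * φ * (ρ * γ))) := by rw [mul_assoc]; gcongr
    _ = _ := by ring

end

end Pool.Agent.Lib.MP_0c623d_al.BP.Cu.Bn
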