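import Mathlib
import Pool.Agent.Lib.MP_0c623d_al.E.Cusp
import Pool.Agent.Lib.MP_0c623d_al.E.Sys
import Pool.Agent.Lib.MP_0c623d_al.E.Rem
import Pool.Agent.Lib.MP_0c623d_al.E.Start
import Pool.Agent.Lib.MP_0c623d_al.E.Core
import Pool.Agent.Lib.MP_0c623d_al.E.LogCh
import Pool.Agent.Lib.MP_0c623d_al.E.NonDeg
import Pool.Agent.Lib.MP_0c623d_al.E.Grow
import Pool.Agent.Lib.MP_0c623d_al.E.Tau2
import Pool.Agent.Lib.MP_0c623d_al.BP.Int

set_option autoImplicit false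

/-!
The three statements at a triple collision.
-/

namespace Pool.Agent.Lib.MP_0c623d_al.BP

theorem e_bounds {j : ℕ} {e : ℝ} (hj : 3 ≤ j) (he : e = 1 / (4 * j + 2)) : 0 < e ∧ e < 1 / 12 := by
  have j3 : (3 : ℝ) ≤ j := by exact_mod_cast hj
  refine ⟨by rw [he]; positivity, ?_⟩
  rw [he]; exact one_div_lt_one_div_of_lt (by norm_num) (by linarith)

theorem coreAll : Cu.CoreSt := Cu.coreSt Cu.sysSt Cu.remSt Cu.startSt

theorem negAll : NegSt := Cu.negSt coreAll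

theorem growAll : GrowSt := fun j e hj he Hk Hi g =>
  redGrow normSt e Hk Hi (e_bounds hj he).1 (e_bounds hj he).2 g
    (Cu.growCh (e_bounds hj he).2 (coreAll j e hj he Hk Hi g))

theorem cuspAll : CuspSt := fun j e hj he Hk Hi g hs =>
  redCusp normSt tauSt e Hk Hi (e_bounds hj he).1 (e_bounds hj he).2 g hs
    (Cu.Bn.cuspCh hj he g hs (coreAll j e hj he Hk Hi g) (Cu.logCh (logSt intSt)) Cu.nonDeg)

end Pool.Agent.Lib.MP_0c623d_al.BP
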