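import Pool.Agent.Lib.MP_0c623d_al.E.CuspB
import Pool.Agent.Lib.MP_0c623d_al.E.Core
import Pool.Agent.Lib.MP_0c623d_al.E.Sys
import Pool.Agent.Lib.MP_0c623d_al.E.Rem
import Pool.Agent.Lib.MP_0c623d_al.E.Start
import Pool.Agent.Lib.MP_0c623d_al.E.LogCh
import Pool.Agent.Lib.MP_0c623d_al.E.NonDeg
import Pool.Agent.Lib.MP_0c623d_al.E.Tau2
import Pool.Agent.Lib.MP_0c623d_al.B.All
import Pool.Agent.Lib.MP_0c623d_al.BP.Final0

set_option autoImplicit false

/-!
The statements at a triple collision, and the analytic data.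
-/

namespace Pool.Agent.Lib.MP_0c623d_al.BP.Cu.C2

theorem core : CoreSt := coreSt sysSt remSt startSt

theorem e_bd {j : ℕ} {e : ℝ} (hj : 3 ≤ j) (he : e = 1 / (4 * j + 2)) : 0 < e ∧ e < 1 / 12 := by
  have hj' : (3 : ℝ) ≤ j := by exact_mod_cast hj
  rw [he]
  exact ⟨by positivity, one_div_lt_one_div_of_lt (by norm_num) (by linarith)⟩

theorem neg : NegSt := negSt core

theorem grow : GrowSt := fun j e hj he Hk Hi g =>
  redGrow normSt e Hk Hi (e_bd hj he).1 (e_bd hj he).2 g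
    (growCh (e_bd hj he).2 (core j e hj he Hk Hi g))

theorem cusp : CuspSt := fun j e hj he Hk Hi g sg =>
  redCusp normSt tauSt e Hk Hi (e_bd hj he).1 (e_bd hj he).2 g sg
    (cuspCh hj he g sg (core j e hj he Hk Hi g) (logCh (logSt intSt)) nonDeg)

theorem an (k : ℕ) (hk : Odd k) (h : 61 ≤ k) : Nonempty (Pool.Agent.BP.F.AN k) :=
  an_of (B.xSt B.regSt B.uposSt) neg grow cusp k hk h

end Pool.Agent.Lib.MP_0c623d_al.BP.Cu.C2
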