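import Pool.Agent.Lib.MP_0c623d_al.E.Grow
import Pool.Agent.Lib.MP_0c623d_al.E.Bnd
import Pool.Agent.Lib.MP_0c623d_al.E.Fin
import Pool.Agent.Lib.MP_0c623d_al.E.Mat2

set_option autoImplicit false

/-!
The lower bound of the metric in the chart at a triple collision.
-/

namespace Pool.Agent.Lib.MP_0c623d_al.BP.Cu.C2

open Complex Matrix

section alg
variable {a u W : ℂ} {K : ℝ} {G J : M6}

theorem ql_sub (X : M6) (x y z : Fin 6 → ℂ) : qf X (x - y) z = qf X x z - qf X y z := by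
  simp only [qf, sub_dotProduct]

theorem qr_sub (X : M6) (x y z : Fin 6 → ℂ) : qf X z (x - y) = qf X z x - qf X z y := by
  simp only [qf, star_sub, mulVec_sub, dotProduct_sub]

theorem ql_add (X : M6) (x y z : Fin 6 → ℂ) : qf X (x + y) z = qf X x z + qf X y z := by
  simp only [qf, add_dotProduct]

theorem qr_add (X : M6) (x y z : Fin 6 → ℂ) : qf X z (x + y) = qf X z x + qf X z y := by
  simp only [qf, star_add, mulVec_add, dotProduct_add]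

theorem ql_smul (X : M6) (p : ℂ) (x z : Fin 6 → ℂ) : qf X (p • x) z = p * qf X x z := by
  simp only [qf, smul_dotProduct, smul_eq_mul]

theorem qr_smul (X : M6) (p : ℂ) (x z : Fin 6 → ℂ) : qf X z (p • x) = star p * qf X z x := by
  simp only [qf, star_smul, mulVec_smul, dotProduct_smul, smul_eq_mul]

theorem nsym (hl : Lim a u W K G J) (x y : Fin 6 → ℂ) :
    qf G (x ᵥ* Nm a u W) y = qf G x (y ᵥ* Nm a u W) := by
  rw [Bn.qf_vecMul_left, Bn.qf_vecMul_right, hl.ng]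

theorem qp (hl : Lim a u W K G J) (x y : Fin 6 → ℂ) :
    qf G (x - x ᵥ* Pm a u W) (y ᵥ* Pm a u W) = 0 := by
  have : x - x ᵥ* Pm a u W = x ᵥ* (1 - Pm a u W) := by rw [vecMul_sub, vecMul_one]
  rw [this, ← Gw.qf_vecMul, hl.pg]
  simp [qf]

theorem pq (hl : Lim a u W K G J) (x y : Fin 6 → ℂ) :
    qf G (y ᵥ* Pm a u W) (x - x ᵥ* Pm a u W) = 0 := by
  rw [Red.qf_conj hl.herm, qp hl, star_zero]

theorem np (hn : 3 * a + 1 ≠ 0) (hl : Lim a u W K G J) (x y : Fin 6 → ℂ) :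
    qf G (x ᵥ* Nm a u W) (y ᵥ* Pm a u W) = 0 := by
  have := qp hl (x ᵥ* Nm a u W) y
  rwa [vecMul_vecMul, Gw.NP hn, vecMul_zero, sub_zero] at this

theorem pn (hn : 3 * a + 1 ≠ 0) (hl : Lim a u W K G J) (x y : Fin 6 → ℂ) :
    qf G (y ᵥ* Pm a u W) (x ᵥ* Nm a u W) = 0 := by
  rw [Red.qf_conj hl.herm, np hn hl, star_zero]

theorem expand (hn : 3 * a + 1 ≠ 0) (hl : Lim a u W K G J) (x y : Fin 6 → ℂ) (L : ℝ) :
    qf G (x ᵥ* Em a u W (-L)) (y ᵥ* Em a u W (-L)) =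
      qf G (x - x ᵥ* Pm a u W) (y - y ᵥ* Pm a u W) - 2 * L * qf G (x ᵥ* Nm a u W) y +
        exp (-(3 * a + 1) * -L) * star (exp (-(3 * a + 1) * -L)) *
          qf G (x ᵥ* Pm a u W) (y ᵥ* Pm a u W) := by
  have e1 : ∀ z : Fin 6 → ℂ, z ᵥ* Em a u W (-L) = (z - z ᵥ* Pm a u W) +
      (-(L : ℂ)) • z ᵥ* Nm a u W + exp (-(3 * a + 1) * -L) • z ᵥ* Pm a u W := fun z => by
    simp only [Em, vecMul_add, vecMul_sub, vecMul_one, vecMul_smul]
  have h1 : qf G (x - x ᵥ* Pm a u W) (y ᵥ* Nm a u W) = qf G (x ᵥ* Nm a u W) y := by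
    rw [ql_sub, pn hn hl, nsym hl, sub_zero]
  have h2 : qf G (x ᵥ* Nm a u W) (y - y ᵥ* Pm a u W) = qf G (x ᵥ* Nm a u W) y := by
    rw [qr_sub, np hn hl, sub_zero]
  have h3 : star (-(L : ℂ)) = -L := by simp
  rw [e1, e1]
  simp only [ql_add, qr_add, ql_smul, qr_smul, h1, h2, h3, qp hl, pq hl, np hn hl, pn hn hl,
    Gw.iso hn hl]
  ring

theorem est (hn : 3 * a + 1 ≠ 0) (hl : Lim a u W K G J) {H : M6} {L B η : ℝ}
    (hE : Bd (H - Em a u W (-L) * G * (Em a u W (-L))ᴴ) (K * η))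
    (hη : ‖exp (-(3 * a + 1) * -L)‖ ^ 2 ≤ η) {x y : Fin 6 → ℂ} (hx : ‖x‖ ≤ B) (hy : ‖y‖ ≤ B)
    (hx' : ‖x ᵥ* Pm a u W‖ ≤ B) (hy' : ‖y ᵥ* Pm a u W‖ ≤ B) :
    ‖qf H x y + 2 * L * qf G (x ᵥ* Nm a u W) y - qf G (x - x ᵥ* Pm a u W) (y - y ᵥ* Pm a u W)‖ ≤
      72 * K * B * B * η := by
  have e3 := Gw.qf_bd hE hx hy
  rw [Gw.qf_sub, Gw.qf_vecMul, expand hn hl] at e3
  have e4 := Gw.qf_bd hl.bg hx' hy'
  have e5 : ‖exp (-(3 * a + 1) * -L) * star (exp (-(3 * a + 1) * -L)) *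
      qf G (x ᵥ* Pm a u W) (y ᵥ* Pm a u W)‖ ≤ η * (36 * K * B * B) := by
    rw [norm_mul, norm_mul, norm_star, ← sq]
    exact mul_le_mul hη e4 (norm_nonneg _) ((sq_nonneg _).trans hη)
  have e6 := (norm_add_le _ _).trans (add_le_add e3 e5)
  refine le_of_eq_of_le (congrArg _ (by ring)) (e6.trans (le_of_eq (by ring)))

theorem nd {a : ℝ} (ha : a ≠ 0) (ha' : |a| ≤ 1 / 2) (hn : 3 * (a : ℂ) + 1 ≠ 0)
    (hl : Lim a u W K G J) {c K' L0 : ℝ} (h : ∀ L : ℝ, L0 ≤ L → c * L - K' ≤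
      (star (ff u + ((L : ℂ) * a) • fn u) ⬝ᵥ J *ᵥ (ff u + ((L : ℂ) * a) • fn u)).re) :
    c ≤ ‖star (ff u) ⬝ᵥ J *ᵥ fn u‖ := by
  have hJ : Jᴴ = J := by
    have h1 : Jᴴ * G = 1 := by
      have := congrArg conjTranspose hl.gj
      rwa [conjTranspose_mul, hl.herm, conjTranspose_one] at this
    rw [← Matrix.mul_one Jᴴ, ← hl.gj, ← Matrix.mul_assoc, h1, Matrix.one_mul]
  have hN : (Nm a u W)ᴴ * J = J * Nm a u W := by
    rw [← Matrix.one_mul (Nm a u W)ᴴ, ← hl.jg, Matrix.mul_assoc J, ← hl.ng, Matrix.mul_assoc,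
      Matrix.mul_assoc, hl.gj, Matrix.mul_one]
  have h0 : star (fn u) ⬝ᵥ J *ᵥ fn u = 0 := by
    have h1 : star ((a : ℂ) • fn u) ⬝ᵥ J *ᵥ ((a : ℂ) • fn u) = 0 := by
      rw [← Bn.N_ff hn u W, star_mulVec, ← dotProduct_mulVec, mulVec_mulVec, mulVec_mulVec, hN,
        Matrix.mul_assoc, Gw.NN hn, Matrix.mul_zero, zero_mulVec, dotProduct_zero]
    simpa [star_smul, mulVec_smul, ha] using h1
  have h1 : star (fn u) ⬝ᵥ J *ᵥ ff u = star (star (ff u) ⬝ᵥ J *ᵥ fn u) := by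
    have := Red.qf_conj hJ (star (ff u)) (star (fn u))
    simpa only [qf, star_star] using this
  set b := star (ff u) ⬝ᵥ J *ᵥ fn u with hb
  set A := star (ff u) ⬝ᵥ J *ᵥ ff u with hA
  have h2 : ∀ L : ℝ, (star (ff u + ((L : ℂ) * a) • fn u) ⬝ᵥ
      J *ᵥ (ff u + ((L : ℂ) * a) • fn u)).re = A.re + L * (2 * a * b.re) := fun L => by
    simp only [star_add, star_smul, mulVec_add, mulVec_smul, dotProduct_add, add_dotProduct,
      dotProduct_smul, smul_dotProduct, smul_eq_mul, h0, h1, ← hb, ← hA]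
    simp
    ring
  have h3 : 2 * a * b.re ≤ ‖b‖ := by
    refine (le_abs_self _).trans ?_
    rw [abs_mul, abs_mul, abs_two]
    nlinarith [abs_re_le_norm b, abs_nonneg b.re, abs_nonneg a]
  by_contra hc
  have hd : 0 < c - ‖b‖ := sub_pos.2 (not_le.1 hc)
  have h4 := h (max (max L0 0) ((A.re + K') / (c - ‖b‖) + 1))
    ((le_max_left _ _).trans (le_max_left _ _))
  have h5 : 0 ≤ max (max L0 0) ((A.re + K') / (c - ‖b‖) + 1) :=
    (le_max_right _ _).trans (le_max_left _ _)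
  have h6 : (A.re + K') / (c - ‖b‖) + 1 ≤ max (max L0 0) ((A.re + K') / (c - ‖b‖) + 1) :=
    le_max_right _ _
  rw [h2] at h4
  generalize max (max L0 0) ((A.re + K') / (c - ‖b‖) + 1) = L at *
  have h7 := mul_le_mul_of_nonneg_right h6 hd.le
  rw [add_mul, div_mul_cancel₀ _ hd.ne'] at h7
  nlinarith [mul_le_mul_of_nonneg_left h3 h5]

end alg

theorem rb (a : ℂ) {f : ℂ × ℂ → Fin 6 → ℂ} (h0 : Continuous f) : ∃ C : ℝ, 0 ≤ C ∧
    ∀ u W : ℂ, ‖u‖ ≤ 2 → ‖W‖ ≤ 2 →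
      ‖f (u, W)‖ ≤ C ∧ ‖f (u, W) ᵥ* Pm a u W‖ ≤ C ∧ ‖f (u, W) ᵥ* Nm a u W‖ ≤ C := by
  have h1 : Continuous fun p : ℂ × ℂ => A0 a p.1 p.2 :=
    continuous_matrix fun i j => by fin_cases i <;> fin_cases j <;> simp [A0] <;> fun_prop
  have h2 := h1.matrix_mul h1
  have h3 : Continuous fun p : ℂ × ℂ => Pm a p.1 p.2 := by
    unfold Pm; exact h2.const_smul ((3 * a + 1) ^ 2)⁻¹
  have h4 : Continuous fun p : ℂ × ℂ => Nm a p.1 p.2 := by
    unfold Nm; exact h1.add (h2.const_smul (3 * a + 1)⁻¹)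
  obtain ⟨C, hC⟩ := (isCompact_closedBall (0 : ℂ × ℂ) 2).exists_bound_of_continuousOn
    (h0.prodMk ((h0.matrix_vecMul h3).prodMk (h0.matrix_vecMul h4))).continuousOn
  refine ⟨C, (norm_nonneg _).trans (hC 0 (by simp)), fun u W hu hW => ?_⟩
  have := hC (u, W) (by simp [Prod.norm_def, hu, hW])
  simpa only [norm_prod_le_iff] using this

theorem n_real {a u W : ℂ} {K : ℝ} {G J : M6} (hl : Lim a u W K G J) (x : Fin 6 → ℂ) :
    ((qf G (x ᵥ* Nm a u W) x).re : ℂ) = qf G (x ᵥ* Nm a u W) x := by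
  refine conj_eq_iff_re.1 ?_
  have := Red.qf_conj hl.herm (x ᵥ* Nm a u W) x
  rw [← nsym hl] at this
  exact this.symm

theorem lim_ineq {a : ℝ} (ha : -1 / 2 < a) (ha' : a < -5 / 12) (K : ℝ) {c : ℝ} (hc : 0 < c) :
    ∃ C L1 : ℝ, 1 ≤ L1 ∧ ∀ (u W : ℂ) (G J H : M6) (L : ℝ), ‖u‖ ≤ 2 → ‖W‖ ≤ 2 →
      Lim a u W K G J → c ≤ ‖qf G (cs u W) (r1 u W)‖ →
      c ≤ ‖qf G (cs u W) (r1 u W) * qf G (cu W) (r2 W) -
        qf G (cs u W) (r2 W) * qf G (cu W) (r1 u W)‖ → Hᴴ = H → L1 ≤ L →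
      Bd (H - Em a u W (-L) * G * (Em a u W (-L))ᴴ) (K * Real.exp (-L / 8)) →
      (qf H (c0 u W) (c0 u W)).re * (qf H (cu W) (cu W)).re ≤ ‖qf H (c0 u W) (cu W)‖ ^ 2 →
      ∀ x y : ℂ, (‖x‖ ^ 2 + ‖y‖ ^ 2) * (qf H (c0 u W) (c0 u W)).re ^ 2 ≤ C * L ^ 2 *
        (‖qf H (c0 u W) (x • cs u W + y • cu W)‖ ^ 2 - (qf H (c0 u W) (c0 u W)).re *
          (qf H (x • cs u W + y • cu W) (x • cs u W + y • cu W)).re) := by
  have f0 : Continuous fun p : ℂ × ℂ => c0 p.1 p.2 :=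
    continuous_pi fun i => by fin_cases i <;> simp [c0] <;> fun_prop
  have f2 : Continuous fun p : ℂ × ℂ => cu p.2 :=
    continuous_pi fun i => by fin_cases i <;> simp [cu] <;> fun_prop
  have fA : Continuous fun p : ℂ × ℂ => A0 a p.1 p.2 :=
    continuous_matrix fun i j => by fin_cases i <;> fin_cases j <;> simp [A0] <;> fun_prop
  obtain ⟨B0, hB0, b0⟩ := rb a f0
  obtain ⟨B1, -, b1⟩ := rb a (f0.matrix_vecMul fA)
  obtain ⟨B2, -, b2⟩ := rb a f2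
  set B := max B0 (max B1 B2) with hB
  have m0 : B0 ≤ B := le_max_left _ _
  have m1 : B1 ≤ B := (le_max_left _ _).trans (le_max_right _ _)
  have m2 : B2 ≤ B := (le_max_right _ _).trans (le_max_right _ _)
  have hν : 3 * a + 1 ≠ 0 := by linarith
  have hD : 5 * a + 1 ≠ 0 := by linarith
  have ha0 : a ≠ 0 := by linarith
  have hn : 3 * (a : ℂ) + 1 ≠ 0 := by exact_mod_cast hν
  have hD' : 5 * (a : ℂ) + 1 ≠ 0 := by exact_mod_cast hD
  set k : ℝ := (5 * a + 1) / (3 * a + 1) with hk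
  have hk0 : k ≠ 0 := div_ne_zero hD hν
  obtain ⟨C, L1, hL1, hC⟩ := fin_qf (10000 * (K * B * B)) (min (k ^ 2 * |a| * c) (k ^ 2 * a ^ 2 * c))
    (by positivity)
  refine ⟨4 * C, L1, hL1, fun u W G J H L hu hW hl n1 n2 hH hL hE hs x y => ?_⟩
  obtain ⟨p0, p1, p2⟩ := b0 u W hu hW
  obtain ⟨q0, q1, -⟩ := b1 u W hu hW
  obtain ⟨t0, t1, t2⟩ := b2 u W hu hW
  simp only at p0 p1 p2 q0 q1 t0 t1 t2
  replace p0 := p0.trans m0
  replace p1 := p1.trans m0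
  replace p2 := p2.trans m0
  replace q0 := q0.trans m1
  replace q1 := q1.trans m1
  replace t0 := t0.trans m2
  replace t1 := t1.trans m2
  replace t2 := t2.trans m2
  have hK : 0 ≤ K := (norm_nonneg _).trans (hl.bg 0 0)
  have hB' : 0 ≤ B := hB0.trans m0
  have hM : 0 ≤ K * B * B := by positivity
  have hL0 : 1 ≤ L := hL1.trans hL
  have hη : ‖exp (-(3 * (a : ℂ) + 1) * -L)‖ ^ 2 ≤ Real.exp (-L / 8) := by
    have : -(3 * (a : ℂ) + 1) * -L = (((3 * a + 1) * L : ℝ) : ℂ) := by push_cast; ring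
    rw [this, norm_exp_ofReal, ← Real.exp_nat_mul, Real.exp_le_exp]
    push_cast
    nlinarith
  have η1 : Real.exp (-L / 8) ≤ 1 := Real.exp_le_one_iff.2 (by linarith)
  have η2 : Real.exp (-L / 8) ≤ 128 / L ^ 2 := by
    have h1 := Real.quadratic_le_exp_of_nonneg (show 0 ≤ L / 8 by linarith)
    rw [neg_div, Real.exp_neg, inv_eq_one_div, div_le_div_iff₀ (Real.exp_pos _) (by positivity)]
    nlinarith
  have s1 : 72 * K * B * B * Real.exp (-L / 8) ≤ 10000 * (K * B * B) / L ^ 2 := by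
    have h1 := mul_le_mul_of_nonneg_left η2 hM
    have h2 : 0 ≤ K * B * B / L ^ 2 := by positivity
    have h3 : K * B * B * (128 / L ^ 2) = 128 * (K * B * B / L ^ 2) := by ring
    have h4 : 10000 * (K * B * B) / L ^ 2 = 10000 * (K * B * B / L ^ 2) := by ring
    linarith
  have s2 : ∀ {v w : Fin 6 → ℂ}, ‖v‖ ≤ B → ‖w‖ ≤ B → ‖v ᵥ* Pm a u W‖ ≤ B → ‖w ᵥ* Pm a u W‖ ≤ B →
      ‖qf H v w + 2 * L * qf G (v ᵥ* Nm a u W) w‖ ≤ 10000 * (K * B * B) := by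
    intro v w hv hw hv' hw'
    have h1 := est hn hl hE hη hv hw hv' hw'
    have h2 := Gw.qf_bd hl.bg (norm_sub_le_of_le hv hv') (norm_sub_le_of_le hw hw')
    have h3 := (norm_le_norm_sub_add _ _).trans (add_le_add h1 h2)
    nlinarith [mul_le_mul_of_nonneg_left η1 hM]
  have s3 : ∀ {v w : Fin 6 → ℂ}, ‖v‖ ≤ B → ‖w‖ ≤ B → ‖qf G v w‖ ≤ 10000 * (K * B * B) := by
    intro v w hv hw
    have := Gw.qf_bd hl.bg hv hw
    nlinarith
  have a1 : (c0 u W ᵥ* A0 a u W) ᵥ* Nm a u W = 0 := by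
    rw [vecMul_vecMul, Bn.A_N hn, vecMul_zero]
  have a2 : c0 u W ᵥ* A0 a u W - (c0 u W ᵥ* A0 a u W) ᵥ* Pm a u W = c0 u W ᵥ* Nm a u W := by
    rw [vecMul_vecMul, Bn.A_P hn, Bn.N_eq hn, vecMul_add, vecMul_smul, vecMul_smul, neg_smul,
      sub_neg_eq_add]
  have a3 : c0 u W ᵥ* Nm a u W = (k : ℂ) • (cs u W ᵥ* Nm a u W) := by
    rw [Bn.c0_A, sub_vecMul, smul_vecMul, smul_vecMul, sub_eq_zero] at a1
    rw [hk]
    push_cast
    rw [div_eq_inv_mul, mul_smul, a1, smul_smul, inv_mul_cancel₀ hn, one_smul]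
  have z0 : ∀ v : Fin 6 → ℂ, qf G 0 v = 0 := fun v => by simp [qf]
  have z1 : ∀ v : Fin 6 → ℂ, qf G v 0 = 0 := fun v => by simp [qf]
  have e10 := (est hn hl hE hη q0 p0 q1 p1).trans s1
  rw [a1, a2, z0, qr_sub, np hn hl, mul_zero, add_zero, sub_zero, ← n_real hl] at e10
  have e21 := (est hn hl hE hη t0 q0 t1 q1).trans s1
  rw [nsym hl, a1, a2, z1, ql_sub, pn hn hl, mul_zero, add_zero, sub_zero, ← nsym hl] at e21
  have e11 := (est hn hl hE hη q0 q0 q1 q1).trans s1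
  rw [a1, a2, z0, Gw.iso hn hl, mul_zero, add_zero, sub_zero] at e11
  have e00 := s2 p0 p0 p1 p1
  have e22 := s2 t0 t0 t1 t1
  rw [← n_real hl] at e00 e22
  have sk : star (k : ℂ) = k := by simp
  have sa : star (a : ℂ) = a := by simp
  have v00 : qf G (c0 u W ᵥ* Nm a u W) (c0 u W) = k ^ 2 * a * qf G (cs u W) (r1 u W) := by
    rw [a3, ql_smul, nsym hl, a3, qr_smul, Bn.cs_N hn, qr_smul, sk, sa]; ring
  have v22 : qf G (cu W ᵥ* Nm a u W) (cu W) = a * qf G (cu W) (r2 W) := by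
    rw [nsym hl, Bn.cu_N hn, qr_smul, sa]
  have v20 : qf G (cu W ᵥ* Nm a u W) (c0 u W) = k * a * qf G (cu W) (r1 u W) := by
    rw [nsym hl, a3, qr_smul, Bn.cs_N hn, qr_smul, sk, sa]; ring
  have v02 : star (qf G (cu W ᵥ* Nm a u W) (c0 u W)) = k * a * qf G (cs u W) (r2 W) := by
    rw [← Red.qf_conj hl.herm, ← nsym hl, a3, ql_smul, nsym hl, Bn.cu_N hn, qr_smul, sa]; ring
  have d0 : min (k ^ 2 * |a| * c) (k ^ 2 * a ^ 2 * c) ≤
      |(qf G (c0 u W ᵥ* Nm a u W) (c0 u W)).re| := by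
    refine (min_le_left _ _).trans ?_
    rw [← Real.norm_eq_abs (qf _ _ _).re, ← norm_real, n_real hl, v00, norm_mul, norm_mul, norm_pow,
      norm_real, norm_real, Real.norm_eq_abs, Real.norm_eq_abs, sq_abs]
    gcongr
  have d1 : min (k ^ 2 * |a| * c) (k ^ 2 * a ^ 2 * c) ≤
      |(qf G (c0 u W ᵥ* Nm a u W) (c0 u W)).re * (qf G (cu W ᵥ* Nm a u W) (cu W)).re -
        ‖qf G (cu W ᵥ* Nm a u W) (c0 u W)‖ ^ 2| := by
    refine (min_le_right _ _).trans ?_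
    have h1 : (((qf G (c0 u W ᵥ* Nm a u W) (c0 u W)).re * (qf G (cu W ᵥ* Nm a u W) (cu W)).re -
        ‖qf G (cu W ᵥ* Nm a u W) (c0 u W)‖ ^ 2 : ℝ) : ℂ) = ((k ^ 2 * a ^ 2 : ℝ) : ℂ) *
          (qf G (cs u W) (r1 u W) * qf G (cu W) (r2 W) -
            qf G (cs u W) (r2 W) * qf G (cu W) (r1 u W)) := by
      push_cast
      rw [n_real hl, n_real hl, ← mul_conj', ← star_def, v02, v00, v22, v20]
      ring
    rw [← Real.norm_eq_abs, ← norm_real, h1, norm_mul, norm_real, Real.norm_of_nonneg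
      (by positivity)]
    gcongr
  have key := hC L _ _ _ H (c0 u W) (c0 u W ᵥ* A0 a u W) (cu W) hH hL
    ((abs_re_le_norm _).trans (s3 p2 p0)) (s3 t2 p0) ((abs_re_le_norm _).trans (s3 t2 t0)) d0 d1
    e00 (s2 t0 p0 t1 p1) e22 e10 e21 e11 hs (x / (5 * a + 1)) y
  have sh : x • cs u W + y • cu W = (x / (5 * a + 1) * (3 * a + 1)) • c0 u W +
      ((x / (5 * a + 1)) • (c0 u W ᵥ* A0 a u W) + y • cu W) := by
    rw [Bn.c0_A, smul_sub, smul_smul, smul_smul, div_mul_cancel₀ _ hD']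
    abel
  rw [sh, Red.qf_shift hH, mul_assoc 4, mul_assoc 4]
  refine le_trans ?_ (mul_le_mul_of_nonneg_left key (by norm_num))
  rw [← mul_assoc]
  refine mul_le_mul_of_nonneg_right ?_ (sq_nonneg _)
  have x1 : ‖x‖ = |5 * a + 1| * ‖x / (5 * a + 1)‖ := by
    rw [← Real.norm_eq_abs, ← norm_real, ← norm_mul]
    push_cast
    rw [mul_div_cancel₀ _ hD']
  have x2 : |5 * a + 1| ≤ 2 := abs_le.2 ⟨by linarith, by linarith⟩
  have x3 : ‖x‖ ≤ 2 * ‖x / (5 * a + 1)‖ := x1.le.trans (by gcongr)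
  nlinarith [norm_nonneg x, sq_nonneg ‖y‖]

theorem cuspCh {j : ℕ} {e : ℝ} (hj : 3 ≤ j) (he : e = 1 / (4 * j + 2)) {Hk Hi : Cf → M6}
    (g : Gr e Hk Hi) (hS : Sg Hk) (hC : Core j e Hk Hi) (hL : LogCh) (hN : NonDeg) :
    CuspCh Hk := by
  have hj' : (3 : ℝ) ≤ j := by exact_mod_cast hj
  have e0 : 0 < e := by rw [he]; positivity
  have e1 : e < 1 / 12 := by
    rw [he]
    exact one_div_lt_one_div_of_lt (by norm_num) (by linarith)
  obtain ⟨K, hK⟩ := hC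
  obtain ⟨c, L0, hc, hl⟩ := hL j e hj he Hk Hi g
  have ea : al e = ((-1 / 2 + e : ℝ) : ℂ) := by rw [al]; push_cast; rfl
  obtain ⟨c', hc', hn⟩ := hN (-1 / 2 + e) K c (by linarith) (by linarith) hc
  obtain ⟨C, L1, hL1, hC⟩ := lim_ineq (a := -1 / 2 + e) (by linarith) (by linarith) K hc'
  refine ⟨16 * C, Real.exp (-L1), Real.exp_pos _, fun s z hs hs' hz hz' x y => ?_⟩
  obtain ⟨u, hu, rfl, hu1, hu2⟩ := root_ex j hz hz'
  obtain ⟨s0, h0, hs0⟩ := polar_ex hs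
  have hLs := le_log_of_le hs hs'
  set L := Real.log (1 / ‖s‖)
  obtain ⟨G, J, lim, hG⟩ := hK s0 u h0 hu hz'
  have hν := (Gw.nu_ne e1).2
  rw [ea] at lim hG hν
  have hK0 : 0 ≤ K := (norm_nonneg _).trans (lim.bg 0 0)
  have n0 := nd (c := c) (K' := K) (L0 := max L0 1) (by linarith)
    (abs_le.2 ⟨by linarith, by linarith⟩) hν lim fun t ht => by
      have h1 := hl s0 u h0 hu hz' t ((le_max_left _ _).trans ht)
      have ht1 : 1 ≤ t := (le_max_right _ _).trans ht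
      have h2 := (le_abs_self _).trans ((abs_re_le_norm _).trans (hG t ht1).2)
      rw [sub_re] at h2
      have h3 : Real.exp (-t / 8) ≤ 1 := Real.exp_le_one_iff.2 (by linarith)
      linarith [mul_le_of_le_one_right hK0 h3]
  obtain ⟨n1, n2⟩ := hn u (u ^ j) G J hu1 hu2 lim n0
  have hE := (hG L (hL1.trans hLs)).1
  rw [← hs0] at hE
  have hs1 : ‖s‖ ≤ 1 / 2 := by
    refine hs'.trans ((Real.exp_le_exp.2 (neg_le_neg hL1)).trans ?_)
    rw [Real.exp_neg, inv_eq_one_div]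
    exact one_div_le_one_div_of_le two_pos (by linarith [Real.add_one_le_exp (1 : ℝ)])
  have inj := lg_ch_inj hs hs1 hz hz'
  have hW : u ^ j ≠ 0 := pow_ne_zero _ hu
  set W := u ^ j
  have hH : (Ht e Hk s u W)ᴴ = Ht e Hk s u W := by
    simp [Ht, conjTranspose_smul, conjTranspose_mul, g.herm _ inj, Matrix.mul_assoc]
  have hρ : 0 < ‖s‖ ^ (1 - 6 * e) := Real.rpow_pos_of_pos (norm_pos_iff.2 hs) _
  have sg := hS.neg _ inj (tv s (u * W ^ 2) 0 (1 * W ^ 2))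
  rw [Bm_eq, zero_smul, one_smul, zero_add, Gw.cw_ch] at sg
  have key := hC u W G J _ L hu1 hu2 lim n1 n2 hH hLs hE (by
    simp only [Gw.qf_Ht, re_ofReal_mul, norm_mul, norm_real, Real.norm_of_nonneg hρ.le]
    nlinarith [mul_le_mul_of_nonneg_left sg (sq_nonneg (‖s‖ ^ (1 - 6 * e)))]) x (y / W ^ 2)
  have hy : y = y / W ^ 2 * W ^ 2 := (div_mul_cancel₀ _ (pow_ne_zero _ hW)).symm
  have y1 : ‖y‖ ≤ 4 * ‖y / W ^ 2‖ := by
    nth_rewrite 1 [hy]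
    rw [norm_mul, norm_pow, mul_comm]
    gcongr
    nlinarith [norm_nonneg W]
  have hB := Bm_eq s u W x (y / W ^ 2)
  rw [← hy] at hB
  rw [hB, Gw.cw_ch]
  simp only [Gw.qf_Ht, re_ofReal_mul, norm_mul, norm_real, Real.norm_of_nonneg hρ.le] at key
  generalize ‖s‖ ^ (1 - 6 * e) = ρ at key hρ
  generalize (qf (Hk (ch s (u * W ^ 2))) (c0 u W ᵥ* Tm s u W) (c0 u W ᵥ* Tm s u W)).re = A
    at key ⊢
  generalize ‖qf (Hk (ch s (u * W ^ 2))) (c0 u W ᵥ* Tm s u W)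
    ((x • cs u W + (y / W ^ 2) • cu W) ᵥ* Tm s u W)‖ = P at key ⊢
  generalize (qf (Hk (ch s (u * W ^ 2))) ((x • cs u W + (y / W ^ 2) • cu W) ᵥ* Tm s u W)
    ((x • cs u W + (y / W ^ 2) • cu W) ᵥ* Tm s u W)).re = Q at key ⊢
  have k2 : (‖x‖ ^ 2 + ‖y / W ^ 2‖ ^ 2) * A ^ 2 ≤ C * L ^ 2 * (P ^ 2 - A * Q) := by
    refine le_of_mul_le_mul_left ?_ (pow_pos hρ 2)
    linarith
  have k3 : ‖x‖ ^ 2 + ‖y‖ ^ 2 ≤ 16 * (‖x‖ ^ 2 + ‖y / W ^ 2‖ ^ 2) := by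
    nlinarith [norm_nonneg y, sq_nonneg ‖x‖]
  linarith [mul_le_mul_of_nonneg_right k3 (sq_nonneg A)]

end Pool.Agent.Lib.MP_0c623d_al.BP.Cu.C2
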