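import Mathlib
import Pool.Agent.Lib.MP_0c623d_al.E.MatD

set_option autoImplicit false

/-!
The connection in the constant frame.
-/

namespace Pool.Agent.Lib.MP_0c623d_al.BP.Cu

open Complex Matrix

noncomputable section

theorem Qm_Qi : Qm * Qi = 1 := by
  ext i j
  fin_cases i <;> fin_cases j <;> simp [Qm, Qi, Matrix.mul_apply, Fin.sum_univ_succ] <;> norm_num

theorem Qi_Qm : Qi * Qm = 1 := mul_eq_one_comm.mp Qm_Qi

theorem be_eq (e : ℝ) : be e = -1 - 3 * al e := by
  simp only [be, al]; ring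

theorem Q_Res0 (e : ℝ) : Qm * Res e 0 = Rm (al e) 0 * Qm := by
  ext i j
  simp only [Matrix.mul_apply, Fin.sum_univ_six, Res, Matrix.of_apply, be_eq]
  fin_cases i <;> fin_cases j <;> simp [Qm, Rm, ResA] <;> ring

theorem Q_Res1 (e : ℝ) : Qm * Res e 1 = Rm (al e) 1 * Qm := by
  ext i j
  simp only [Matrix.mul_apply, Fin.sum_univ_six, Res, Matrix.of_apply, be_eq]
  fin_cases i <;> fin_cases j <;> simp [Qm, Rm, ResA] <;> ring

theorem Q_Res2 (e : ℝ) : Qm * Res e 2 = Rm (al e) 2 * Qm := by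
  ext i j
  simp only [Matrix.mul_apply, Fin.sum_univ_six, Res, Matrix.of_apply, be_eq]
  fin_cases i <;> fin_cases j <;> simp [Qm, Rm, ResA] <;> ring

theorem Q_Res3 (e : ℝ) : Qm * Res e 3 = Rm (al e) 3 * Qm := by
  ext i j
  simp only [Matrix.mul_apply, Fin.sum_univ_six, Res, Matrix.of_apply, be_eq]
  fin_cases i <;> fin_cases j <;> simp [Qm, Rm, ResA] <;> ring

theorem Q_Res4 (e : ℝ) : Qm * Res e 4 = Rm (al e) 4 * Qm := by
  ext i j
  simp only [Matrix.mul_apply, Fin.sum_univ_six, Res, Matrix.of_apply, be_eq]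
  fin_cases i <;> fin_cases j <;> simp [Qm, Rm, ResA] <;> ring

theorem Q_Res5 (e : ℝ) : Qm * Res e 5 = Rm (al e) 5 * Qm := by
  ext i j
  simp only [Matrix.mul_apply, Fin.sum_univ_six, Res, Matrix.of_apply, be_eq]
  fin_cases i <;> fin_cases j <;> simp [Qm, Rm, ResA] <;> ring

theorem Q_conn (e : ℝ) {s z : ℂ} (hs : s ≠ 0) (hz : z ≠ 0) (h1 : z + 2 ≠ 0) (h2 : z - 2 ≠ 0)
    (h3 : s * z + 2 ≠ 0) (h4 : s * z - 2 ≠ 0) (h5 : s - 1 ≠ 0) (x y : ℂ) :
    Qm * conn e (ch s z) (tv s z x y) = Cm (al e) s z x y * Qm := by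
  have e0 : (-(s * (x * z + y) / 2) - s * (x * z + y) / 2) / (-(s * z / 2) - s * z / 2) =
      (x * z + y) / z := by
    rw [div_eq_div_iff (by intro h; apply mul_ne_zero hs hz; linear_combination -h) hz]; ring
  have e1 : (-(s * (x * z + y) / 2) - x * s) / (-(s * z / 2) - s) = (x * z + y + 2 * x) / (z + 2) := by
    rw [div_eq_div_iff (by intro h; apply mul_ne_zero hs h1; linear_combination -2 * h) h1]; ring
  have e2 : (-(s * (x * z + y) / 2) - 0) / (-(s * z / 2) - 1) = s * (x * z + y) / (s * z + 2) := by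
    rw [div_eq_div_iff (by intro h; apply h3; linear_combination -2 * h) h3]; ring
  have e3 : (s * (x * z + y) / 2 - x * s) / (s * z / 2 - s) = (x * z + y - 2 * x) / (z - 2) := by
    rw [div_eq_div_iff (by intro h; apply mul_ne_zero hs h2; linear_combination 2 * h) h2]; ring
  have e4 : (s * (x * z + y) / 2 - 0) / (s * z / 2 - 1) = s * (x * z + y) / (s * z - 2) := by
    rw [div_eq_div_iff (by intro h; apply h4; linear_combination 2 * h) h4]; ring
  have e5 : (x * s - 0) / (s - 1) = x * s / (s - 1) := by rw [sub_zero]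
  have : conn e (ch s z) (tv s z x y) =
      ((x * z + y) / z) • Res e 0 + ((x * z + y + 2 * x) / (z + 2)) • Res e 1 +
    (s * (x * z + y) / (s * z + 2)) • Res e 2 + ((x * z + y - 2 * x) / (z - 2)) • Res e 3 +
    (s * (x * z + y) / (s * z - 2)) • Res e 4 + (x * s / (s - 1)) • Res e 5 := by
    rw [← e0, ← e1, ← e2, ← e3, ← e4, ← e5]
    simp only [conn, Fin.sum_univ_six]
    rfl
  rw [this, Cm]
  simp only [Matrix.mul_add, Matrix.add_mul, Matrix.mul_smul, Matrix.smul_mul, Q_Res0, Q_Res1,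
    Q_Res2, Q_Res3, Q_Res4, Q_Res5]

end

end Pool.Agent.Lib.MP_0c623d_al.BP.Cu
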